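import Pool.Agent.T6.H98.KO.Struct

set_option autoImplicit false

/-! Consequences of the decomposition of the normalised brackets. -/

namespace Pool.Agent.T6.H98.KO

open Finset LaurentPolynomial Pool.Agent.H891R2.HO
open Pool.Agent.H891R2.HO.O6 (Sup)

variable {k n : ℕ}

theorem T_nat_mul (a : ℤ) (l : ℕ) : (T (a * l) : ℤ[T;T⁻¹]) = T a ^ l := by
  rw [T_pow, mul_comm]

/-- `x^m - 1` is divisible by `x - 1` -/
theorem dvd_zpow (a m : ℤ) : (T a - 1 : ℤ[T;T⁻¹]) ∣ T (a * m) - 1 := by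
  obtain ⟨l, rfl | rfl⟩ := m.eq_nat_or_neg
  · rw [T_nat_mul]
    have := sub_dvd_pow_sub_pow (T a : ℤ[T;T⁻¹]) 1 l
    rwa [one_pow] at this
  · have h := sub_dvd_pow_sub_pow (T a : ℤ[T;T⁻¹]) 1 l
    rw [one_pow, ← T_nat_mul] at h
    have e : (T (a * -(l : ℤ)) - 1 : ℤ[T;T⁻¹]) = -(T (a * -(l : ℤ))) * (T (a * l) - 1) := by
      rw [mul_sub, neg_mul, ← T_add]
      have : a * -(l : ℤ) + a * l = 0 := by ring
      rw [this, T_zero]
      ring
    rw [e]
    exact Dvd.dvd.mul_left h _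

/-- even exponents -/
theorem even_cong (l : ℤ) : ((T 12 - 1 : ℤ[T;T⁻¹]) ∣ T (6 * (2 * l)) - 1) ∧ 
    (T 12 - 1 : ℤ[T;T⁻¹]) ^ 2 ∣ T (6 * (2 * l)) + T (-6 * (2 * l)) - 2 := by
  have e : (6 : ℤ) * (2 * l) = 12 * l := by ring
  have e2 : (-6 : ℤ) * (2 * l) = -(12 * l) := by ring
  rw [e, e2]
  refine ⟨dvd_zpow 12 l, ?_⟩
  have h := pow_dvd_pow_of_dvd (dvd_zpow 12 l) 2
  have e3 : (T (12 * l) + T (-(12 * l)) - 2 : ℤ[T;T⁻¹]) = T (-(12 * l)) * (T (12 * l) - 1) ^ 2 := by
    have h1 : (T (-(12 * l)) : ℤ[T;T⁻¹]) * T (12 * l) = 1 := by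
      rw [← T_add, neg_add_cancel, T_zero]
    linear_combination (2 - T (12 * l)) * h1
  rw [e3]
  exact Dvd.dvd.mul_left h _

/-- odd exponents -/
theorem odd_cong (l : ℤ) : ((T 12 - 1 : ℤ[T;T⁻¹]) ∣ T (6 * (2 * l + 1)) - T 6) ∧ 
    (T 12 - 1 : ℤ[T;T⁻¹]) ^ 2 ∣ T (6 * (2 * l + 1)) + T (-6 * (2 * l + 1)) - (T 6 + T (-6)) := by
  have e : (6 : ℤ) * (2 * l + 1) = 6 + 12 * l := by ring
  have e2 : (-6 : ℤ) * (2 * l + 1) = -(6 + 12 * l) := by ring
  rw [e, e2]
  constructor
  · have e3 : (T (6 + 12 * l) - T 6 : ℤ[T;T⁻¹]) = T 6 * (T (12 * l) - 1) := by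
      rw [T_add]; ring
    rw [e3]
    exact Dvd.dvd.mul_left (dvd_zpow 12 l) _
  · have h := mul_dvd_mul (dvd_zpow 12 l) (dvd_zpow 12 (l + 1))
    rw [← pow_two] at h
    have e3 : (T (6 + 12 * l) + T (-(6 + 12 * l)) - (T 6 + T (-6)) : ℤ[T;T⁻¹]) = 
        T (-(6 + 12 * l)) * ((T (12 * l) - 1) * (T (12 * (l + 1)) - 1)) := by
      have h1 : (T (-(6 + 12 * l)) : ℤ[T;T⁻¹]) * (T (12 * l) * T (12 * (l + 1))) = T (6 + 12 * l) := by
        rw [← T_add, ← T_add]
        congr 1
        ring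
      have h2 : (T (-(6 + 12 * l)) : ℤ[T;T⁻¹]) * T (12 * l) = T (-6) := by
        rw [← T_add]
        congr 1
        ring
      have h3 : (T (-(6 + 12 * l)) : ℤ[T;T⁻¹]) * T (12 * (l + 1)) = T 6 := by
        rw [← T_add]
        congr 1
        ring
      linear_combination h2 + h3 - h1
    rw [e3]
    exact Dvd.dvd.mul_left h _

variable {G : Shadow k} (S : Shortcut G n)

/-- the two parts of the normalised bracket of a knotoid diagram and the brackets of the closures modulo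
`A^12 - 1` and `(A^12 - 1)^2` -/
theorem congruence (hG : Sphere G) (hK : G.IsKnot) (w : Fin k → Bool) (o : Fin k × Fin 4 → Bool)
    (ho : G.Oriented o) : ∃ g₀ g₂ : ℤ[T;T⁻¹], Sup 0 g₀ ∧ Sup 2 g₂ ∧ S.fK w o = g₀ + g₂ ∧
      (T 12 - 1 : ℤ[T;T⁻¹]) ∣ G.f (S.close w false) o - g₀ - T 6 * g₂ ∧
      (T 12 - 1 : ℤ[T;T⁻¹]) ∣ G.f (S.close w true) o - g₀ - T 6 * g₂ ∧
      (T 12 - 1 : ℤ[T;T⁻¹]) ^ 2 ∣ G.f (S.close w false) o + G.f (S.close w true) o - 
        2 * g₀ - (T 6 + T (-6)) * g₂ := by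
  obtain ⟨m, _, h2, h3, h4, h5, _⟩ := structure_state S hG hK w o ho
  set C : (S.Rest → Bool) → ℤ[T;T⁻¹] := term S w o with hC
  refine ⟨∑ s, (if Even (m s) then C s else 0), ∑ s, (if Even (m s) then 0 else C s), ?_, ?_, ?_, ?_, ?_, ?_⟩
  · apply Sup.sum
    intro s _
    split_ifs with h
    · obtain ⟨l, hl⟩ := h
      refine (h2 s).congr ⟨l, ?_⟩
      rw [hl]; ring
    · exact Sup.zero 0
  · apply Sup.sum
    intro s _
    split_ifs with h
    · exact Sup.zero 2
    · rw [Int.not_even_iff_odd] at h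
      obtain ⟨l, hl⟩ := h
      refine (h2 s).congr ⟨l, ?_⟩
      rw [hl]; ring
  · rw [h3, ← Finset.sum_add_distrib]
    refine Finset.sum_congr rfl fun s _ => ?_
    split_ifs <;> simp
  · rw [h4, Finset.mul_sum, ← Finset.sum_sub_distrib, ← Finset.sum_sub_distrib]
    refine Finset.dvd_sum fun s _ => ?_
    split_ifs with h
    · obtain ⟨l, hl⟩ := h
      have e : T (6 * m s) * C s - C s - T 6 * 0 = (T (6 * (2 * l)) - 1) * C s := by
        rw [hl, ← two_mul]; ring
      rw [e]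
      exact Dvd.dvd.mul_right (even_cong l).1 _
    · rw [Int.not_even_iff_odd] at h
      obtain ⟨l, hl⟩ := h
      have e : T (6 * m s) * C s - 0 - T 6 * C s = (T (6 * (2 * l + 1)) - T 6) * C s := by
        rw [hl]; ring
      rw [e]
      exact Dvd.dvd.mul_right (odd_cong l).1 _
  · rw [h5, Finset.mul_sum, ← Finset.sum_sub_distrib, ← Finset.sum_sub_distrib]
    refine Finset.dvd_sum fun s _ => ?_
    split_ifs with h
    · obtain ⟨l, hl⟩ := h
      have e : T (-6 * m s) * C s - C s - T 6 * 0 = (T (6 * (2 * (-l))) - 1) * C s := by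
        have e1 : -6 * m s = 6 * (2 * (-l)) := by rw [hl]; ring
        rw [e1]; ring
      rw [e]
      exact Dvd.dvd.mul_right (even_cong (-l)).1 _
    · rw [Int.not_even_iff_odd] at h
      obtain ⟨l, hl⟩ := h
      have e : T (-6 * m s) * C s - 0 - T 6 * C s = (T (6 * (2 * (-l - 1) + 1)) - T 6) * C s := by
        have e1 : -6 * m s = 6 * (2 * (-l - 1) + 1) := by rw [hl]; ring
        rw [e1]; ring
      rw [e]
      exact Dvd.dvd.mul_right (odd_cong (-l - 1)).1 _
  · rw [h4, h5, Finset.mul_sum, Finset.mul_sum, ← Finset.sum_add_distrib, ← Finset.sum_sub_distrib, 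
      ← Finset.sum_sub_distrib]
    refine Finset.dvd_sum fun s _ => ?_
    split_ifs with h
    · obtain ⟨l, hl⟩ := h
      have e : T (6 * m s) * C s + T (-6 * m s) * C s - 2 * C s - (T 6 + T (-6)) * 0 = 
          (T (6 * (2 * l)) + T (-6 * (2 * l)) - 2) * C s := by
        rw [hl, ← two_mul]; ring
      rw [e]
      exact Dvd.dvd.mul_right (even_cong l).2 _
    · rw [Int.not_even_iff_odd] at h
      obtain ⟨l, hl⟩ := h
      have e : T (6 * m s) * C s + T (-6 * m s) * C s - 2 * 0 - (T 6 + T (-6)) * C s = 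
          (T (6 * (2 * l + 1)) + T (-6 * (2 * l + 1)) - (T 6 + T (-6))) * C s := by
        rw [hl]; ring
      rw [e]
      exact Dvd.dvd.mul_right (odd_cong l).2 _

/-- a Laurent polynomial with both supports vanishes -/
theorem sup_zero_two (p : ℤ[T;T⁻¹]) (h0 : Sup 0 p) (h2 : Sup 2 p) : p = 0 := by
  ext j
  by_contra h
  have h' : p.coeff j ≠ 0 := h
  have a := h0 j h'
  have b := h2 j h'
  omega

theorem parts_unique {g₀ g₂ g₀' g₂' : ℤ[T;T⁻¹]} (h0 : Sup 0 g₀) (h2 : Sup 2 g₂) (h0' : Sup 0 g₀') 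
    (h2' : Sup 2 g₂') (h : g₀ + g₂ = g₀' + g₂') : g₀ = g₀' ∧ g₂ = g₂' := by
  have h1 : g₀ - g₀' = 0 := by
    apply sup_zero_two
    · rw [sub_eq_add_neg]
      exact h0.add h0'.neg
    · have e : g₀ - g₀' = g₂' + -g₂ := by linear_combination h
      rw [e]
      exact h2'.add h2.neg
  have h3 : g₀ = g₀' := sub_eq_zero.1 h1
  refine ⟨h3, ?_⟩
  rw [h3] at h
  exact add_left_cancel h

/-- shortcuts which cross the diagram twice -/
theorem height_two (S : Shortcut G 1) (hG : Sphere G) (hK : G.IsKnot) (w : Fin k → Bool) 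
    (o : Fin k × Fin 4 → Bool) (ho : G.Oriented o) : ∃ g₀ g₂ : ℤ[T;T⁻¹], Sup 0 g₀ ∧ Sup 2 g₂ ∧ 
      S.fK w o = g₀ + g₂ ∧
      ((S.tau o = 0 ∧ G.f (S.close w false) o + G.f (S.close w true) o = 2 * g₀ + (T 6 + T (-6)) * g₂) ∨
       (S.tau o = 2 ∧ G.f (S.close w true) o - g₀ - T 6 * g₂ = 
          -(T 12 * (G.f (S.close w false) o - g₀ - T (-6) * g₂))) ∨
       (S.tau o = -2 ∧ G.f (S.close w true) o - g₀ - T (-6) * g₂ = 
          -(T (-12) * (G.f (S.close w false) o - g₀ - T 6 * g₂)))) := by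
  obtain ⟨m, h1, h2, h3, h4, h5, _⟩ := structure_state S hG hK w o ho
  set C : (S.Rest → Bool) → ℤ[T;T⁻¹] := term S w o with hC
  refine ⟨∑ s, (if Even (m s) then C s else 0), ∑ s, (if Even (m s) then 0 else C s), ?_, ?_, ?_, ?_⟩
  · apply Sup.sum
    intro s _
    split_ifs with h
    · obtain ⟨l, hl⟩ := h
      refine (h2 s).congr ⟨l, ?_⟩
      rw [hl]; ring
    · exact Sup.zero 0
  · apply Sup.sum
    intro s _
    split_ifs with h
    · exact Sup.zero 2
    · rw [Int.not_even_iff_odd] at h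
      obtain ⟨l, hl⟩ := h
      refine (h2 s).congr ⟨l, ?_⟩
      rw [hl]; ring
  · rw [h3, ← Finset.sum_add_distrib]
    refine Finset.sum_congr rfl fun s _ => ?_
    split_ifs <;> simp
  · have htau : S.tau o = 0 ∨ S.tau o = 2 ∨ S.tau o = -2 := by
      unfold Shortcut.tau
      rw [Fin.sum_univ_two]
      unfold Shadow.sign
      split_ifs <;> simp
    rcases htau with ht | ht | ht
    · left
      refine ⟨ht, ?_⟩
      rw [h4, h5, Finset.mul_sum, Finset.mul_sum, ← Finset.sum_add_distrib, ← Finset.sum_add_distrib]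
      refine Finset.sum_congr rfl fun s _ => ?_
      have hm := h1 s
      rw [ht, abs_le] at hm
      push_cast at hm
      have hm' : m s = -1 ∨ m s = 0 ∨ m s = 1 := by omega
      rcases hm' with h | h | h
      · rw [h, if_neg (by decide), if_neg (by decide)]
        norm_num
        ring
      · rw [h, if_pos (by decide), if_pos (by decide)]
        norm_num
        ring
      · rw [h, if_neg (by decide), if_neg (by decide)]
        norm_num
        ring
    · right; left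
      refine ⟨ht, ?_⟩
      rw [h4, h5, Finset.mul_sum, Finset.mul_sum, ← Finset.sum_sub_distrib, ← Finset.sum_sub_distrib, 
        ← Finset.sum_sub_distrib, ← Finset.sum_sub_distrib, Finset.mul_sum, ← Finset.sum_neg_distrib]
      refine Finset.sum_congr rfl fun s _ => ?_
      have hm := h1 s
      rw [ht, abs_le] at hm
      push_cast at hm
      have hm' : m s = -2 ∨ m s = -1 ∨ m s = 0 := by omega
      rcases hm' with h | h | h
      · rw [h, if_pos (by decide), if_pos (by decide)]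
        have e1 : (T (6 * -2) : ℤ[T;T⁻¹]) = T (-12) := by norm_num
        have e2 : (T (-6 * -2) : ℤ[T;T⁻¹]) = T 12 := by norm_num
        have e3 : (T 12 : ℤ[T;T⁻¹]) * T (-12) = 1 := by rw [← T_add]; norm_num
        rw [e1, e2]
        linear_combination (C s) * e3
      · rw [h, if_neg (by decide), if_neg (by decide)]
        norm_num
      · rw [h, if_pos (by decide), if_pos (by decide)]
        norm_num
    · right; right
      refine ⟨ht, ?_⟩
      rw [h4, h5, Finset.mul_sum, Finset.mul_sum, ← Finset.sum_sub_distrib, ← Finset.sum_sub_distrib, 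
        ← Finset.sum_sub_distrib, ← Finset.sum_sub_distrib, Finset.mul_sum, ← Finset.sum_neg_distrib]
      refine Finset.sum_congr rfl fun s _ => ?_
      have hm := h1 s
      rw [ht, abs_le] at hm
      push_cast at hm
      have hm' : m s = 0 ∨ m s = 1 ∨ m s = 2 := by omega
      rcases hm' with h | h | h
      · rw [h, if_pos (by decide), if_pos (by decide)]
        norm_num
      · rw [h, if_neg (by decide), if_neg (by decide)]
        norm_num
      · rw [h, if_pos (by decide), if_pos (by decide)]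
        have e1 : (T (6 * 2) : ℤ[T;T⁻¹]) = T 12 := by norm_num
        have e2 : (T (-6 * 2) : ℤ[T;T⁻¹]) = T (-12) := by norm_num
        have e3 : (T (-12) : ℤ[T;T⁻¹]) * T 12 = 1 := by rw [← T_add]; norm_num
        rw [e1, e2]
        linear_combination (C s) * e3

end Pool.Agent.T6.H98.KO
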