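import Pool.Agent.T6.H98.KO.Key

set_option autoImplicit false

/-! Summation over the colours of the inner arcs of the shortcut. -/

namespace Pool.Agent.T6.H98.KO

open Finset

variable {α : Type*} {N : ℕ}

/-- the product of the transfer matrices -/
noncomputable def tr (X : Fin N → Fin N → Fin N → Fin N → ℂ) : Fin N → List (Fin N × Fin N) → Fin N → ℂ
  | c, [], d => if c = d then 1 else 0
  | c, (x, y) :: L, d => ∑ m, X c x y m * tr X m L d

theorem tr_nil (X : Fin N → Fin N → Fin N → Fin N → ℂ) (c d : Fin N) : tr X c [] d = if c = d then 1 else 0 := rfl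

theorem tr_cons (X : Fin N → Fin N → Fin N → Fin N → ℂ) (c x y d : Fin N) (L : List (Fin N × Fin N)) : 
    tr X c ((x, y) :: L) d = ∑ m, X c x y m * tr X m L d := rfl

/-- the weight of a crossing -/
noncomputable def Xw (A : ℂ) (c x y m : Fin N) : ℂ := 
  A * (if c = x ∧ y = m then 1 else 0) + A⁻¹ * (if c = y ∧ x = m then 1 else 0)

/-- the weight of a virtual crossing -/
noncomputable def Xv (c x y m : Fin N) : ℂ := if c = m ∧ x = y then 1 else 0

theorem tr_Xw (A : ℂ) (d : Fin N) (L : List (Fin N × Fin N)) : ∀ c, tr (Xw A) c L d = wt A c L d := by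
  induction L with
  | nil => intro c; rfl
  | cons p L ih =>
    obtain ⟨x, y⟩ := p
    intro c
    rw [tr_cons, wt_cons]
    simp only [ih]
    have h : ∀ m, Xw A c x y m * wt A m L d = 
        A * (if y = m then (if c = x then wt A m L d else 0) else 0) + 
        A⁻¹ * (if x = m then (if c = y then wt A m L d else 0) else 0) := by
      intro m
      unfold Xw
      have e : ∀ (p q : Prop) [Decidable p] [Decidable q] (v : ℂ), 
          (if p ∧ q then (1 : ℂ) else 0) * v = if q then (if p then v else 0) else 0 := by
        intro p q _ _ v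
        by_cases hp : p <;> by_cases hq : q <;> simp [hp, hq]
      rw [add_mul, mul_assoc, mul_assoc, e, e]
    simp only [h]
    rw [Finset.sum_add_distrib, ← Finset.mul_sum, ← Finset.mul_sum, Finset.sum_ite_eq, Finset.sum_ite_eq]
    simp

theorem tr_Xv (d : Fin N) (L : List (Fin N × Fin N)) : ∀ c, tr Xv c L d = wk c L d := by
  induction L with
  | nil => intro c; rfl
  | cons p L ih =>
    obtain ⟨x, y⟩ := p
    intro c
    rw [tr_cons, wk_cons]
    simp only [ih]
    have h : ∀ m, Xv c x y m * wk m L d = if c = m then (if x = y then wk m L d else 0) else 0 := by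
      intro m
      unfold Xv
      by_cases h1 : c = m <;> by_cases h2 : x = y <;> simp [h1, h2]
    simp only [h]
    rw [Finset.sum_ite_eq]
    simp

theorem contract [Fintype α] [DecidableEq α] (X : Fin N → Fin N → Fin N → Fin N → ℂ) : 
    ∀ (n : ℕ) (a : Fin (n + 2) → α) (x y : Fin (n + 1) → α) (F : (α → Fin N) → ℂ),
    (∀ i j : Fin (n + 2), i ≠ 0 → i ≠ Fin.last (n + 1) → j ≠ i → a j ≠ a i) →
    (∀ i, i ≠ 0 → i ≠ Fin.last (n + 1) → ∀ j, x j ≠ a i ∧ y j ≠ a i) →
    (∀ i, i ≠ 0 → i ≠ Fin.last (n + 1) → ∀ (col : α → Fin N) (z : Fin N), F (Function.update col (a i) z) = F col) →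
    (N : ℂ) ^ n * ∑ col : α → Fin N, F col * ∏ j : Fin (n + 1), 
        X (col (a j.castSucc)) (col (x j)) (col (y j)) (col (a j.succ)) =
      ∑ col : α → Fin N, F col * tr X (col (a 0)) (mp col (List.ofFn fun j => (x j, y j))) 
        (col (a (Fin.last (n + 1)))) := by
  intro n
  induction n with
  | zero =>
    intro a x y F _ _ _
    rw [pow_zero, one_mul]
    refine Finset.sum_congr rfl fun col _ => ?_
    congr 1
    rw [Fin.prod_univ_succ, Fin.prod_univ_zero, mul_one, List.ofFn_succ, List.ofFn_zero, mp_cons, mp_nil, 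
      tr_cons]
    simp only [tr_nil]
    have h : ∀ m, (X (col (a 0)) (col (x 0)) (col (y 0)) m * if m = col (a (Fin.last (0 + 1))) then 1 else 0) =
        if m = col (a (Fin.last (0 + 1))) then X (col (a 0)) (col (x 0)) (col (y 0)) m else 0 := by
      intro m
      split_ifs <;> simp
    simp only [h]
    rw [Finset.sum_ite_eq']
    simp
  | succ n ih =>
    intro a x y F h1 h2 h3
    have hne : ∀ i : Fin (n + 2), i ≠ Fin.last (n + 1) → i.succ ≠ Fin.last (n + 1 + 1) := by
      intro i hi h
      apply hi
      apply Fin.succ_injective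
      rw [h]
      rfl
    have q1 : ∀ i : Fin (n + 2), i.succ ≠ 0 := fun i => Fin.succ_ne_zero i
    have hlast : (1 : Fin (n + 3)) ≠ Fin.last (n + 1 + 1) := by
      intro h
      have := congrArg Fin.val h
      simp at this
    have ih' := ih (fun i => a i.succ) (fun j => x j.succ) (fun j => y j.succ) 
      (fun col => F col * X (col (a 0)) (col (x 0)) (col (y 0)) (col (a 1)))
      (fun i j hi hi' hij => h1 i.succ j.succ (q1 i) (hne i hi') (fun h => hij (Fin.succ_injective _ h)))
      (fun i hi hi' j => h2 i.succ (q1 i) (hne i hi') j.succ)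
      (by
        intro i hi hi' col z
        have e1 := h3 i.succ (q1 i) (hne i hi') col z
        have e2 : Function.update col (a i.succ) z (a 0) = col (a 0) := 
          upd_ne _ _ (h1 i.succ 0 (q1 i) (hne i hi') (Ne.symm (q1 i)))
        have e3 : Function.update col (a i.succ) z (a 1) = col (a 1) := by
          apply upd_ne
          apply h1 i.succ 1 (q1 i) (hne i hi')
          intro h
          apply hi
          apply Fin.succ_injective
          rw [← h]
          rfl
        have e4 : Function.update col (a i.succ) z (x 0) = col (x 0) := 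
          upd_ne _ _ (h2 i.succ (q1 i) (hne i hi') 0).1
        have e5 : Function.update col (a i.succ) z (y 0) = col (y 0) := 
          upd_ne _ _ (h2 i.succ (q1 i) (hne i hi') 0).2
        simp only [e1, e2, e3, e4, e5])
    have e0 : ∑ col : α → Fin N, F col * ∏ j : Fin (n + 1 + 1), 
        X (col (a j.castSucc)) (col (x j)) (col (y j)) (col (a j.succ)) = 
        ∑ col : α → Fin N, (F col * X (col (a 0)) (col (x 0)) (col (y 0)) (col (a 1))) * 
          ∏ j : Fin (n + 1), X (col (a j.castSucc.succ)) (col (x j.succ)) (col (y j.succ)) (col (a j.succ.succ)) := by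
      refine Finset.sum_congr rfl fun col _ => ?_
      rw [Fin.prod_univ_succ, mul_assoc]
      rfl
    rw [e0, pow_succ', mul_assoc, ih']
    have e6 := sum_letter (a 1) (fun col : α → Fin N => F col * X (col (a 0)) (col (x 0)) (col (y 0)) (col (a 1)) * 
        tr X (col (a (Fin.succ 0))) (mp col (List.ofFn fun j : Fin (n + 1) => (x j.succ, y j.succ))) 
        (col (a (Fin.last (n + 1)).succ)))
      (fun col => F col * tr X (col (a 0)) (mp col (List.ofFn fun j => (x j, y j))) 
        (col (a (Fin.last (n + 1 + 1))))) 1 (by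
        intro col
        have f1 : ∀ c, F (Function.update col (a 1) c) = F col := fun c => h3 1 (q1 0) hlast col c
        have f2 : ∀ c, Function.update col (a 1) c (a 0) = col (a 0) := fun c =>
          upd_ne _ _ (h1 1 0 (q1 0) hlast (Ne.symm (q1 0)))
        have f3 : ∀ c, Function.update col (a 1) c (x 0) = col (x 0) := fun c =>
          upd_ne _ _ (h2 1 (q1 0) hlast 0).1
        have f4 : ∀ c, Function.update col (a 1) c (y 0) = col (y 0) := fun c =>
          upd_ne _ _ (h2 1 (q1 0) hlast 0).2
        have f5 : ∀ c, Function.update col (a 1) c (a 1) = c := fun c => upd_self _ _ _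
        have f6 : ∀ c, Function.update col (a 1) c (a (Fin.succ 0)) = c := fun c => upd_self _ _ _
        have f7 : ∀ c, Function.update col (a 1) c (a (Fin.last (n + 1)).succ) = col (a (Fin.last (n + 1)).succ) := 
          fun c => upd_ne _ _ (h1 1 _ (q1 0) hlast (Ne.symm hlast))
        have f8 : ∀ c, mp (Function.update col (a 1) c) (List.ofFn fun j : Fin (n + 1) => (x j.succ, y j.succ)) = 
            mp col (List.ofFn fun j : Fin (n + 1) => (x j.succ, y j.succ)) := by
          intro c
          apply mp_upd
          intro p hp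
          rw [List.mem_ofFn] at hp
          obtain ⟨j, rfl⟩ := hp
          exact h2 1 (q1 0) hlast j.succ
        simp only [f1, f2, f3, f4, f5, f6, f7, f8]
        have f9 : (List.ofFn fun j : Fin (n + 1 + 1) => (x j, y j)) = 
            (x 0, y 0) :: List.ofFn fun j : Fin (n + 1) => (x j.succ, y j.succ) := by
          rw [List.ofFn_succ]
        rw [f9, mp_cons, tr_cons, one_mul, Finset.mul_sum]
        refine Finset.sum_congr rfl fun c _ => ?_
        rw [mul_assoc]
        rfl)
    rw [one_mul] at e6
    exact e6

end Pool.Agent.T6.H98.KO
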