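import Pool.Agent.H891R2.HO.Defs

set_option autoImplicit false

/-!
Knotoid diagrams together with a shortcut.

A knotoid diagram with a shortcut (an arc from the head to the tail which is transverse to the diagram) which
crosses the diagram `n + 1` times is described by the shadow of a knot diagram together with the strand of this
diagram which is the shortcut.
-/

namespace Pool.Agent.T6.H98.KO

open Finset LaurentPolynomial Pool.Agent.H891R2.HO

variable {k n : ℕ}

/-- The shadow `G` (see `Pool.Agent.H891R2.HO.Defs`) lies in the sphere: it has the property of Jordan curves.
`z c` says whether the arc at the corner `c` belongs to a set `z` of arcs; if `z` is a closed curve modulo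
two, that is, if the number of the corners of every crossing which belong to `z` is even, then `z` is
the boundary of a set of regions.  `χ c` says whether the region at the left side of the arc which leaves the
crossing at the corner `c` belongs to this set.  (All shadows in the sphere have this property; a connected
shadow with this property lies in a surface with vanishing homology modulo two, hence in the sphere.) -/
def Sphere (G : Shadow k) : Prop :=
  ∀ z : Fin k × Fin 4 → Bool, (∀ c, z (G.arc c) = z c) →
    (∀ i, xor (xor (z (i, 0)) (z (i, 1))) (xor (z (i, 2)) (z (i, 3))) = false) →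
    ∃ χ : Fin k × Fin 4 → Bool, (∀ c, χ (G.arc c) = xor (χ c) (z c)) ∧
      ∀ i j, χ (i, j + 1) = xor (χ (i, j)) (z (i, j + 1))

/-- The shadow `G` has a strand which passes through the `n + 1` pairwise different crossings
`e 0, e 1, …, e n`, one after the other, at each of them from the corner `0` to the corner `2`. -/
structure Shortcut (G : Shadow k) (n : ℕ) where
  e : Fin (n + 1) → Fin k
  inj : Function.Injective e
  path : ∀ j : Fin n, G.arc (e j.castSucc, 2) = (e j.succ, 0)

namespace Shortcut

variable {G : Shadow k} (S : Shortcut G n)

/-- the crossings of the knotoid diagram `K` which is obtained by deleting the shortcut -/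
abbrev Rest : Type := {i : Fin k // ∀ j, S.e j ≠ i}

/-- two corners are joined outside the shortcut in the state `s` of the knotoid diagram -/
def Out (s : S.Rest → Bool) (c c' : Fin k × Fin 4) : Prop :=
  c' = G.arc c ∨ ∃ h : ∀ j, S.e j ≠ c.1, c' = (c.1, pair (s ⟨c.1, h⟩) c.2)

/-- The number of the components (the interval and the circles) of the state `s` of the knotoid diagram.  The
strand which crosses the shortcut at the crossing `e j` joins the corners `1` and `3` of this crossing; the
tail and the head of the interval are joined along the shortcut. -/
noncomputable def comps (s : S.Rest → Bool) : ℕ :=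
  Nat.card (Quot (fun c c' : Fin k × Fin 4 => S.Out s c c' ∨ 
    ∃ j, (c = (S.e j, 0) ∧ c' = (S.e j, 2)) ∨ (c = (S.e j, 1) ∧ c' = (S.e j, 3))))

/-- the bracket of the knotoid diagram `K` with the crossings `w` (the values of `w` at the crossings `e j` do
not matter) -/
noncomputable def bracketK (w : Fin k → Bool) : ℤ[T;T⁻¹] :=
  ∑ s : S.Rest → Bool, T (∑ i, if s i = w i then 1 else -1) * dd ^ (S.comps s - 1)

/-- the normalised bracket of the knotoid diagram `K` -/
noncomputable def fK (w : Fin k → Bool) (o : Fin k × Fin 4 → Bool) : ℤ[T;T⁻¹] :=
  Shadow.unit (∑ i : S.Rest, Shadow.sign w o i) * S.bracketK w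

/-- the crossings of the closures of the knotoid diagram: at the crossings `e j` the shortcut is above
(`b = false`) or below (`b = true`) the other strand -/
def close (w : Fin k → Bool) (b : Bool) (i : Fin k) : Bool := if ∃ j, S.e j = i then b else w i

/-- the sum of the signs of the crossings `e j` if the shortcut passes over the diagram -/
def tau (o : Fin k × Fin 4 → Bool) : ℤ := ∑ j, Shadow.sign (fun _ => false) o (S.e j)

/-- The ends of the pieces of the knotoid diagram outside the shortcut, in the cyclic order around the shortcut:
the corner `0` of the crossing `e 0`, the corners `3` of `e 0, …, e n`, the corner `2` of `e n`, the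
corners `1` of `e n, …, e 0`. -/
def ends : List (Fin k × Fin 4) :=
  (S.e 0, 0) :: (List.ofFn (fun j => (S.e j, (3 : Fin 4))) ++ 
    (S.e (Fin.last n), 2) :: (List.ofFn (fun j => (S.e j, (1 : Fin 4)))).reverse)

end Shortcut

end Pool.Agent.T6.H98.KO
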