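import Mathlib

set_option autoImplicit false

/-! Two involutions, the first without fixed points: every class contains no or two fixed points of the
second one. -/

namespace Pool.Agent.T6.H98.KO

open Equiv

variable {D : Type*}

section

variable (α β : Perm D) (hα : ∀ c, α (α c) = c) (hβ : ∀ c, β (β c) = c)

include hα hβ

theorem inv_ab : (α * β)⁻¹ = β * α := by
  rw [mul_inv_rev]
  have h1 : α⁻¹ = α := by
    rw [inv_eq_iff_mul_eq_one]
    ext c
    exact hα c
  have h2 : β⁻¹ = β := by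
    rw [inv_eq_iff_mul_eq_one]
    ext c
    exact hβ c
  rw [h1, h2]

theorem conj_a (m : ℤ) (x : D) : α (((α * β) ^ m) x) = ((α * β) ^ (-m)) (α x) := by
  have h1 : α⁻¹ = α := by
    rw [inv_eq_iff_mul_eq_one]
    ext c
    exact hα c
  have h0 : α * (α * β) * α⁻¹ = (α * β)⁻¹ := by
    rw [inv_ab α β hα hβ, h1]
    ext c
    simp [hα]
  have h2 : α * (α * β) ^ m * α⁻¹ = (α * β) ^ (-m) := by
    rw [← conj_zpow, h0, inv_zpow', ]
  have h3 : α * (α * β) ^ m = (α * β) ^ (-m) * α := by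
    rw [← h2, inv_mul_cancel_right]
  have h4 := congrArg (fun p : Perm D => p x) h3
  exact h4

theorem conj_b (m : ℤ) (x : D) : β (((α * β) ^ m) x) = ((α * β) ^ (-m)) (β x) := by
  have h1 : β⁻¹ = β := by
    rw [inv_eq_iff_mul_eq_one]
    ext c
    exact hβ c
  have h0 : β * (α * β) * β⁻¹ = (α * β)⁻¹ := by
    rw [inv_ab α β hα hβ, h1]
    ext c
    simp [hβ]
  have h2 : β * (α * β) ^ m * β⁻¹ = (α * β) ^ (-m) := by
    rw [← conj_zpow, h0, inv_zpow', ]
  have h3 : β * (α * β) ^ m = (α * β) ^ (-m) * β := by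
    rw [← h2, inv_mul_cancel_right]
  have h4 := congrArg (fun p : Perm D => p x) h3
  exact h4

theorem two_ends [Finite D] (hne : ∀ c, α c ≠ c) (R : D → D → Prop) 
    (h1 : ∀ c c', R c c' → c' = α c ∨ c' = β c) (h2 : ∀ c, Quot.mk R c = Quot.mk R (α c))
    (h3 : ∀ c, Quot.mk R c = Quot.mk R (β c)) (x : D) (hx : β x = x) :
    ∃ y, y ≠ x ∧ β y = y ∧ Quot.mk R y = Quot.mk R x ∧ 
      ∀ z, β z = z → Quot.mk R z = Quot.mk R x → z = x ∨ z = y := by
  obtain ⟨r, hr⟩ : ∃ r : Perm D, r = α * β := ⟨_, rfl⟩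
  have hca : ∀ (m : ℤ) (y : D), α ((r ^ m) y) = (r ^ (-m)) (α y) := by
    rw [hr]; exact conj_a α β hα hβ
  have hcb : ∀ (m : ℤ) (y : D), β ((r ^ m) y) = (r ^ (-m)) (β y) := by
    rw [hr]; exact conj_b α β hα hβ
  have hax : α x = r x := by rw [hr, Perm.mul_apply, hx]
  -- the class of `x`
  have hcl : ∀ z, Quot.mk R z = Quot.mk R x → ∃ m : ℤ, z = (r ^ m) x := by
    let P : D → Prop := fun z => ∃ m : ℤ, z = (r ^ m) x
    have hP1 : ∀ z, P z → P (α z) := by
      rintro z ⟨m, rfl⟩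
      refine ⟨-m + 1, ?_⟩
      rw [hca, hax, zpow_add, zpow_one, Perm.mul_apply]
    have hP2 : ∀ z, P z → P (β z) := by
      rintro z ⟨m, rfl⟩
      refine ⟨-m, ?_⟩
      rw [hcb, hx]
    have hP : ∀ z z', R z z' → P z = P z' := by
      intro z z' h
      apply propext
      rcases h1 z z' h with rfl | rfl
      · exact ⟨hP1 z, fun h => by have := hP1 _ h; rwa [hα] at this⟩
      · exact ⟨hP2 z, fun h => by have := hP2 _ h; rwa [hβ] at this⟩
    intro z hz
    have h4 := congrArg (Quot.lift P hP) hz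
    have h5 : P z = P x := h4
    rw [show (∃ m : ℤ, z = (r ^ m) x) = P z from rfl, h5]
    exact ⟨0, by simp⟩
  have hs : ∀ z, Quot.mk R (r z) = Quot.mk R z := by
    intro z
    rw [hr, Perm.mul_apply, ← h2, ← h3]
  have hmem : ∀ m : ℤ, Quot.mk R ((r ^ m) x) = Quot.mk R x := by
    intro m
    induction m using Int.induction_on with
    | zero => simp
    | succ m ih =>
      rw [add_comm, zpow_add, zpow_one, Perm.mul_apply, hs]
      exact ih
    | pred m ih =>
      have e : (r ^ (-(m : ℤ))) x = r ((r ^ (-(m : ℤ) - 1)) x) := by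
        rw [← Perm.mul_apply, ← zpow_one_add]
        congr 2
        ring
      rw [e, hs] at ih
      exact ih
  -- the period
  obtain ⟨p, hp0, hdvd⟩ : ∃ p : ℕ, 0 < p ∧ ∀ m : ℤ, (r ^ m) x = x ↔ (p : ℤ) ∣ m := by
    have hdvd : ∀ m : ℤ, (r ^ m) x = x ↔ (Function.minimalPeriod (r • ·) x : ℤ) ∣ m := fun m => 
      MulAction.zpow_smul_eq_iff_minimalPeriod_dvd (a := r) (b := x) (n := m)
    refine ⟨_, ?_, hdvd⟩
    obtain ⟨m, hm, hm'⟩ := (isOfFinOrder_of_finite r).exists_pow_eq_one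
    have h5 := (hdvd (m : ℤ)).1 (by rw [zpow_natCast, hm']; rfl)
    rcases Nat.eq_zero_or_pos (Function.minimalPeriod (r • ·) x) with h | h
    · rw [h] at h5
      have : (m : ℤ) = 0 := by simpa using h5
      omega
    · exact h
  have heq : ∀ a b : ℤ, (r ^ a) x = (r ^ b) x ↔ (p : ℤ) ∣ a - b := by
    intro a b
    rw [← hdvd]
    constructor
    · intro h
      have h5 := congrArg (r ^ (-b)) h
      rw [← Perm.mul_apply, ← Perm.mul_apply, ← zpow_add, ← zpow_add] at h5
      rw [neg_add_cancel, zpow_zero, Perm.one_apply] at h5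
      have e : a - b = -b + a := by ring
      rw [e]
      exact h5
    · intro h
      have h5 := congrArg (r ^ b) h
      rw [← Perm.mul_apply, ← zpow_add] at h5
      have e : b + (a - b) = a := by ring
      rw [e] at h5
      exact h5
  have hfix : ∀ m : ℤ, β ((r ^ m) x) = (r ^ m) x ↔ (p : ℤ) ∣ 2 * m := by
    intro m
    rw [hcb, hx, heq]
    have e : -m - m = -(2 * m) := by ring
    rw [e, dvd_neg]
  have heven : (2 : ℤ) ∣ p := by
    by_contra hodd
    obtain ⟨l, hl⟩ : ∃ l : ℤ, (p : ℤ) = 2 * l + 1 := ⟨(p : ℤ) / 2, by omega⟩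
    apply hne ((r ^ (l + 1)) x)
    have e1 : α ((r ^ (l + 1)) x) = (r ^ (-(l + 1) + 1)) x := by
      rw [hca, hax, zpow_add, zpow_one, Perm.mul_apply]
    rw [e1, heq]
    have e : -(l + 1) + 1 - (l + 1) = -(p : ℤ) := by rw [hl]; ring
    rw [e, dvd_neg]
  obtain ⟨q, hq⟩ := heven
  have hq0 : 0 < q := by omega
  refine ⟨(r ^ q) x, ?_, ?_, hmem q, ?_⟩
  · intro h
    rw [hdvd, hq] at h
    have := Int.le_of_dvd hq0 h
    omega
  · rw [hfix, hq]
  · intro z hz hzx
    obtain ⟨m, rfl⟩ := hcl z hzx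
    rw [hfix, hq] at hz
    have h6 : q ∣ m := by
      obtain ⟨a, ha⟩ := hz
      exact ⟨a, by linarith⟩
    obtain ⟨a, rfl⟩ := h6
    rcases Int.even_or_odd' a with ⟨b, rfl | rfl⟩
    · left
      rw [hdvd, hq]
      exact ⟨b, by ring⟩
    · right
      rw [heq, hq]
      exact ⟨b, by ring⟩

end

end Pool.Agent.T6.H98.KO
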