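import Mathlib

set_option autoImplicit false

/-! Words whose letters are paired without crossings. -/

namespace Pool.Agent.T6.H98.KO

open List

variable {α β : Type*}

/-- the word can be reduced to the empty word by cancelling adjacent equal letters -/
inductive Red : List α → Prop
  | nil : Red []
  | ins (a : List α) (x : α) (b : List α) : Red (a ++ b) → Red (a ++ x :: x :: b)

theorem Red.map (f : α → β) {w : List α} (h : Red w) : Red (w.map f) := by
  induction h with
  | nil => exact Red.nil
  | ins a x b _ ih =>
    rw [List.map_append] at ih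
    simp only [List.map_append, List.map_cons]
    exact Red.ins _ _ _ ih

theorem Red.reverse {w : List α} (h : Red w) : Red w.reverse := by
  induction h with
  | nil => exact Red.nil
  | ins a x b _ ih =>
    rw [List.reverse_append] at ih
    have e : (a ++ x :: x :: b).reverse = b.reverse ++ x :: x :: a.reverse := by simp
    rw [e]
    exact Red.ins _ _ _ ih

theorem Red.wrap {w : List α} (h : Red w) (y : α) : Red (y :: (w ++ [y])) := by
  induction h with
  | nil => exact Red.ins [] y [] Red.nil
  | ins a x b _ ih =>
    have e : y :: (a ++ x :: x :: b ++ [y]) = (y :: a) ++ x :: x :: (b ++ [y]) := by simp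
    rw [e]
    apply Red.ins
    have e2 : y :: a ++ (b ++ [y]) = y :: (a ++ b ++ [y]) := by simp
    rw [e2]
    exact ih

/-- insertion of a reducible word -/
theorem Red.insert {u : List α} (hu : Red u) : ∀ a b : List α, Red (a ++ b) → Red (a ++ u ++ b) := by
  induction hu with
  | nil => intro a b h; simpa using h
  | ins a' x b' _ ih =>
    intro a b h
    have e : a ++ (a' ++ x :: x :: b') ++ b = (a ++ a') ++ x :: x :: (b' ++ b) := by simp
    rw [e]
    apply Red.ins
    have e2 : a ++ a' ++ (b' ++ b) = a ++ (a' ++ b') ++ b := by simp
    rw [e2]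
    exact ih a b h

theorem Red.cancel_aux {w : List α} (h : Red w) : 
    ∀ (a : List α) (x : α) (b : List α), w = a ++ x :: x :: b → Red (a ++ b) := by
  induction h with
  | nil => intro a x b h; simp at h
  | ins a' y b' hab ih =>
    intro a x b he
    rcases List.append_eq_append_iff.1 he with ⟨c, hc1, hc2⟩ | ⟨c, hc1, hc2⟩
    · -- a = a' ++ c, y :: y :: b' = c ++ x :: x :: b
      subst hc1
      match c, hc2 with
      | [], hc2 =>
        simp only [List.nil_append, List.cons.injEq] at hc2
        obtain ⟨h1, _, h2⟩ := hc2
        subst h2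
        simpa using hab
      | [z], hc2 =>
        simp only [List.cons_append, List.nil_append, List.cons.injEq] at hc2
        obtain ⟨h1, h2, h3⟩ := hc2
        subst h1
        subst h3
        simpa [h2] using hab
      | z :: z' :: c', hc2 =>
        simp only [List.cons_append, List.cons.injEq] at hc2
        obtain ⟨h1, h2, h3⟩ := hc2
        subst h1
        subst h2
        subst h3
        have h4 := ih (a' ++ c') x b (by simp)
        have e : a' ++ y :: y :: c' ++ b = a' ++ y :: y :: (c' ++ b) := by simp
        rw [e]
        apply Red.ins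
        simpa using h4
    · -- a' = a ++ c, x :: x :: b = c ++ y :: y :: b'
      subst hc1
      match c, hc2 with
      | [], hc2 =>
        simp only [List.nil_append, List.cons.injEq] at hc2
        obtain ⟨h1, _, h2⟩ := hc2
        subst h2
        simpa using hab
      | [z], hc2 =>
        simp only [List.cons_append, List.nil_append, List.cons.injEq] at hc2
        obtain ⟨h1, h2, h3⟩ := hc2
        subst h1
        subst h3
        rw [List.append_assoc] at hab
        simpa [h2] using hab
      | z :: z' :: c', hc2 =>
        simp only [List.cons_append, List.cons.injEq] at hc2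
        obtain ⟨h1, h2, h3⟩ := hc2
        subst h1
        subst h2
        subst h3
        have h4 := ih a x (c' ++ b') (by simp)
        have e : a ++ (c' ++ y :: y :: b') = (a ++ c') ++ y :: y :: b' := by simp
        rw [e]
        apply Red.ins
        simpa using h4

theorem Red.cancel {a : List α} {x : α} {b : List α} (h : Red (a ++ x :: x :: b)) : Red (a ++ b) :=
  h.cancel_aux a x b rfl

theorem Red.rotate_aux {w : List α} (h : Red w) :
    ∀ (x : α) (v : List α), w = x :: v → Red (v ++ [x]) := by
  induction h with
  | nil => intro x v h; simp at h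
  | ins a y b hab ih =>
    intro x v he
    match a, he with
    | [], he =>
      simp only [List.nil_append, List.cons.injEq] at he
      obtain ⟨h1, h2⟩ := he
      subst h1
      subst h2
      exact Red.wrap (by simpa using hab) y
    | z :: a', he =>
      simp only [List.cons_append, List.cons.injEq] at he
      obtain ⟨h1, h2⟩ := he
      subst h1
      subst h2
      have h3 := ih z (a' ++ b) (by simp)
      have e : a' ++ y :: y :: b ++ [z] = a' ++ y :: y :: (b ++ [z]) := by simp
      rw [e]
      apply Red.ins
      simpa using h3

theorem Red.rotate {x : α} {v : List α} (h : Red (x :: v)) : Red (v ++ [x]) :=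
  h.rotate_aux x v rfl

/-- a nonempty reducible word has adjacent equal letters -/
theorem Red.adj {w : List α} (h : Red w) (hw : w ≠ []) : ∃ a x b, w = a ++ x :: x :: b := by
  cases h with
  | nil => exact absurd rfl hw
  | ins a x b _ => exact ⟨a, x, b, rfl⟩

/-- every letter occurs twice or not at all -/
def Two [DecidableEq α] (w : List α) : Prop := ∀ x, w.count x = 0 ∨ w.count x = 2

/-- no two letters alternate -/
def NoCross (w : List α) : Prop := ∀ x y, x ≠ y → ¬ [x, y, x, y].Sublist w

theorem red_of_noCross [DecidableEq α] : ∀ (n : ℕ) (w : List α), w.length ≤ n → Two w → NoCross w → Red w := by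
  intro n
  induction n with
  | zero =>
    intro w hw _ _
    have : w = [] := List.length_eq_zero_iff.1 (by omega)
    subst this
    exact Red.nil
  | succ n ih =>
    intro w hw h2 hn
    match w with
    | [] => exact Red.nil
    | x :: w' =>
      have hx : w'.count x = 1 := by
        have := h2 x
        rw [List.count_cons_self] at this
        omega
      have hmem : x ∈ w' := by
        rw [← List.count_pos_iff]; omega
      obtain ⟨u, v, rfl⟩ := List.append_of_mem hmem
      have hx2 : u.count x + v.count x = 0 := by
        rw [List.count_append, List.count_cons_self] at hx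
        omega
      have hcount : ∀ y, y ≠ x → (u.count y + v.count y = 0 ∨ u.count y + v.count y = 2) := by
        intro y hy
        have := h2 y
        rw [List.count_cons_of_ne hy.symm, List.count_append, List.count_cons_of_ne hy.symm] at this
        exact this
      have hsep : ∀ y, u.count y = 0 ∨ v.count y = 0 := by
        intro y
        by_contra hcon
        push Not at hcon
        have hy : y ≠ x := by
          rintro rfl
          omega
        have h3 : y ∈ u := by rw [← List.count_pos_iff]; omega
        have h4 : y ∈ v := by rw [← List.count_pos_iff]; omega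
        apply hn x y hy.symm
        refine List.Sublist.cons_cons x ?_
        have h5 : [y].Sublist u := List.singleton_sublist.2 h3
        have h6 : [x, y].Sublist (x :: v) := List.Sublist.cons_cons x (List.singleton_sublist.2 h4)
        exact h5.append h6
      have hu : Two u := by
        intro y
        by_cases hy : y = x
        · subst hy; left; omega
        · have := hcount y hy
          have := hsep y
          omega
      have hv : Two v := by
        intro y
        by_cases hy : y = x
        · subst hy; left; omega
        · have := hcount y hy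
          have := hsep y
          omega
      have hlen : u.length + v.length ≤ n := by
        simp at hw
        omega
      have su : u.Sublist (x :: (u ++ x :: v)) := 
        (List.sublist_append_left u _).trans (List.sublist_cons_self x _)
      have sv : v.Sublist (x :: (u ++ x :: v)) := 
        ((List.sublist_cons_self x v).trans (List.sublist_append_right u _)).trans (List.sublist_cons_self x _)
      have hu' : Red u := ih u (by omega) hu (fun a b hab hs => hn a b hab (hs.trans su))
      have hv' : Red v := ih v (by omega) hv (fun a b hab hs => hn a b hab (hs.trans sv))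
      have h7 : Red ([x] ++ (x :: v)) := Red.ins [] x v hv'
      have h8 := hu'.insert [x] (x :: v) h7
      simpa using h8

theorem Red.rotate_back {x : α} {v : List α} (h : Red (v ++ [x])) : Red (x :: v) := by
  have h1 := h.reverse
  rw [List.reverse_append] at h1
  have h2 : Red (x :: v.reverse) := by simpa using h1
  have h3 := h2.rotate.reverse
  simpa using h3

/-- the word has adjacent equal letters -/
def Adj (w : List α) : Prop := ∃ a x b, w = a ++ x :: x :: b

theorem Adj.cons {c : α} {w : List α} (h : Adj (c :: w)) : (∃ w', w = c :: w') ∨ Adj w := by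
  obtain ⟨a, x, b, h⟩ := h
  match a, h with
  | [], h =>
    simp only [List.nil_append, List.cons.injEq] at h
    obtain ⟨rfl, rfl⟩ := h
    exact Or.inl ⟨b, rfl⟩
  | z :: a', h =>
    simp only [List.cons_append, List.cons.injEq] at h
    obtain ⟨rfl, rfl⟩ := h
    exact Or.inr ⟨a', x, b, rfl⟩

theorem Adj.append {u v : List α} (h : Adj (u ++ v)) : 
    Adj u ∨ Adj v ∨ ∃ u' x v', u = u' ++ [x] ∧ v = x :: v' := by
  obtain ⟨a, x, b, h⟩ := h
  rcases List.append_eq_append_iff.1 h with ⟨c, hc1, hc2⟩ | ⟨c, hc1, hc2⟩
  · exact Or.inr (Or.inl ⟨c, x, b, hc2⟩)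
  · match c, hc2 with
    | [], hc2 => exact Or.inr (Or.inl ⟨[], x, b, by simpa using hc2.symm⟩)
    | [z], hc2 =>
      simp only [List.cons_append, List.nil_append, List.cons.injEq] at hc2
      obtain ⟨rfl, h2⟩ := hc2
      exact Or.inr (Or.inr ⟨a, x, b, hc1, h2.symm⟩)
    | z :: z' :: c', hc2 =>
      simp only [List.cons_append, List.cons.injEq] at hc2
      obtain ⟨rfl, rfl, h3⟩ := hc2
      exact Or.inl ⟨a, x, c', hc1⟩

theorem Adj.reverse {w : List α} (h : Adj w.reverse) : Adj w := by
  obtain ⟨a, x, b, h⟩ := h
  have h2 := congrArg List.reverse h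
  rw [List.reverse_reverse] at h2
  exact ⟨b.reverse, x, a.reverse, by rw [h2]; simp⟩

theorem Adj.map {f : α → β} {w : List α} (h : Adj (w.map f)) : 
    ∃ a p q b, w = a ++ p :: q :: b ∧ f p = f q := by
  obtain ⟨a, x, b, h⟩ := h
  obtain ⟨l1, l2, rfl, h1, h2⟩ := List.map_eq_append_iff.1 h
  obtain ⟨p, l3, rfl, h3, h4⟩ := List.map_eq_cons_iff.1 h2
  obtain ⟨q, l4, rfl, h5, h6⟩ := List.map_eq_cons_iff.1 h4
  exact ⟨l1, p, q, l4, rfl, by rw [h3, h5]⟩

/-- the boundary word: `τ`, the left letters, `η`, the right letters in reverse order -/
def bw (τ : α) (L : List (α × α)) (η : α) : List α :=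
  τ :: (L.map Prod.fst ++ η :: (L.map Prod.snd).reverse)

theorem bw_adj {τ η : α} {L : List (α × α)} (hL : L ≠ []) (h : Adj (bw τ L η)) :
    (∃ y L', L = (τ, y) :: L') ∨ (∃ y L', L = L' ++ [(η, y)]) ∨ (∃ x L', L = L' ++ [(x, η)]) ∨
    (∃ L₁ z y y' L₂, L = L₁ ++ (z, y) :: (z, y') :: L₂) ∨ 
    (∃ L₁ z x x' L₂, L = L₁ ++ (x, z) :: (x', z) :: L₂) := by
  rcases Adj.cons h with ⟨w', h1⟩ | h1
  · match L, hL, h1 with
    | (x, y) :: L', _, h1 =>
      simp only [List.map_cons, List.cons_append, List.cons.injEq] at h1
      obtain ⟨rfl, _⟩ := h1
      exact Or.inl ⟨y, L', rfl⟩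
  · rcases Adj.append h1 with h2 | h2 | ⟨u', x, v', h2, h3⟩
    · obtain ⟨a, ⟨x, y⟩, ⟨x', y'⟩, b, h3, h4⟩ := Adj.map h2
      simp only at h4
      subst h4
      exact Or.inr (Or.inr (Or.inr (Or.inl ⟨a, x, y, y', b, h3⟩)))
    · rcases Adj.cons h2 with ⟨w', h3⟩ | h3
      · have h4 := congrArg List.reverse h3
        rw [List.reverse_reverse, List.reverse_cons] at h4
        obtain ⟨l1, l2, rfl, h5, h6⟩ := List.map_eq_append_iff.1 h4
        obtain ⟨⟨x, y⟩, l3, rfl, h7, h8⟩ := List.map_eq_cons_iff.1 h6
        rw [List.map_eq_nil_iff] at h8
        subst h8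
        simp only at h7
        subst h7
        exact Or.inr (Or.inr (Or.inl ⟨x, l1, rfl⟩))
      · obtain ⟨a, ⟨x, y⟩, ⟨x', y'⟩, b, h4, h5⟩ := Adj.map (Adj.reverse h3)
        simp only at h5
        subst h5
        exact Or.inr (Or.inr (Or.inr (Or.inr ⟨a, y, x, x', b, h4⟩)))
    · simp only [List.cons.injEq] at h3
      obtain ⟨rfl, _⟩ := h3
      obtain ⟨l1, l2, rfl, h5, h6⟩ := List.map_eq_append_iff.1 h2
      obtain ⟨⟨x, y⟩, l3, rfl, h7, h8⟩ := List.map_eq_cons_iff.1 h6
      rw [List.map_eq_nil_iff] at h8
      subst h8
      simp only at h7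
      subst h7
      exact Or.inr (Or.inl ⟨y, l1, rfl⟩)

end Pool.Agent.T6.H98.KO
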