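import Pool.Agent.T6.H98.KO.Defs
import Pool.Agent.T6.H98.KO.Word
import Pool.Agent.T6.H98.KO.Invol
import Pool.Agent.H891R2.HO.O1

set_option autoImplicit false

/-! The ends of the pieces outside the shortcut are paired without crossings. -/

namespace Pool.Agent.T6.H98.KO

open Finset Pool.Agent.H891R2.HO

variable {k n : ℕ} {G : Shadow k} (S : Shortcut G n)

/-- the corners at the inner arcs of the shortcut -/
def Inner (j : Fin n) (c : Fin k × Fin 4) : Prop := c = (S.e j.castSucc, 2) ∨ c = (S.e j.succ, 0)

instance (j : Fin n) (c : Fin k × Fin 4) : Decidable (Inner S j c) := by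
  unfold Inner; infer_instance

theorem arc_eq_iff (c c' : Fin k × Fin 4) : G.arc c = c' ↔ c = G.arc c' := by
  constructor
  · rintro rfl; exact (G.arc_arc c).symm
  · rintro rfl; exact G.arc_arc c'

theorem path_symm (j : Fin n) : G.arc (S.e j.succ, 0) = (S.e j.castSucc, 2) := by
  rw [arc_eq_iff, S.path]

theorem inner_arc (j : Fin n) (c : Fin k × Fin 4) : Inner S j (G.arc c) ↔ Inner S j c := by
  unfold Inner
  rw [arc_eq_iff, arc_eq_iff, S.path, path_symm, or_comm]

theorem inner_out (s : S.Rest → Bool) (j : Fin n) (c c' : Fin k × Fin 4) (h : S.Out s c c') : 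
    Inner S j c ↔ Inner S j c' := by
  rcases h with rfl | ⟨h, rfl⟩
  · exact (inner_arc S j c).symm
  · constructor
    · rintro (h1 | h1)
      · exact absurd (congrArg Prod.fst h1).symm (h _)
      · exact absurd (congrArg Prod.fst h1).symm (h _)
    · rintro (h1 | h1)
      · exact absurd (congrArg Prod.fst h1).symm (h _)
      · exact absurd (congrArg Prod.fst h1).symm (h _)

theorem inner_mk (s : S.Rest → Bool) (j : Fin n) {c c' : Fin k × Fin 4} 
    (h : Quot.mk (S.Out s) c = Quot.mk (S.Out s) c') : Inner S j c ↔ Inner S j c' := by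
  have h1 := congrArg (Quot.lift (Inner S j) (fun a b hab => propext (inner_out S s j a b hab))) h
  exact Eq.to_iff h1

theorem mem_ends (c : Fin k × Fin 4) : c ∈ S.ends ↔ 
    c = (S.e 0, 0) ∨ (∃ j, c = (S.e j, 3)) ∨ c = (S.e (Fin.last n), 2) ∨ ∃ j, c = (S.e j, 1) := by
  unfold Shortcut.ends
  simp only [List.mem_cons, List.mem_append, List.mem_ofFn, List.mem_reverse, eq_comm]

theorem nodup_ends : S.ends.Nodup := by
  unfold Shortcut.ends
  rw [List.nodup_cons, List.nodup_append, List.nodup_cons, List.nodup_reverse, List.nodup_ofFn, List.nodup_ofFn]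
  refine ⟨?_, ?_, ⟨?_, ?_⟩, ?_⟩
  · simp [List.mem_ofFn]
  · intro i j hij
    exact S.inj (congrArg Prod.fst hij)
  · simp [List.mem_ofFn]
  · intro i j hij
    exact S.inj (congrArg Prod.fst hij)
  · intro a ha b hb
    simp only [List.mem_ofFn, List.mem_cons, List.mem_reverse] at ha hb
    obtain ⟨i, rfl⟩ := ha
    rcases hb with rfl | ⟨j, rfl⟩
    · simp
    · simp

theorem end_not_inner {c : Fin k × Fin 4} (h : c ∈ S.ends) (j : Fin n) : ¬ Inner S j c := by
  rw [mem_ends] at h
  rintro (h1 | h1)
  · subst h1
    rcases h with h | ⟨i, h⟩ | h | ⟨i, h⟩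
    · simp at h
    · simp at h
    · have := S.inj (congrArg Prod.fst h)
      exact absurd this (Fin.castSucc_lt_last j).ne
    · simp at h
  · subst h1
    rcases h with h | ⟨i, h⟩ | h | ⟨i, h⟩
    · have := S.inj (congrArg Prod.fst h)
      exact absurd this (Fin.succ_ne_zero j)
    · simp at h
    · simp at h
    · simp at h

theorem end_or_inner {c : Fin k × Fin 4} {j : Fin (n + 1)} (h : S.e j = c.1) : c ∈ S.ends ∨ ∃ i, Inner S i c := by
  obtain ⟨a, b⟩ := c
  simp only at h
  subst h
  rw [mem_ends]
  rcases O1.four_cases b with rfl | rfl | rfl | rfl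
  · refine Fin.cases ?_ (fun i => ?_) j
    · left; left; rfl
    · right; exact ⟨i, Or.inr rfl⟩
  · left; right; right; right; exact ⟨j, rfl⟩
  · refine Fin.lastCases ?_ (fun i => ?_) j
    · left; right; right; left; rfl
    · right; exact ⟨i, Or.inl rfl⟩
  · left; right; left; exact ⟨j, rfl⟩

/-- the smoothings as an involution -/
def beta (s : S.Rest → Bool) (c : Fin k × Fin 4) : Fin k × Fin 4 := 
  if h : ∀ j, S.e j ≠ c.1 then (c.1, pair (s ⟨c.1, h⟩) c.2) else c

theorem beta_beta (s : S.Rest → Bool) (c : Fin k × Fin 4) : beta S s (beta S s c) = c := by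
  by_cases h : ∀ j, S.e j ≠ c.1
  · have h1 : beta S s c = (c.1, pair (s ⟨c.1, h⟩) c.2) := dif_pos h
    rw [h1]
    unfold beta
    rw [dif_pos h]
    simp only [O1.pair_pair]
  · have h1 : beta S s c = c := dif_neg h
    rw [h1, h1]

theorem beta_fix (s : S.Rest → Bool) (c : Fin k × Fin 4) (h : beta S s c = c) : ∃ j, S.e j = c.1 := by
  by_contra hcon
  push Not at hcon
  unfold beta at h
  rw [dif_pos hcon] at h
  have h1 : pair (s ⟨c.1, hcon⟩) c.2 = c.2 := congrArg Prod.snd h
  revert h1
  generalize s ⟨c.1, hcon⟩ = t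
  generalize c.2 = j
  revert t j
  decide

theorem mk_beta (s : S.Rest → Bool) (c : Fin k × Fin 4) : 
    Quot.mk (S.Out s) c = Quot.mk (S.Out s) (beta S s c) := by
  by_cases h : ∀ j, S.e j ≠ c.1
  · apply Quot.sound
    right
    exact ⟨h, dif_pos h⟩
  · have h1 : beta S s c = c := dif_neg h
    rw [h1]

theorem mk_arc (s : S.Rest → Bool) (c : Fin k × Fin 4) : 
    Quot.mk (S.Out s) c = Quot.mk (S.Out s) (G.arc c) := Quot.sound (Or.inl rfl)

open Classical in
theorem two_ends' (s : S.Rest → Bool) : Two (S.ends.map (Quot.mk (S.Out s))) := by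
  intro p
  have hc : (S.ends.map (Quot.mk (S.Out s))).count p = 
      (S.ends.filter (fun c => decide (Quot.mk (S.Out s) c = p))).length := by
    rw [List.count, List.countP_map, List.countP_eq_length_filter]
    congr 1
  by_cases hp : p ∈ S.ends.map (Quot.mk (S.Out s))
  · right
    obtain ⟨x, hx, rfl⟩ := List.mem_map.1 hp
    obtain ⟨jx, hjx⟩ : ∃ j, S.e j = x.1 := by
      rw [mem_ends] at hx
      rcases hx with rfl | ⟨j, rfl⟩ | rfl | ⟨j, rfl⟩
      · exact ⟨_, rfl⟩
      · exact ⟨_, rfl⟩
      · exact ⟨_, rfl⟩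
      · exact ⟨_, rfl⟩
    have hbx : beta S s x = x := dif_neg (fun h => h jx hjx)
    obtain ⟨y, hy1, hy2, hy3, hy4⟩ := two_ends (Function.Involutive.toPerm G.arc G.arc_arc)
      (Function.Involutive.toPerm (beta S s) (beta_beta S s)) G.arc_arc (beta_beta S s) G.arc_ne
      (S.Out s) (by
        rintro c c' (h | ⟨h, h'⟩)
        · exact Or.inl h
        · right
          rw [h']
          show _ = beta S s c
          unfold beta
          rw [dif_pos h]) (mk_arc S s) (mk_beta S s) x hbx
    have hy2' : beta S s y = y := hy2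
    have hy : y ∈ S.ends := by
      obtain ⟨j, hj⟩ := beta_fix S s y hy2'
      rcases end_or_inner S hj with h | ⟨i, h⟩
      · exact h
      · exact absurd ((inner_mk S s i hy3).1 h) (end_not_inner S hx i)
    rw [hc]
    have h5 : (S.ends.filter (fun c => decide (Quot.mk (S.Out s) c = Quot.mk (S.Out s) x))).toFinset = {x, y} := by
      ext c
      simp only [List.mem_toFinset, List.mem_filter, decide_eq_true_eq, Finset.mem_insert, 
        Finset.mem_singleton]
      constructor
      · rintro ⟨h1, h2⟩
        apply hy4 c _ h2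
        obtain ⟨j, hj⟩ : ∃ j, S.e j = c.1 := by
          rw [mem_ends] at h1
          rcases h1 with rfl | ⟨j, rfl⟩ | rfl | ⟨j, rfl⟩
          · exact ⟨_, rfl⟩
          · exact ⟨_, rfl⟩
          · exact ⟨_, rfl⟩
          · exact ⟨_, rfl⟩
        exact dif_neg (fun h => h j hj)
      · rintro (rfl | rfl)
        · exact ⟨hx, rfl⟩
        · exact ⟨hy, hy3⟩
    rw [← List.toFinset_card_of_nodup ((nodup_ends S).filter _), h5, Finset.card_pair (Ne.symm hy1)]
  · left
    exact List.count_eq_zero.2 hp

/-! ### no crossings -/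

section parity

theorem bodd_two_mul (a : ℕ) : Nat.bodd (2 * a) = false := by
  rw [Nat.bodd_mul]
  rfl

variable {D : Type*}

theorem chain_parity (χ : D → Bool) (zn : D → ℕ) : ∀ (B C : List D) (y y' : D), 
    List.IsChain (fun a b => χ b = xor (χ a) (Nat.bodd (zn a))) (y :: (B ++ y' :: C)) →
    χ y' = xor (χ y) (Nat.bodd (((y :: B).map zn).sum)) := by
  intro B
  induction B with
  | nil =>
    intro C y y' h
    rw [List.nil_append, List.isChain_cons_cons] at h
    simpa using h.1
  | cons b B ih =>
    intro C y y' h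
    rw [List.cons_append, List.isChain_cons_cons] at h
    have h1 := ih C b y' h.2
    rw [h1, h.1]
    simp only [List.map_cons, List.sum_cons, Nat.bodd_add]
    cases χ y <;> cases (zn y).bodd <;> cases (zn b).bodd <;> cases (List.map zn B).sum.bodd <;> rfl

open Classical in
theorem count_map_eq {γ : Type*} (f : D → γ) (p : γ) (l : List D) : 
    (l.map f).count p = (l.map (fun c => if f c = p then 1 else 0)).sum := by
  induction l with
  | nil => rfl
  | cons a l ih =>
    rw [List.map_cons, List.count_cons, ih, List.map_cons, List.sum_cons, add_comm]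
    congr 1
    by_cases h : f a = p <;> simp [h]

end parity

theorem isChain_ofFn {D : Type*} {R : D → D → Prop} {n : ℕ} (f : Fin (n + 1) → D) 
    (h : ∀ j : Fin n, R (f j.castSucc) (f j.succ)) : List.IsChain R (List.ofFn f) := by
  rw [List.isChain_iff_getElem]
  intro i hi
  rw [List.length_ofFn] at hi
  rw [List.getElem_ofFn, List.getElem_ofFn]
  exact h ⟨i, by omega⟩

theorem head_ofFn {D : Type*} {n : ℕ} (f : Fin (n + 1) → D) (l : List D) : 
    (List.ofFn f ++ l).head? = some (f 0) := by
  rw [List.ofFn_succ]; rfl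

theorem last_ofFn {D : Type*} {n : ℕ} (f : Fin (n + 1) → D) : 
    (List.ofFn f).getLast? = some (f (Fin.last n)) := by
  rw [List.ofFn_succ']
  simp

open Classical in
theorem noCross (hG : Sphere G) (s : S.Rest → Bool) : NoCross (S.ends.map (Quot.mk (S.Out s))) := by
  intro p q hpq hsub
  set mk := Quot.mk (S.Out s) with hmk
  have htwo := two_ends' S s p
  rw [← hmk] at htwo
  -- the positions
  obtain ⟨r1, r2, e1, hp1, hs1⟩ := List.cons_sublist_iff.1 hsub
  obtain ⟨r3, r4, e2, hq1, hs2⟩ := List.cons_sublist_iff.1 hs1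
  obtain ⟨r5, r6, e3, hp2, hs3⟩ := List.cons_sublist_iff.1 hs2
  have hq2 : q ∈ r6 := List.singleton_sublist.1 hs3
  subst e3
  subst e2
  have hcount : r1.count p = 1 ∧ r3.count p = 0 ∧ r5.count p = 1 ∧ r6.count p = 0 := by
    rw [e1, List.count_append, List.count_append, List.count_append] at htwo
    have c1 := List.count_pos_iff.2 hp1
    have c2 := List.count_pos_iff.2 hp2
    omega
  obtain ⟨E1, E2, hE, hE1, hE2⟩ := List.map_eq_append_iff.1 e1
  obtain ⟨E3, E4, rfl, hE3, hE4⟩ := List.map_eq_append_iff.1 hE2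
  obtain ⟨E5, E6, rfl, hE5, hE6⟩ := List.map_eq_append_iff.1 hE4
  subst hE1
  subst hE3
  subst hE5
  subst hE6
  obtain ⟨y, hyE, hyq⟩ := List.mem_map.1 hq1
  obtain ⟨y', hyE', hyq'⟩ := List.mem_map.1 hq2
  obtain ⟨E3a, E3b, rfl⟩ := List.append_of_mem hyE
  obtain ⟨E6a, E6b, rfl⟩ := List.append_of_mem hyE'
  have hy : y ∈ S.ends := by rw [hE]; simp
  -- the closed curve
  let cp : Fin k × Fin 4 → ℕ := fun c => if mk c = p then 1 else 0
  let t : ℕ → ℕ := fun l => if h : l < n + 1 then cp (S.e ⟨l, h⟩, 1) + cp (S.e ⟨l, h⟩, 3) else 0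
  let M : ℕ → ℕ := fun l => cp (S.e 0, 0) + ∑ i ∈ range (l + 1), t i
  let In : Fin k × Fin 4 → ℕ := fun c => ∑ j : Fin n, if Inner S j c then M j else 0
  let zn : Fin k × Fin 4 → ℕ := fun c => cp c + In c
  have hcp_arc : ∀ c, cp (G.arc c) = cp c := by
    intro c
    have : mk c = mk (G.arc c) := mk_arc S s c
    simp only [cp, ← this]
  have hIn_arc : ∀ c, In (G.arc c) = In c := by
    intro c
    simp only [In, inner_arc]
  have hzn_arc : ∀ c, zn (G.arc c) = zn c := by
    intro c
    simp only [zn, hcp_arc, hIn_arc]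
  have hIn_end : ∀ c ∈ S.ends, In c = 0 := by
    intro c hc
    apply Finset.sum_eq_zero
    intro j _
    rw [if_neg (end_not_inner S hc j)]
  have hpE : ∃ x ∈ S.ends, mk x = p := by
    obtain ⟨x, hx, hx'⟩ := List.mem_map.1 hp1
    exact ⟨x, by rw [hE]; simp [hx], hx'⟩
  have hcp_inner : ∀ c j, Inner S j c → cp c = 0 := by
    intro c j hc
    obtain ⟨x, hx, hx'⟩ := hpE
    have : mk c ≠ p := by
      intro h
      have h1 : mk c = mk x := by rw [h, hx']
      exact end_not_inner S hx j ((inner_mk S s j h1).1 hc)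
    simp only [cp, if_neg this]
  have hinj : ∀ i j : Fin n, i.castSucc = j.castSucc → i = j := fun i j h => Fin.castSucc_injective n h
  have hinj' : ∀ i j : Fin n, i.succ = j.succ → i = j := fun i j h => Fin.succ_injective n h
  have hIn2 : ∀ j : Fin n, In (S.e j.castSucc, 2) = M j := by
    intro j
    simp only [In]
    rw [Finset.sum_eq_single j]
    · exact if_pos (Or.inl rfl)
    · intro i _ hij
      rw [if_neg]
      rintro (h | h)
      · exact hij (hinj _ _ (S.inj (congrArg Prod.fst h))).symm
      · simp at h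
    · intro h
      exact absurd (Finset.mem_univ j) h
  have hIn0 : ∀ j : Fin n, In (S.e j.succ, 0) = M j := by
    intro j
    simp only [In]
    rw [Finset.sum_eq_single j]
    · exact if_pos (Or.inr rfl)
    · intro i _ hij
      rw [if_neg]
      rintro (h | h)
      · simp at h
      · exact hij (hinj' _ _ (S.inj (congrArg Prod.fst h))).symm
    · intro h
      exact absurd (Finset.mem_univ j) h
  have hz2 : ∀ j : Fin n, zn (S.e j.castSucc, 2) = M j := by
    intro j
    simp only [zn]
    rw [hcp_inner _ j (Or.inl rfl), hIn2, zero_add]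
  have hz0 : ∀ j : Fin n, zn (S.e j.succ, 0) = M j := by
    intro j
    simp only [zn]
    rw [hcp_inner _ j (Or.inr rfl), hIn0, zero_add]
  have hzE : ∀ c ∈ S.ends, zn c = cp c := by
    intro c hc
    simp only [zn]
    rw [hIn_end c hc, add_zero]
  have hz1 : ∀ j, zn (S.e j, 1) = cp (S.e j, 1) := fun j => 
    hzE _ ((mem_ends S _).2 (Or.inr (Or.inr (Or.inr ⟨j, rfl⟩))))
  have hz3 : ∀ j, zn (S.e j, 3) = cp (S.e j, 3) := fun j => 
    hzE _ ((mem_ends S _).2 (Or.inr (Or.inl ⟨j, rfl⟩)))
  have hz00 : zn (S.e 0, 0) = cp (S.e 0, 0) := hzE _ ((mem_ends S _).2 (Or.inl rfl))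
  have hzn2 : zn (S.e (Fin.last n), 2) = cp (S.e (Fin.last n), 2) := 
    hzE _ ((mem_ends S _).2 (Or.inr (Or.inr (Or.inl rfl))))
  have ht : ∀ j : Fin (n + 1), t j = cp (S.e j, 1) + cp (S.e j, 3) := by
    intro j
    simp only [t]
    rw [dif_pos j.2]
  have hM0 : M 0 = cp (S.e 0, 0) + t 0 := by simp [M]
  have hMs : ∀ l, M (l + 1) = M l + t (l + 1) := by
    intro l
    simp only [M]
    rw [Finset.sum_range_succ _ (l + 1)]
    ring
  have htotal : M n + cp (S.e (Fin.last n), 2) = 2 := by
    have h1 : (S.ends.map mk).count p = 2 := by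
      rw [e1, List.count_append, List.count_append, List.count_append]
      omega
    rw [count_map_eq] at h1
    unfold Shortcut.ends at h1
    rw [List.map_cons, List.sum_cons, List.map_append, List.sum_append, List.map_cons, List.sum_cons, 
      List.map_reverse, List.sum_reverse, List.map_ofFn, List.map_ofFn, List.sum_ofFn, List.sum_ofFn] at h1
    have h2 : ∑ i ∈ range (n + 1), t i = ∑ j : Fin (n + 1), (cp (S.e j, 1) + cp (S.e j, 3)) := by
      rw [Finset.sum_range]
      exact Finset.sum_congr rfl fun j _ => ht j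
    simp only [M]
    rw [h2, Finset.sum_add_distrib]
    simp only [Function.comp_apply] at h1
    simp only [cp]
    omega
  -- the corner condition
  have hcorner : ∀ i, xor (xor (Nat.bodd (zn (i, 0))) (Nat.bodd (zn (i, 1)))) 
      (xor (Nat.bodd (zn (i, 2))) (Nat.bodd (zn (i, 3)))) = false := by
    intro i
    rw [← Nat.bodd_add, ← Nat.bodd_add, ← Nat.bodd_add]
    by_cases hi : ∀ j, S.e j ≠ i
    · have hIn : ∀ b, In (i, b) = 0 := by
        intro b
        apply Finset.sum_eq_zero
        intro j _
        rw [if_neg]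
        rintro (h | h)
        · exact hi _ (congrArg Prod.fst h).symm
        · exact hi _ (congrArg Prod.fst h).symm
      have hpair : ∀ b, cp (i, pair (s ⟨i, hi⟩) b) = cp (i, b) := by
        intro b
        have : mk (i, b) = mk (i, pair (s ⟨i, hi⟩) b) := Quot.sound (Or.inr ⟨hi, rfl⟩)
        simp only [cp, ← this]
      simp only [zn, hIn, add_zero]
      cases hs : s ⟨i, hi⟩
      · have a0 := hpair 0
        have a1 := hpair 1
        rw [hs] at a0 a1
        have b0 : pair false 0 = 3 := rfl
        have b1 : pair false 1 = 2 := rfl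
        rw [b0] at a0
        rw [b1] at a1
        rw [a0, a1]
        have : cp (i, 0) + cp (i, 1) + (cp (i, 1) + cp (i, 0)) = 2 * (cp (i, 0) + cp (i, 1)) := by ring
        rw [this]
        exact bodd_two_mul _
      · have a0 := hpair 0
        have a2 := hpair 2
        rw [hs] at a0 a2
        have b0 : pair true 0 = 1 := rfl
        have b2 : pair true 2 = 3 := rfl
        rw [b0] at a0
        rw [b2] at a2
        rw [a0, a2]
        have : cp (i, 0) + cp (i, 0) + (cp (i, 2) + cp (i, 2)) = 2 * (cp (i, 0) + cp (i, 2)) := by ring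
        rw [this]
        exact bodd_two_mul _
    · push Not at hi
      obtain ⟨j, rfl⟩ := hi
      have hA : ∃ a b : ℕ, zn (S.e j, 0) = a ∧ zn (S.e j, 2) = b ∧ 
          Nat.bodd (a + t j + b) = false := by
        rcases Fin.eq_zero_or_eq_succ j with rfl | ⟨j', rfl⟩
        · rcases Fin.eq_castSucc_or_eq_last (0 : Fin (n + 1)) with ⟨j'', h⟩ | h
          · refine ⟨_, M 0, hz00, ?_, ?_⟩
            · rw [h, hz2]
              have : (j'' : ℕ) = 0 := by
                have := congrArg Fin.val h
                simpa using this.symm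
              rw [this]
            · rw [hM0]
              have : ((0 : Fin (n + 1)) : ℕ) = 0 := rfl
              rw [this, ← two_mul]
              exact bodd_two_mul _
          · refine ⟨_, cp (S.e (Fin.last n), 2), hz00, ?_, ?_⟩
            · rw [h, hzn2]
            · have hn : n = 0 := by
                have := congrArg Fin.val h
                simpa using this.symm
              subst hn
              have h5 : ((0 : Fin (0 + 1)) : ℕ) = 0 := rfl
              rw [h5, ← hM0, htotal]
              rfl
        · rcases Fin.eq_castSucc_or_eq_last j'.succ with ⟨j'', h⟩ | h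
          · refine ⟨_, M ((j' : ℕ) + 1), hz0 j', ?_, ?_⟩
            · rw [h, hz2]
              have : (j'' : ℕ) = (j' : ℕ) + 1 := by
                have := congrArg Fin.val h
                simpa using this.symm
              rw [this]
            · rw [hMs]
              have : ((j'.succ : Fin (n + 1)) : ℕ) = (j' : ℕ) + 1 := rfl
              rw [this, ← two_mul]
              exact bodd_two_mul _
          · refine ⟨_, cp (S.e (Fin.last n), 2), hz0 j', ?_, ?_⟩
            · rw [h, hzn2]
            · have hn : (j' : ℕ) + 1 = n := by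
                have := congrArg Fin.val h
                simpa using this
              have h5 : ((j'.succ : Fin (n + 1)) : ℕ) = (j' : ℕ) + 1 := rfl
              rw [h5, ← hMs, hn, htotal]
              rfl
      obtain ⟨a, b, ha, hb, hab⟩ := hA
      rw [ha, hb, hz1, hz3]
      rw [ht] at hab
      rw [← hab]
      congr 1
      ring
  obtain ⟨χ, h1, h2⟩ := hG (fun c => Nat.bodd (zn c)) (fun c => by simp only [hzn_arc]) hcorner
  -- the colours around the shortcut
  have g01 : ∀ i, χ (i, 1) = xor (χ (i, 0)) (Nat.bodd (zn (i, 1))) := fun i => h2 i 0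
  have g12 : ∀ i, χ (i, 2) = xor (χ (i, 1)) (Nat.bodd (zn (i, 2))) := fun i => h2 i 1
  have g23 : ∀ i, χ (i, 3) = xor (χ (i, 2)) (Nat.bodd (zn (i, 3))) := fun i => h2 i 2
  have g30 : ∀ i, χ (i, 0) = xor (χ (i, 3)) (Nat.bodd (zn (i, 0))) := fun i => h2 i 3
  have gin : ∀ j : Fin n, χ (S.e j.succ, 0) = xor (χ (S.e j.castSucc, 2)) (Nat.bodd (M j)) := by
    intro j
    rw [← S.path, h1, hz2]
  have hchain : List.IsChain (fun a b => χ b = xor (χ a) (Nat.bodd (zn a))) S.ends := by
    unfold Shortcut.ends
    rw [List.isChain_cons, List.isChain_append, List.isChain_cons, List.isChain_reverse]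
    refine ⟨?_, ?_, ⟨?_, ?_⟩, ?_⟩
    · intro y hy
      rw [head_ofFn, Option.mem_some_iff] at hy
      subst hy
      rw [g30]
      cases χ (S.e 0, 3) <;> cases Nat.bodd (zn (S.e 0, 0)) <;> rfl
    · apply isChain_ofFn
      intro j
      have e1 := g30 (S.e j.succ)
      rw [gin, hz0] at e1
      rw [g23 (S.e j.castSucc)]
      revert e1
      cases χ (S.e j.castSucc, 2) <;> cases Nat.bodd (M j) <;> cases χ (S.e j.succ, 3) <;> 
        cases Nat.bodd (zn (S.e j.castSucc, 3)) <;> decide
    · intro y hy
      rw [List.head?_reverse, last_ofFn, Option.mem_some_iff] at hy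
      subst hy
      rw [g12]
      cases χ (S.e (Fin.last n), 1) <;> cases Nat.bodd (zn (S.e (Fin.last n), 2)) <;> rfl
    · apply isChain_ofFn
      intro j
      have e1 := g12 (S.e j.castSucc)
      have e2 := g01 (S.e j.succ)
      rw [gin] at e2
      rw [hz2] at e1
      revert e1 e2
      cases χ (S.e j.castSucc, 2) <;> cases Nat.bodd (M j) <;> cases χ (S.e j.succ, 1) <;> 
        cases χ (S.e j.castSucc, 1) <;> cases Nat.bodd (zn (S.e j.succ, 1)) <;> decide
    · intro x hx y hy
      rw [last_ofFn, Option.mem_some_iff] at hx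
      rw [List.head?_cons, Option.mem_some_iff] at hy
      subst hx
      subst hy
      rw [g23]
      cases χ (S.e (Fin.last n), 2) <;> cases Nat.bodd (zn (S.e (Fin.last n), 3)) <;> rfl
  -- the colours at `y` and `y'` are different
  have hne : χ y' = !(χ y) := by
    have h3 : List.IsChain (fun a b => χ b = xor (χ a) (Nat.bodd (zn a))) 
        (y :: ((E3b ++ E5 ++ E6a) ++ y' :: E6b)) := by
      have h4 : S.ends = (E1 ++ E3a) ++ (y :: ((E3b ++ E5 ++ E6a) ++ y' :: E6b)) := by
        rw [hE]; simp
      rw [h4] at hchain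
      exact hchain.right_of_append
    have h5 := chain_parity χ zn _ _ _ _ h3
    have h6 : ((y :: (E3b ++ E5 ++ E6a)).map zn).sum = 1 := by
      have h7 : ((y :: (E3b ++ E5 ++ E6a)).map zn) = ((y :: (E3b ++ E5 ++ E6a)).map cp) := by
        apply List.map_congr_left
        intro c hc
        apply hzE
        rw [hE]
        simp only [List.mem_cons, List.mem_append] at hc ⊢
        tauto
      rw [h7, ← count_map_eq, List.map_cons, List.map_append, List.map_append, List.count_cons, 
        List.count_append, List.count_append]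
      have h8 := hcount.2.1
      have h9 := hcount.2.2.2
      rw [List.map_append, List.map_cons, List.count_append, List.count_cons] at h8 h9
      have h10 := hcount.2.2.1
      omega
    rw [h5, h6]
    simp
  -- but they are equal
  have hq_inner : ∀ c j, mk c = q → ¬ Inner S j c := by
    intro c j hc hj
    have h3 : mk c = mk y := by rw [hc, hyq]
    exact end_not_inner S hy j ((inner_mk S s j h3).1 hj)
  have hq_zn : ∀ c, mk c = q → zn c = 0 := by
    intro c hc
    have h3 : In c = 0 := by
      apply Finset.sum_eq_zero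
      intro j _
      rw [if_neg (hq_inner c j hc)]
    have h4 : cp c = 0 := by
      simp only [cp]
      rw [if_neg]
      rw [hc]
      exact Ne.symm hpq
    simp only [zn, h3, h4]
  have hinv : ∀ c c', S.Out s c c' → (if mk c = q then χ c else false) = (if mk c' = q then χ c' else false) := by
    intro c c' h
    have h3 : mk c = mk c' := Quot.sound h
    rw [← h3]
    by_cases hc : mk c = q
    · rw [if_pos hc, if_pos hc]
      have hc' : mk c' = q := by rw [← h3, hc]
      rcases h with rfl | ⟨hh, h⟩
      · rw [h1, hq_zn c hc]; simp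
      · rcases O1.pair_or (s ⟨c.1, hh⟩) c.2 with h4 | h4
        · rw [h, h4]
          have h5 := h2 c.1 c.2
          rw [h5]
          have h6 : (c.1, c.2 + 1) = c' := by rw [h, h4]
          rw [h6, hq_zn c' hc']
          simp
        · have h5 := h2 c.1 (pair (s ⟨c.1, hh⟩) c.2)
          rw [← h4] at h5
          have h6 : ((c.1, c.2) : Fin k × Fin 4) = c := rfl
          rw [h6, hq_zn c hc, ← h] at h5
          rw [h5]
          simp
    · rw [if_neg hc, if_neg hc]
  have h3 : mk y = mk y' := by rw [hyq, hyq']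
  have h4 := congrArg (Quot.lift (fun c => if mk c = q then χ c else false) hinv) h3
  have h5 : (if mk y = q then χ y else false) = (if mk y' = q then χ y' else false) := h4
  rw [if_pos hyq, if_pos hyq', hne] at h5
  revert h5
  cases χ y <;> decide

end Pool.Agent.T6.H98.KO
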