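import Pool.Agent.T6.H98.KO.Alg

set_option autoImplicit false

/-! Evaluation at `A = i`. -/

namespace Pool.Agent.T6.H98.KO

open Finset LaurentPolynomial Pool.Agent.H891R2.HO
open Pool.Agent.H891R2.HO.O6 (Sup)
open Pool.Agent.H891R2.Jones (ind ind_pos ind_neg ind_congr ind_mul prod_ind zpow_sum)

variable {k n : ℕ}

/-- evaluation at `A = i` -/
noncomputable def evI : ℤ[T;T⁻¹] →+* ℂ :=
  LaurentPolynomial.eval₂ (Int.castRingHom ℂ) (Units.mk0 Complex.I Complex.I_ne_zero)

theorem evI_T (m : ℤ) : evI (T m) = Complex.I ^ m := by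
  unfold evI
  rw [LaurentPolynomial.eval₂_T]
  simp

theorem evI_dd : evI dd = 2 := by
  unfold dd
  rw [map_sub, map_neg, evI_T, evI_T]
  have h1 : (Complex.I : ℂ) ^ (2 : ℤ) = -1 := Complex.I_sq
  have h2 : (Complex.I : ℂ) ^ (-2 : ℤ) = -1 := by
    rw [zpow_neg, h1]; norm_num
  rw [h1, h2]
  norm_num

theorem I_four (m : ℤ) : (Complex.I : ℂ) ^ (4 * m) = 1 := by
  have h : (Complex.I : ℂ) ^ (4 : ℤ) = 1 := Complex.I_pow_four
  rw [zpow_mul, h, one_zpow]

theorem evI_unit (m : ℤ) : evI (Shadow.unit m) = Complex.I ^ (-m) := by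
  unfold Shadow.unit
  rw [map_mul, evI_T]
  have h1 : evI (if Even m then 1 else -1) = Complex.I ^ (2 * m) := by
    have h2 : (Complex.I : ℂ) ^ (2 * m) = (-1) ^ m := by
      rw [zpow_mul]
      congr 1
      exact Complex.I_sq
    rw [h2]
    by_cases h : Even m
    · rw [if_pos h, map_one, Even.neg_one_zpow h]
    · rw [if_neg h, map_neg, map_one, Odd.neg_one_zpow (Int.not_even_iff_odd.1 h)]
  rw [h1, ← zpow_add₀ Complex.I_ne_zero]
  congr 1
  ring

/-- divisibility by `A^4 - 1` -/
theorem dvd_of_evI {r : ℤ} {p : ℤ[T;T⁻¹]} (hp : Sup r p) (h : evI p = 0) : (T 4 - 1 : ℤ[T;T⁻¹]) ∣ p := by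
  have hsum : p = ∑ j ∈ p.coeff.support, C (p.coeff j) * T j := by
    conv_lhs => rw [← AddMonoidAlgebra.sum_coeff_single p]
    unfold Finsupp.sum
    exact Finset.sum_congr rfl fun j _ => single_eq_C_mul_T _ _
  have hev : ((∑ j ∈ p.coeff.support, p.coeff j : ℤ) : ℂ) = 0 := by
    have h1 : evI p = ((∑ j ∈ p.coeff.support, p.coeff j : ℤ) : ℂ) * Complex.I ^ r := by
      conv_lhs => rw [hsum]
      rw [map_sum, Int.cast_sum, Finset.sum_mul]
      refine Finset.sum_congr rfl fun j hj => ?_
      have h2 := hp j (Finsupp.mem_support_iff.1 hj)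
      obtain ⟨l, hl⟩ := h2
      have e : j = 4 * l + r := by linarith
      rw [map_mul, evI_T]
      have h3 : evI (C (p.coeff j)) = (p.coeff j : ℂ) := by
        unfold evI
        rw [LaurentPolynomial.eval₂_C]
        rfl
      rw [h3]
      congr 1
      rw [e, zpow_add₀ Complex.I_ne_zero, I_four, one_mul]
    rw [h1] at h
    exact (mul_eq_zero.1 h).resolve_right (zpow_ne_zero _ Complex.I_ne_zero)
  have hev' : (∑ j ∈ p.coeff.support, p.coeff j) = 0 := by exact_mod_cast hev
  have h4 : p = ∑ j ∈ p.coeff.support, C (p.coeff j) * (T j - T r) := by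
    have h5 : ∑ j ∈ p.coeff.support, C (p.coeff j) * (T j - T r) = 
        ∑ j ∈ p.coeff.support, C (p.coeff j) * T j - C (∑ j ∈ p.coeff.support, p.coeff j) * T r := by
      rw [map_sum, Finset.sum_mul, ← Finset.sum_sub_distrib]
      refine Finset.sum_congr rfl fun j _ => ?_
      ring
    rw [h5, hev', map_zero, zero_mul, sub_zero]
    exact hsum
  rw [h4]
  refine Finset.dvd_sum fun j hj => ?_
  have h2 := hp j (Finsupp.mem_support_iff.1 hj)
  obtain ⟨l, hl⟩ := h2
  have e : j = r + 4 * l := by linarith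
  have e2 : (T j - T r : ℤ[T;T⁻¹]) = T r * (T (4 * l) - 1) := by
    rw [e, T_add]; ring
  rw [e2]
  exact Dvd.dvd.mul_left (Dvd.dvd.mul_left (dvd_zpow 4 l) _) _

/-- coefficients of a Laurent polynomial function which is constant -/
theorem coeff_of_const {ι : Type*} [Fintype ι] (a : ι → ℂ) (m : ι → ℤ) (M : ℕ) (hM : ∀ i, |m i| ≤ M)
    (h : ∀ u : ℂ, u ≠ 0 → ∑ i, a i * u ^ (2 * m i) = 1) (l : ℤ) :
    (∑ i, if m i = l then a i else 0) = if l = 0 then 1 else 0 := by
  classical
  let p : Polynomial ℂ := ∑ i, Polynomial.C (a i) * Polynomial.X ^ (2 * (m i + M)).toNat - Polynomial.X ^ (2 * M)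
  have hp : p = 0 := by
    apply Polynomial.eq_zero_of_infinite_isRoot
    refine Set.Infinite.mono (s := {u : ℂ | u ≠ 0}) ?_ ?_
    · intro u hu
      have hu' : u ≠ 0 := hu
      have h1 := h u hu'
      show Polynomial.eval u p = 0
      simp only [p]
      rw [Polynomial.eval_sub, Polynomial.eval_finset_sum, Polynomial.eval_pow, Polynomial.eval_X]
      have h2 : ∀ i, Polynomial.eval u (Polynomial.C (a i) * Polynomial.X ^ (2 * (m i + M)).toNat) = 
          a i * u ^ (2 * m i) * u ^ (2 * M) := by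
        intro i
        rw [Polynomial.eval_mul, Polynomial.eval_C, Polynomial.eval_pow, Polynomial.eval_X, mul_assoc]
        congr 1
        have h3 := hM i
        rw [abs_le] at h3
        rw [← zpow_natCast, Int.toNat_of_nonneg (by omega), ← zpow_natCast, ← zpow_add₀ hu']
        congr 1
        push_cast
        ring
      simp only [h2]
      rw [← Finset.sum_mul, h1, one_mul, sub_self]
    · have : {u : ℂ | u ≠ 0} = ({0} : Set ℂ)ᶜ := by ext; simp
      rw [this]
      exact (Set.finite_singleton 0).infinite_compl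
  by_cases hl : |l| ≤ M
  · have h1 := congrArg (fun q : Polynomial ℂ => q.coeff (2 * (l + M)).toNat) hp
    simp only [p] at h1
    rw [Polynomial.coeff_sub, Polynomial.finset_sum_coeff, Polynomial.coeff_X_pow, Polynomial.coeff_zero, 
      sub_eq_zero] at h1
    have h2 : ∀ i, (Polynomial.C (a i) * Polynomial.X ^ (2 * (m i + M)).toNat).coeff (2 * (l + M)).toNat = 
        if m i = l then a i else 0 := by
      intro i
      rw [Polynomial.coeff_C_mul_X_pow]
      have h3 := hM i
      rw [abs_le] at h3 hl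
      congr 1
      apply propext
      omega
    simp only [h2] at h1
    rw [h1]
    rw [abs_le] at hl
    congr 1
    apply propext
    omega
  · have h1 : ∀ i, m i ≠ l := by
      intro i hi
      exact hl (hi ▸ hM i)
    have h2 : l ≠ 0 := by
      rintro rfl
      exact hl (by simp)
    rw [if_neg h2]
    exact Finset.sum_eq_zero fun i _ => if_neg (h1 i)

end Pool.Agent.T6.H98.KO
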