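import Pool.Agent.T6.H98.KO.Main
import Pool.Agent.T6.H98.KO.Contract

set_option autoImplicit false

/-! Two colours: the weights which count the crossings of the shortcut with the oriented pieces of a state. -/

namespace Pool.Agent.T6.H98.KO

open Finset

variable {N : ℕ}

theorem tr_concat (X : Fin N → Fin N → Fin N → Fin N → ℂ) (x y d : Fin N) (L : List (Fin N × Fin N)) : 
    ∀ c, tr X c (L ++ [(x, y)]) d = ∑ m, tr X c L m * X m x y d := by
  induction L with
  | nil =>
    intro c
    rw [List.nil_append, tr_cons]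
    simp only [tr_nil]
    have h1 : ∀ m, (X c x y m * if m = d then 1 else 0) = if m = d then X c x y m else 0 := by
      intro m; split_ifs <;> simp
    have h2 : ∀ m, ((if c = m then 1 else 0) * X m x y d) = if c = m then X m x y d else 0 := by
      intro m; split_ifs <;> simp
    simp only [h1, h2]
    rw [Finset.sum_ite_eq', Finset.sum_ite_eq]
    simp
  | cons p L ih =>
    obtain ⟨x', y'⟩ := p
    intro c
    rw [List.cons_append, tr_cons]
    simp only [ih, tr_cons, Finset.mul_sum, Finset.sum_mul]
    rw [Finset.sum_comm]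
    refine Finset.sum_congr rfl fun m _ => Finset.sum_congr rfl fun m' _ => ?_
    ring

/-- the weight of a crossing of the shortcut -/
noncomputable def Y (u : ℂ) (c x y m : Fin 2) : ℂ := 
  if m = c + 1 ∧ x ≠ y then (if y = c then u⁻¹ else u) else 0

theorem base4 {u : ℂ} (hu : u ≠ 0) (y y' d : Fin 2) (L₂ : List (Fin 2 × Fin 2)) (c : Fin 2) : 
    ∑ z, tr (Y u) c ((z, y) :: (z, y') :: L₂) d = if y = y' then tr (Y u) c L₂ d else 0 := by
  simp only [tr_cons, Fin.sum_univ_two]
  fin_cases c <;> fin_cases y <;> fin_cases y' <;> simp [Y] <;> 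
    first | exact mul_inv_cancel_left₀ hu _ | exact inv_mul_cancel_left₀ hu _

theorem base5 {u : ℂ} (hu : u ≠ 0) (x x' d : Fin 2) (L₂ : List (Fin 2 × Fin 2)) (c : Fin 2) : 
    ∑ z, tr (Y u) c ((x, z) :: (x', z) :: L₂) d = if x = x' then tr (Y u) c L₂ d else 0 := by
  simp only [tr_cons, Fin.sum_univ_two]
  fin_cases c <;> fin_cases x <;> fin_cases x' <;> simp [Y] <;> 
    first | exact mul_inv_cancel_left₀ hu _ | exact inv_mul_cancel_left₀ hu _

theorem kern_Y {u : ℂ} (hu : u ≠ 0) : Kern 2 (tr (Y u)) u where
  hN := by norm_num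
  hq := hu
  nil := fun _ _ => rfl
  s1 := fun y d L => by
    simp only [tr_cons, Fin.sum_univ_two]
    fin_cases y <;> simp [Y]
  s2 := fun c y L => by
    simp only [tr_concat, Fin.sum_univ_two]
    fin_cases y <;> simp [Y] <;> ring
  s3 := fun c x L => by
    simp only [tr_concat, Fin.sum_univ_two]
    fin_cases x <;> simp [Y] <;> ring
  s4 := fun y y' d L₂ L₁ => by
    induction L₁ with
    | nil => 
      intro c
      exact base4 hu y y' d L₂ c
    | cons p L₁ ih =>
      obtain ⟨x', y''⟩ := p
      intro c
      simp only [List.cons_append, tr_cons]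
      rw [Finset.sum_comm]
      simp only [← Finset.mul_sum, ih]
      by_cases h : y = y' <;> simp [h]
  s5 := fun x x' d L₂ L₁ => by
    induction L₁ with
    | nil => 
      intro c
      exact base5 hu x x' d L₂ c
    | cons p L₁ ih =>
      obtain ⟨x'', y''⟩ := p
      intro c
      simp only [List.cons_append, tr_cons]
      rw [Finset.sum_comm]
      simp only [← Finset.mul_sum, ih]
      by_cases h : x = x' <;> simp [h]

end Pool.Agent.T6.H98.KO
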