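import Pool.Agent.T6.H98.KO.EvalI

set_option autoImplicit false

/-! The sum over all states and all orientations at `A = i`. -/

namespace Pool.Agent.T6.H98.KO

open Finset LaurentPolynomial Pool.Agent.H891R2.HO
open Pool.Agent.H891R2.HO.O6 (Sup)
open Pool.Agent.H891R2.Jones (ind ind_pos ind_neg ind_congr ind_mul prod_ind zpow_sum)

variable {k n : ℕ} {G : Shadow k} (S : Shortcut G n)

theorem pair_inv_iff {i : Fin k} (t : Bool) (col : Fin k × Fin 4 → Fin 2) : 
    (∀ j, col (i, j) = col (i, pair t j)) ↔ pr t (col (i, 0)) (col (i, 1)) (col (i, 2)) (col (i, 3)) := by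
  unfold pr
  cases t
  · simp only [Bool.false_eq_true, if_false]
    constructor
    · intro h
      exact ⟨h 1, h 3⟩
    · rintro ⟨h1, h2⟩ j
      rcases O1.four_cases j with rfl | rfl | rfl | rfl
      · exact h2.symm
      · exact h1
      · exact h1.symm
      · exact h2
  · simp only [if_true]
    constructor
    · intro h
      exact ⟨h 0, h 2⟩
    · rintro ⟨h1, h2⟩ j
      rcases O1.four_cases j with rfl | rfl | rfl | rfl
      · exact h1
      · exact h1.symm
      · exact h2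
      · exact h2.symm

/-- the sum over the two smoothings of a crossing -/
theorem local_val (c0 c1 c2 c3 : Fin 2) (b : Bool) : 
    ∑ t : Bool, (Complex.I : ℂ) ^ (if t = b then (1 : ℤ) else -1) * ind (pr t c0 c1 c2 c3) = 
      if c2 = c0 + 1 ∧ c3 = c1 + 1 then Complex.I ^ (if decide (c0 = c1) = b then (1 : ℤ) else -1) else 0 := by
  unfold ind pr
  rw [Fintype.sum_bool]
  fin_cases c0 <;> fin_cases c1 <;> fin_cases c2 <;> fin_cases c3 <;> cases b <;> simp

theorem sum_states (w : Fin k → Bool) (col : Fin k × Fin 4 → Fin 2) : 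
    ∑ s : S.Rest → Bool, (Complex.I : ℂ) ^ (wg S w s) * ind (∀ p q, S.Out s p q → col p = col q) = 
      ind (∀ c, col c = col (G.arc c)) * ∏ i : S.Rest, 
        if col (i.1, 2) = col (i.1, 0) + 1 ∧ col (i.1, 3) = col (i.1, 1) + 1 then 
          (Complex.I : ℂ) ^ (if decide (col (i.1, 0) = col (i.1, 1)) = w i then (1 : ℤ) else -1) else 0 := by
  have h1 : ∀ i : S.Rest, (if col (i.1, 2) = col (i.1, 0) + 1 ∧ col (i.1, 3) = col (i.1, 1) + 1 then 
      (Complex.I : ℂ) ^ (if decide (col (i.1, 0) = col (i.1, 1)) = w i then (1 : ℤ) else -1) else 0) = 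
      ∑ t : Bool, (Complex.I : ℂ) ^ (if t = w i then (1 : ℤ) else -1) * 
        ind (∀ j, col (i.1, j) = col (i.1, pair t j)) := by
    intro i
    rw [← local_val]
    refine Finset.sum_congr rfl fun t _ => ?_
    congr 1
    exact ind_congr (pair_inv_iff t col).symm
  simp only [h1]
  rw [Finset.prod_univ_sum, Fintype.piFinset_univ, Finset.mul_sum]
  refine Finset.sum_congr rfl fun s _ => ?_
  rw [Finset.prod_mul_distrib, ← zpow_sum _ Complex.I_ne_zero, prod_ind, mul_left_comm, ind_mul]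
  unfold wg
  congr 1
  apply ind_congr
  constructor
  · intro h
    refine ⟨fun c => h _ _ (Or.inl rfl), fun i _ j => h _ _ (Or.inr ⟨i.2, rfl⟩)⟩
  · rintro ⟨h2, h3⟩ p q (rfl | ⟨hh, rfl⟩)
    · exact h2 p
    · exact h3 ⟨p.1, hh⟩ (Finset.mem_univ _) p.2

/-- the colouring of an orientation -/
def oc (χ o : Fin k × Fin 4 → Bool) (e : Fin 2) (c : Fin k × Fin 4) : Fin 2 := 
  (if xor (χ c) (o c) = true then 1 else 0) + e

variable {S}

/-- the term of a colouring -/
noncomputable def fterm (S : Shortcut G n) (w : Fin k → Bool) (u : ℂ) (col : Fin k × Fin 4 → Fin 2) : ℂ :=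
  (∏ j : Fin (n + 1), Y u (col (S.e j, 0)) (col (S.e j, 3)) (col (S.e j, 1)) (col (S.e j, 2))) *
    (ind (∀ c, col c = col (G.arc c)) * ∏ i : S.Rest, 
        if col (i.1, 2) = col (i.1, 0) + 1 ∧ col (i.1, 3) = col (i.1, 1) + 1 then 
          (Complex.I : ℂ) ^ (if decide (col (i.1, 0) = col (i.1, 1)) = w i then (1 : ℤ) else -1) else 0)

theorem fterm_adm (w : Fin k → Bool) (u : ℂ) (col : Fin k × Fin 4 → Fin 2) (h : fterm S w u col ≠ 0) :
    (∀ c, col c = col (G.arc c)) ∧ ∀ i, col (i, 2) = col (i, 0) + 1 ∧ col (i, 3) = col (i, 1) + 1 := by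
  unfold fterm at h
  have h1 := left_ne_zero_of_mul h
  have h2 := right_ne_zero_of_mul h
  have h3 := left_ne_zero_of_mul h2
  have h4 := right_ne_zero_of_mul h2
  refine ⟨?_, fun i => ?_⟩
  · by_contra hc
    exact h3 (ind_neg hc)
  · by_cases hi : ∀ j, S.e j ≠ i
    · have h5 := Finset.prod_ne_zero_iff.1 h4 ⟨i, hi⟩ (Finset.mem_univ _)
      by_contra hc
      exact h5 (if_neg hc)
    · push Not at hi
      obtain ⟨j, rfl⟩ := hi
      have h5 := Finset.prod_ne_zero_iff.1 h1 j (Finset.mem_univ _)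
      unfold Y at h5
      by_contra hc
      apply h5
      rw [if_neg]
      rintro ⟨h6, h7⟩
      apply hc
      refine ⟨h6, ?_⟩
      revert h7
      generalize col (S.e j, 3) = a
      generalize col (S.e j, 1) = b
      revert a b
      decide

theorem adm_unique (hK : G.IsKnot) (χ : Fin k × Fin 4 → Bool) (hχ1 : ∀ c, χ (G.arc c) = !(χ c))
    (hχ2 : ∀ i j, χ (i, j + 1) = !(χ (i, j))) (o : Fin k × Fin 4 → Bool) (ho : G.Oriented o)
    (col : Fin k × Fin 4 → Fin 2) (h1 : ∀ c, col c = col (G.arc c)) 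
    (h2 : ∀ i, col (i, 2) = col (i, 0) + 1 ∧ col (i, 3) = col (i, 1) + 1) : 
    col = oc χ o 0 ∨ col = oc χ o 1 := by
  have hχ3 : ∀ i j, χ (i, j + 2) = χ (i, j) := by
    intro i j
    have e : j + 2 = j + 1 + 1 := by rw [add_assoc]; rfl
    rw [e, hχ2, hχ2, Bool.not_not]
  let δ : Fin k × Fin 4 → Fin 2 := fun c => col c + oc χ o 0 c
  have hδ : ∀ c c', (c' = G.arc c ∨ c' = (c.1, c.2 + 2)) → δ c = δ c' := by
    rintro c c' (rfl | rfl)
    · simp only [δ, oc]
      rw [← h1, hχ1, ho.1]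
      cases χ c <;> cases o c <;> rfl
    · have h3 : col (c.1, c.2 + 2) = col c + 1 := by
        obtain ⟨i, j⟩ := c
        rcases O1.four_cases j with rfl | rfl | rfl | rfl
        · exact (h2 i).1
        · exact (h2 i).2
        · show col (i, 2 + 2) = col (i, 2) + 1
          have e : (2 + 2 : Fin 4) = 0 := rfl
          rw [e, (h2 i).1, add_assoc]
          show _ = col (i, 0) + 0
          rw [add_zero]
        · show col (i, 3 + 2) = col (i, 3) + 1
          have e : (3 + 2 : Fin 4) = 1 := rfl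
          rw [e, (h2 i).2, add_assoc]
          show _ = col (i, 1) + 0
          rw [add_zero]
      simp only [δ, oc, h3, hχ3, ho.2]
      have e1 : χ (c.1, c.2) = χ c := rfl
      have e2 : o (c.1, c.2) = o c := rfl
      rw [e1, e2]
      generalize col c = a
      generalize χ c = b
      generalize o c = d
      revert a b d
      decide
  have hconst : ∀ c c', δ c = δ c' := by
    intro c c'
    unfold Shadow.IsKnot at hK
    have h3 := (Nat.card_eq_one_iff_unique.1 hK).1
    have h4 : Quot.mk (fun c c' : Fin k × Fin 4 => c' = G.arc c ∨ c' = (c.1, c.2 + 2)) c = Quot.mk _ c' := 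
      Subsingleton.elim _ _
    exact congrArg (Quot.lift δ hδ) h4
  obtain ⟨c⟩ : Nonempty (Fin k × Fin 4) := by
    have h3 := (Nat.card_eq_one_iff_unique.1 hK).2
    obtain ⟨q⟩ := h3
    obtain ⟨c, _⟩ := Quot.exists_rep q
    exact ⟨c⟩
  have h5 : δ c = 0 ∨ δ c = 1 := by
    generalize δ c = a
    revert a
    decide
  rcases h5 with h5 | h5
  · left
    funext c'
    have h6 := hconst c' c
    rw [h5] at h6
    simp only [δ] at h6
    revert h6
    generalize col c' = a
    generalize oc χ o 0 c' = b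
    revert a b
    decide
  · right
    funext c'
    have h6 := hconst c' c
    rw [h5] at h6
    have h7 : oc χ o 1 c' = oc χ o 0 c' + 1 := by
      unfold oc
      rw [add_zero]
    rw [h7]
    simp only [δ] at h6
    revert h6
    generalize col c' = a
    generalize oc χ o 0 c' = b
    revert a b
    decide

theorem fterm_oc (S : Shortcut G n) (w : Fin k → Bool) (u : ℂ) (hu : u ≠ 0) (χ : Fin k × Fin 4 → Bool) 
    (hχ1 : ∀ c, χ (G.arc c) = !(χ c))
    (hχ2 : ∀ i j, χ (i, j + 1) = !(χ (i, j))) (o : Fin k × Fin 4 → Bool) (ho : G.Oriented o) (e : Fin 2) :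
    fterm S w u (oc χ o e) = u ^ (S.tau o) * Complex.I ^ (wr S w o) := by
  have hx1 : ∀ i, χ (i, 1) = !(χ (i, 0)) := fun i => hχ2 i 0
  have hx2 : ∀ i, χ (i, 2) = χ (i, 0) := fun i => by
    have : χ (i, 2) = !(χ (i, 1)) := hχ2 i 1
    rw [this, hx1, Bool.not_not]
  have hx3 : ∀ i, χ (i, 3) = !(χ (i, 0)) := fun i => by
    have : χ (i, 3) = !(χ (i, 2)) := hχ2 i 2
    rw [this, hx2]
  have ho2 : ∀ i, o (i, 2) = !(o (i, 0)) := fun i => ho.2 i 0
  have ho3 : ∀ i, o (i, 3) = !(o (i, 1)) := fun i => ho.2 i 1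
  unfold fterm
  rw [ind_pos, one_mul]
  · congr 1
    · unfold Shortcut.tau
      rw [zpow_sum _ hu]
      refine Finset.prod_congr rfl fun j _ => ?_
      unfold Y oc Shadow.sign
      rw [hx1, hx2, hx3, ho2, ho3]
      cases χ (S.e j, 0) <;> cases o (S.e j, 0) <;> cases o (S.e j, 1) <;> fin_cases e <;> simp
    · unfold wr
      rw [zpow_sum _ Complex.I_ne_zero]
      refine Finset.prod_congr rfl fun i _ => ?_
      unfold oc Shadow.sign
      rw [hx1, hx2, hx3, ho2, ho3]
      cases χ (i.1, 0) <;> cases o (i.1, 0) <;> cases o (i.1, 1) <;> cases w i.1 <;> fin_cases e <;> simp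
  · intro c
    unfold oc
    rw [hχ1, ho.1]
    cases χ c <;> cases o c <;> rfl

/-- the sum over all states -/
theorem total_flow (S : Shortcut G n) (hG : Sphere G) (hK : G.IsKnot) (w : Fin k → Bool) 
    (o : Fin k × Fin 4 → Bool) (ho : G.Oriented o) (u : ℂ) (hu : u ≠ 0) :
    ∑ s : S.Rest → Bool, (Complex.I : ℂ) ^ (wg S w s) * flowSum S s u = 
      2 * (u ^ (S.tau o) * Complex.I ^ (wr S w o)) := by
  obtain ⟨χ, hχ1, hχ2⟩ := checkerboard hG
  have h1 : ∑ s : S.Rest → Bool, (Complex.I : ℂ) ^ (wg S w s) * flowSum S s u = 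
      ∑ col : Fin k × Fin 4 → Fin 2, fterm S w u col := by
    unfold flowSum
    simp only [Finset.mul_sum]
    rw [Finset.sum_comm]
    refine Finset.sum_congr rfl fun col _ => ?_
    unfold fterm
    rw [← sum_states, Finset.mul_sum]
    refine Finset.sum_congr rfl fun s _ => ?_
    ring
  have hne : oc χ o 0 ≠ oc χ o 1 := by
    intro h
    have h2 := congrFun h (S.e 0, 0)
    have h3 : oc χ o 1 (S.e 0, 0) = oc χ o 0 (S.e 0, 0) + 1 := by
      unfold oc
      rw [add_zero]
    rw [h3] at h2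
    revert h2
    generalize oc χ o 0 (S.e 0, 0) = a
    revert a
    decide
  rw [h1, Finset.sum_eq_add (oc χ o 0) (oc χ o 1) hne ?_ (fun h => absurd (Finset.mem_univ _) h) 
    (fun h => absurd (Finset.mem_univ _) h), fterm_oc S w u hu χ hχ1 hχ2 o ho, fterm_oc S w u hu χ hχ1 hχ2 o ho]
  · ring
  · rintro col _ ⟨h2, h3⟩
    by_contra h4
    obtain ⟨h5, h6⟩ := fterm_adm w u col h4
    rcases adm_unique hK χ hχ1 hχ2 o ho col h5 h6 with h7 | h7
    · exact h2 h7
    · exact h3 h7

end Pool.Agent.T6.H98.KO
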