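import Pool.Agent.T6.H98.KO.Word

set_option autoImplicit false

/-! The colour sum of an arc which passes over the pieces of a state. -/

namespace Pool.Agent.T6.H98.KO

open Finset

variable {α β : Type*} {N : ℕ}

/-- the weight of the over-strand with the colours `c` at its beginning and `d` at its end, which passes
over strands with the colours `x` to its left and `y` to its right -/
noncomputable def wt (A : ℂ) : Fin N → List (Fin N × Fin N) → Fin N → ℂ
  | c, [], d => if c = d then 1 else 0
  | c, (x, y) :: L, d => A * (if c = x then wt A y L d else 0) + A⁻¹ * (if c = y then wt A x L d else 0)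

/-- the virtual strand -/
noncomputable def wk : Fin N → List (Fin N × Fin N) → Fin N → ℂ
  | c, [], d => if c = d then 1 else 0
  | c, (x, y) :: L, d => if x = y then wk c L d else 0

theorem wt_nil (A : ℂ) (c d : Fin N) : wt A c [] d = if c = d then 1 else 0 := rfl

theorem wt_cons (A : ℂ) (c x y d : Fin N) (L : List (Fin N × Fin N)) : 
    wt A c ((x, y) :: L) d = A * (if c = x then wt A y L d else 0) + A⁻¹ * (if c = y then wt A x L d else 0) := rfl

theorem wk_cons (c x y d : Fin N) (L : List (Fin N × Fin N)) : 
    wk c ((x, y) :: L) d = if x = y then wk c L d else 0 := rfl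

theorem wt_concat (A : ℂ) (x y d : Fin N) (L : List (Fin N × Fin N)) : ∀ c,
    wt A c (L ++ [(x, y)]) d = A * (if y = d then wt A c L x else 0) + A⁻¹ * (if x = d then wt A c L y else 0) := by
  induction L with
  | nil =>
    intro c
    rw [List.nil_append, wt_cons, wt_nil, wt_nil, wt_nil, wt_nil]
    by_cases h1 : c = x <;> by_cases h2 : y = d <;> by_cases h3 : c = y <;> by_cases h4 : x = d <;> 
      simp [h1, h2, h3, h4]
  | cons p L ih =>
    obtain ⟨x', y'⟩ := p
    intro c
    rw [List.cons_append, wt_cons, wt_cons, wt_cons, ih, ih]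
    split_ifs <;> ring

theorem wk_concat (x y d : Fin N) (L : List (Fin N × Fin N)) : ∀ c,
    wk c (L ++ [(x, y)]) d = if x = y then wk c L d else 0 := by
  induction L with
  | nil => intro c; rfl
  | cons p L ih =>
    obtain ⟨x', y'⟩ := p
    intro c
    rw [List.cons_append, wk_cons, wk_cons, ih]
    split_ifs <;> rfl

section
variable {A : ℂ} (hA : A ≠ 0) (hN : (N : ℂ) = -A ^ 2 - A⁻¹ ^ 2)

include hA hN

theorem sum1 (y d : Fin N) (L : List (Fin N × Fin N)) :
    ∑ z, wt A z ((z, y) :: L) d = -A ^ 3 * wt A y L d := by
  simp only [wt_cons, if_true]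
  rw [Finset.sum_add_distrib, ← Finset.mul_sum, ← Finset.mul_sum, Finset.sum_ite_eq']
  simp only [Finset.mem_univ, if_true, Finset.sum_const, Finset.card_univ, Fintype.card_fin, nsmul_eq_mul]
  rw [hN]
  field_simp
  ring

theorem sum2 (c y : Fin N) (L : List (Fin N × Fin N)) :
    ∑ z, wt A c (L ++ [(z, y)]) z = -A⁻¹ ^ 3 * wt A c L y := by
  simp only [wt_concat, if_true]
  rw [Finset.sum_add_distrib, ← Finset.mul_sum, ← Finset.mul_sum, Finset.sum_ite_eq]
  simp only [Finset.mem_univ, if_true, Finset.sum_const, Finset.card_univ, Fintype.card_fin, nsmul_eq_mul]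
  rw [hN]
  field_simp
  ring

theorem sum3 (c x : Fin N) (L : List (Fin N × Fin N)) :
    ∑ z, wt A c (L ++ [(x, z)]) z = -A ^ 3 * wt A c L x := by
  simp only [wt_concat, if_true]
  rw [Finset.sum_add_distrib, ← Finset.mul_sum, ← Finset.mul_sum, Finset.sum_ite_eq]
  simp only [Finset.mem_univ, if_true, Finset.sum_const, Finset.card_univ, Fintype.card_fin, nsmul_eq_mul]
  rw [hN]
  field_simp
  ring

theorem sum4 (y y' d : Fin N) (L₂ L₁ : List (Fin N × Fin N)) : ∀ c,
    ∑ z, wt A c (L₁ ++ (z, y) :: (z, y') :: L₂) d = if y = y' then wt A c (L₁ ++ L₂) d else 0 := by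
  induction L₁ with
  | nil =>
    intro c
    have h0 : ∀ z, wt A c ([] ++ (z, y) :: (z, y') :: L₂) d =
        A ^ 2 * (if c = z then if y = z then wt A y' L₂ d else 0 else 0) + 
        (if c = z then if y = y' then wt A z L₂ d else 0 else 0) + 
        (if c = y then wt A y' L₂ d else 0) + 
        A⁻¹ ^ 2 * (if c = y then if z = y' then wt A z L₂ d else 0 else 0) := by
      intro z
      rw [List.nil_append, wt_cons, wt_cons, wt_cons, if_pos (rfl : z = z)]
      split_ifs <;> field_simp <;> ring
    simp only [h0]
    rw [Finset.sum_add_distrib, Finset.sum_add_distrib, Finset.sum_add_distrib, ← Finset.mul_sum,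
      ← Finset.mul_sum, Finset.sum_ite_eq, Finset.sum_ite_eq]
    simp only [Finset.mem_univ, if_true, Finset.sum_const, Finset.card_univ, Fintype.card_fin, nsmul_eq_mul,
      List.nil_append]
    by_cases hc : c = y
    · subst hc
      simp only [if_true]
      rw [Finset.sum_ite_eq']
      simp only [Finset.mem_univ, if_true]
      rw [hN]
      ring
    · simp only [if_neg hc, if_neg (Ne.symm hc), Finset.sum_const_zero]
      ring
  | cons p L₁ ih =>
    obtain ⟨x', y''⟩ := p
    intro c
    simp only [List.cons_append, wt_cons]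
    rw [Finset.sum_add_distrib, ← Finset.mul_sum, ← Finset.mul_sum]
    have h1 : ∀ (p : Prop) [Decidable p] (e : Fin N), ∑ z, (if p then wt A e (L₁ ++ (z, y) :: (z, y') :: L₂) d else 0) = 
        if p then (if y = y' then wt A e (L₁ ++ L₂) d else 0) else 0 := by
      intro p _ e
      split_ifs with hp hy
      · rw [ih]; rw [if_pos hy]
      · rw [ih]; rw [if_neg hy]
      · simp
    rw [h1, h1]
    split_ifs <;> ring

theorem sum5 (x x' d : Fin N) (L₂ L₁ : List (Fin N × Fin N)) : ∀ c,
    ∑ z, wt A c (L₁ ++ (x, z) :: (x', z) :: L₂) d = if x = x' then wt A c (L₁ ++ L₂) d else 0 := by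
  induction L₁ with
  | nil =>
    intro c
    have h0 : ∀ z, wt A c ([] ++ (x, z) :: (x', z) :: L₂) d =
        A⁻¹ ^ 2 * (if c = z then if x = z then wt A x' L₂ d else 0 else 0) + 
        (if c = z then if x = x' then wt A z L₂ d else 0 else 0) + 
        (if c = x then wt A x' L₂ d else 0) + 
        A ^ 2 * (if c = x then if z = x' then wt A z L₂ d else 0 else 0) := by
      intro z
      rw [List.nil_append, wt_cons, wt_cons, wt_cons, if_pos (rfl : z = z)]
      split_ifs <;> field_simp <;> ring
    simp only [h0]
    rw [Finset.sum_add_distrib, Finset.sum_add_distrib, Finset.sum_add_distrib, ← Finset.mul_sum,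
      ← Finset.mul_sum, Finset.sum_ite_eq, Finset.sum_ite_eq]
    simp only [Finset.mem_univ, if_true, Finset.sum_const, Finset.card_univ, Fintype.card_fin, nsmul_eq_mul,
      List.nil_append]
    by_cases hc : c = x
    · subst hc
      simp only [if_true]
      rw [Finset.sum_ite_eq']
      simp only [Finset.mem_univ, if_true]
      rw [hN]
      ring
    · simp only [if_neg hc, if_neg (Ne.symm hc), Finset.sum_const_zero]
      ring
  | cons p L₁ ih =>
    obtain ⟨x'', y''⟩ := p
    intro c
    simp only [List.cons_append, wt_cons]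
    rw [Finset.sum_add_distrib, ← Finset.mul_sum, ← Finset.mul_sum]
    have h1 : ∀ (p : Prop) [Decidable p] (e : Fin N), ∑ z, (if p then wt A e (L₁ ++ (x, z) :: (x', z) :: L₂) d else 0) = 
        if p then (if x = x' then wt A e (L₁ ++ L₂) d else 0) else 0 := by
      intro p _ e
      split_ifs with hp hy
      · rw [ih]; rw [if_pos hy]
      · rw [ih]; rw [if_neg hy]
      · simp
    rw [h1, h1]
    split_ifs <;> ring

end

theorem ksum1 (y d : Fin N) (L : List (Fin N × Fin N)) : ∑ z, wk z ((z, y) :: L) d = wk y L d := by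
  simp only [wk_cons]
  rw [Finset.sum_ite_eq']
  simp

theorem ksum2 (c y : Fin N) (L : List (Fin N × Fin N)) : ∑ z, wk c (L ++ [(z, y)]) z = wk c L y := by
  simp only [wk_concat]
  rw [Finset.sum_ite_eq']
  simp

theorem ksum3 (c x : Fin N) (L : List (Fin N × Fin N)) : ∑ z, wk c (L ++ [(x, z)]) z = wk c L x := by
  simp only [wk_concat]
  rw [Finset.sum_ite_eq]
  simp

theorem ksum4 (y y' d : Fin N) (L₂ L₁ : List (Fin N × Fin N)) : ∀ c,
    ∑ z, wk c (L₁ ++ (z, y) :: (z, y') :: L₂) d = if y = y' then wk c (L₁ ++ L₂) d else 0 := by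
  induction L₁ with
  | nil =>
    intro c
    simp only [List.nil_append, wk_cons]
    rw [Finset.sum_ite_eq']
    simp
  | cons p L₁ ih =>
    obtain ⟨x', y''⟩ := p
    intro c
    simp only [List.cons_append, wk_cons]
    by_cases h : x' = y''
    · simp only [if_pos h]
      exact ih c
    · simp [if_neg h]

theorem ksum5 (x x' d : Fin N) (L₂ L₁ : List (Fin N × Fin N)) : ∀ c,
    ∑ z, wk c (L₁ ++ (x, z) :: (x', z) :: L₂) d = if x = x' then wk c (L₁ ++ L₂) d else 0 := by
  induction L₁ with
  | nil =>
    intro c
    simp only [List.nil_append, wk_cons]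
    rw [Finset.sum_ite_eq]
    simp [eq_comm]
  | cons p L₁ ih =>
    obtain ⟨x'', y''⟩ := p
    intro c
    simp only [List.cons_append, wk_cons]
    by_cases h : x'' = y''
    · simp only [if_pos h]
      exact ih c
    · simp [if_neg h]

/-- the colours of the letters -/
def mp (f : α → β) (L : List (α × α)) : List (β × β) := L.map (fun p => (f p.1, f p.2))

theorem mp_append (f : α → β) (L L' : List (α × α)) : mp f (L ++ L') = mp f L ++ mp f L' := by
  simp [mp]

theorem mp_cons (f : α → β) (x y : α) (L : List (α × α)) : mp f ((x, y) :: L) = (f x, f y) :: mp f L := rfl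

theorem mp_nil (f : α → β) : mp f [] = [] := rfl

theorem mp_mp {γ : Type*} (f : α → β) (g : β → γ) (L : List (α × α)) : mp g (mp f L) = mp (g ∘ f) L := by
  simp [mp]

theorem mp_congr (f g : α → β) (L : List (α × α)) (h : ∀ p ∈ L, f p.1 = g p.1 ∧ f p.2 = g p.2) : 
    mp f L = mp g L := by
  unfold mp
  apply List.map_congr_left
  intro p hp
  rw [(h p hp).1, (h p hp).2]

theorem bw_map (f : α → β) (τ η : α) (L : List (α × α)) : 
    (bw τ L η).map f = bw (f τ) (mp f L) (f η) := by
  simp [bw, mp, Function.comp_def, List.map_reverse]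

theorem mem_bw {τ η z : α} {L : List (α × α)} (h : z ∉ bw τ L η) : 
    τ ≠ z ∧ η ≠ z ∧ ∀ p ∈ L, p.1 ≠ z ∧ p.2 ≠ z := by
  unfold bw at h
  simp only [List.mem_cons, List.mem_append, List.mem_map, List.mem_reverse, not_or, not_exists, 
    not_and] at h
  obtain ⟨h1, h2, h3, h4⟩ := h
  exact ⟨Ne.symm h1, Ne.symm h3, fun p hp => ⟨h2 p hp, h4 p hp⟩⟩

section sums

variable [Fintype α] [DecidableEq α]

/-- summation over the colour of one letter -/
theorem sum_update (z : α) (G : (α → Fin N) → ℂ) :
    (N : ℂ) * ∑ col : α → Fin N, G col = ∑ col : α → Fin N, ∑ c : Fin N, G (Function.update col z c) := by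
  classical
  let e := Equiv.funSplitAt z (Fin N)
  have h1 : ∀ (col : α → Fin N) (c : Fin N), Function.update col z c = e.symm (c, (e col).2) := by
    intro col c
    funext i
    by_cases h : i = z
    · subst h
      simp [e, Equiv.funSplitAt, Equiv.piSplitAt]
    · simp [e, Equiv.funSplitAt, Equiv.piSplitAt, h]
  simp only [h1]
  rw [← Equiv.sum_comp e.symm G, Fintype.sum_prod_type, 
    ← Equiv.sum_comp e.symm (fun col => ∑ c : Fin N, G (e.symm (c, (e col).2))), Fintype.sum_prod_type]
  simp only [Equiv.apply_symm_apply]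
  rw [Finset.sum_const, Finset.card_univ, Fintype.card_fin, nsmul_eq_mul]
  congr 1
  exact Finset.sum_comm

/-- summation over the colour of the letter `z` -/
theorem sum_letter (z : α) (G H : (α → Fin N) → ℂ) (a : ℂ)
    (h : ∀ col : α → Fin N, ∑ c : Fin N, G (Function.update col z c) = a * H col) :
    (N : ℂ) * ∑ col : α → Fin N, G col = a * ∑ col : α → Fin N, H col := by
  rw [sum_update z G, Finset.mul_sum]
  exact Finset.sum_congr rfl (fun col _ => h col)

theorem upd_self (col : α → Fin N) (z : α) (c : Fin N) : Function.update col z c z = c :=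
  Function.update_self z c col

theorem upd_ne (col : α → Fin N) {z y : α} (c : Fin N) (h : y ≠ z) : Function.update col z c y = col y :=
  Function.update_of_ne h c col

theorem mp_upd (col : α → Fin N) (z : α) (c : Fin N) (L : List (α × α)) 
    (h : ∀ p ∈ L, p.1 ≠ z ∧ p.2 ≠ z) : mp (Function.update col z c) L = mp col L := 
  mp_congr _ _ _ fun p hp => ⟨upd_ne col c (h p hp).1, upd_ne col c (h p hp).2⟩

/-- identification of two letters -/
theorem sum_ident (y y' : α) (hy : y ≠ y') (F : (α → Fin N) → ℂ) :
    (N : ℂ) * ∑ col : α → Fin N, (if col y = col y' then F col else 0) = 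
      ∑ col : α → Fin N, F (col ∘ Function.update id y' y) := by
  rw [sum_update y']
  refine Finset.sum_congr rfl fun col _ => ?_
  have h1 : ∀ c : Fin N, (if Function.update col y' c y = Function.update col y' c y' 
      then F (Function.update col y' c) else 0) = if col y = c then F (Function.update col y' c) else 0 := by
    intro c
    rw [upd_self, upd_ne _ _ hy]
  simp only [h1]
  rw [Finset.sum_ite_eq]
  simp only [Finset.mem_univ, if_true]
  congr 1
  funext i
  by_cases h : i = y'
  · subst h
    simp
  · simp [h]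

end sums

theorem count_ident [DecidableEq α] (y y' : α) (hy : y ≠ y') (w : List α) (c : α) :
    (w.map (Function.update id y' y)).count c = 
      if c = y then w.count y + w.count y' else if c = y' then 0 else w.count c := by
  induction w with
  | nil => simp
  | cons x w ih =>
    rw [List.map_cons, List.count_cons, ih, List.count_cons, List.count_cons, List.count_cons]
    by_cases hx : x = y'
    · subst hx
      by_cases hc : c = y
      · subst hc
        simp [hy.symm]
        omega
      · by_cases hc' : c = x
        · subst hc'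
          simp [hc]
          exact hy
        · simp [hc, hc', Ne.symm hc, Ne.symm hc']
    · by_cases hc : c = y
      · subst hc
        by_cases hxc : x = c
        · subst hxc
          simp [hx]
          omega
        · simp [hx, hxc]
      · by_cases hc' : c = y'
        · subst hc'
          simp [hx, hc]
        · simp [hx, hc, hc']

end Pool.Agent.T6.H98.KO
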