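import Pool.Agent.T6.H98.KO.Key

set_option autoImplicit false

/-! The colour sum of an arc which passes over the pieces of a state: evaluation. -/

namespace Pool.Agent.T6.H98.KO

open Finset

variable {α : Type*}

/-- weights of a strand for which curls give the factors `q`, `q⁻¹` and bigons can be removed -/
structure Kern (N : ℕ) (W : Fin N → List (Fin N × Fin N) → Fin N → ℂ) (q : ℂ) : Prop where
  hN : (N : ℂ) ≠ 0
  hq : q ≠ 0
  nil : ∀ c d, W c [] d = if c = d then 1 else 0
  s1 : ∀ y d L, ∑ z, W z ((z, y) :: L) d = q * W y L d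
  s2 : ∀ c y L, ∑ z, W c (L ++ [(z, y)]) z = q⁻¹ * W c L y
  s3 : ∀ c x L, ∑ z, W c (L ++ [(x, z)]) z = q * W c L x
  s4 : ∀ y y' d L₂ L₁ c, ∑ z, W c (L₁ ++ (z, y) :: (z, y') :: L₂) d = if y = y' then W c (L₁ ++ L₂) d else 0
  s5 : ∀ x x' d L₂ L₁ c, ∑ z, W c (L₁ ++ (x, z) :: (x', z) :: L₂) d = if x = x' then W c (L₁ ++ L₂) d else 0

theorem kern_wt {N : ℕ} {A : ℂ} (hA : A ≠ 0) (hN0 : (N : ℂ) ≠ 0) (hN : (N : ℂ) = -A ^ 2 - A⁻¹ ^ 2) : 
    Kern N (wt A) (-A ^ 3) where
  hN := hN0
  hq := by simp [hA]
  nil := fun _ _ => rfl
  s1 := fun _ _ _ => sum1 hA hN _ _ _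
  s2 := fun _ _ _ => by
    rw [sum2 hA hN, inv_neg, inv_pow]
  s3 := fun _ _ _ => sum3 hA hN _ _ _
  s4 := fun _ _ _ _ _ _ => sum4 hA hN _ _ _ _ _ _
  s5 := fun _ _ _ _ _ _ => sum5 hA hN _ _ _ _ _ _

/-- the value of the colour sum of the strand is `q^t` times the one of the virtual strand -/
def Val [Fintype α] [DecidableEq α] (τ : α) (L : List (α × α)) (η : α) (t : ℤ) : Prop :=
  ∀ (N : ℕ) (W : Fin N → List (Fin N × Fin N) → Fin N → ℂ) (q : ℂ), Kern N W q →
    ∑ col : α → Fin N, W (col τ) (mp col L) (col η) = 
      q ^ t * ∑ col : α → Fin N, wk (col τ) (mp col L) (col η)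

theorem Two.of_perm [DecidableEq α] {w w' : List α} {x : α} (h : Two w) (hp : w.Perm (x :: x :: w')) :
    Two w' ∧ x ∉ w' := by
  have h1 : ∀ c, w.count c = (x :: x :: w').count c := fun c => hp.count_eq c
  have h2 : w'.count x = 0 := by
    have h3 := h x
    have h4 := h1 x
    rw [List.count_cons_self, List.count_cons_self] at h4
    omega
  refine ⟨fun c => ?_, List.count_eq_zero.1 h2⟩
  by_cases hc : c = x
  · subst hc
    exact Or.inl h2
  · have h3 := h c
    have h4 := h1 c
    rw [List.count_cons_of_ne (Ne.symm hc), List.count_cons_of_ne (Ne.symm hc)] at h4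
    omega

section perm

variable {τ η z y y' x x' : α} {L L₁ L₂ : List (α × α)}

theorem perm1 : (bw τ ((τ, y) :: L) η).Perm (τ :: τ :: bw y L η) := by
  unfold bw
  simp only [List.map_cons, List.cons_append, List.reverse_cons]
  refine List.Perm.cons _ (List.Perm.cons _ ?_)
  have e : L.map Prod.fst ++ η :: ((L.map Prod.snd).reverse ++ [y]) = 
      (L.map Prod.fst ++ η :: (L.map Prod.snd).reverse) ++ [y] := by simp
  rw [e]
  exact List.perm_append_singleton y _

theorem perm2 : (bw τ (L ++ [(η, y)]) η).Perm (η :: η :: bw τ L y) := by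
  have e : bw τ (L ++ [(η, y)]) η = (τ :: L.map Prod.fst) ++ (η :: η :: (y :: (L.map Prod.snd).reverse)) := by
    simp [bw]
  have e2 : η :: η :: bw τ L y = [η, η] ++ ((τ :: L.map Prod.fst) ++ (y :: (L.map Prod.snd).reverse)) := by
    simp [bw]
  rw [e, e2]
  have e3 : (η :: η :: (y :: (L.map Prod.snd).reverse)) = [η, η] ++ (y :: (L.map Prod.snd).reverse) := rfl
  rw [e3, ← List.append_assoc, ← List.append_assoc]
  exact List.Perm.append_right _ List.perm_append_comm

theorem perm3 : (bw τ (L ++ [(x, η)]) η).Perm (η :: η :: bw τ L x) := by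
  have e : bw τ (L ++ [(x, η)]) η = (τ :: L.map Prod.fst ++ [x]) ++ ([η, η] ++ ((L.map Prod.snd).reverse)) := by
    simp [bw]
  have e2 : η :: η :: bw τ L x = [η, η] ++ ((τ :: L.map Prod.fst ++ [x]) ++ ((L.map Prod.snd).reverse)) := by
    simp [bw]
  rw [e, e2, ← List.append_assoc, ← List.append_assoc]
  exact List.Perm.append_right _ List.perm_append_comm

theorem perm4 : (bw τ (L₁ ++ (z, y) :: (z, y') :: L₂) η).Perm (z :: z :: y' :: y :: bw τ (L₁ ++ L₂) η) := by
  have e : bw τ (L₁ ++ (z, y) :: (z, y') :: L₂) η = 
    ((τ :: L₁.map Prod.fst) ++ [z, z]) ++ ((L₂.map Prod.fst ++ η :: (L₂.map Prod.snd).reverse) ++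
      [y', y]) ++ (L₁.map Prod.snd).reverse := by simp [bw]
  have e2 : z :: z :: y' :: y :: bw τ (L₁ ++ L₂) η = [z, z] ++ [y', y] ++ ((τ :: L₁.map Prod.fst) ++ 
    (L₂.map Prod.fst ++ η :: (L₂.map Prod.snd).reverse) ++ (L₁.map Prod.snd).reverse) := by simp [bw]
  rw [e, e2]
  generalize (τ :: L₁.map Prod.fst) = a
  generalize (L₂.map Prod.fst ++ η :: (L₂.map Prod.snd).reverse) = b
  generalize (L₁.map Prod.snd).reverse = c
  rw [← List.append_assoc ([z, z] ++ [y', y])]
  refine List.Perm.append_right _ ?_
  refine (List.Perm.append List.perm_append_comm List.perm_append_comm).trans ?_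
  rw [List.append_assoc, List.append_assoc]
  refine List.Perm.append_left _ ?_
  rw [← List.append_assoc, ← List.append_assoc]
  exact List.Perm.append_right _ List.perm_append_comm

theorem perm5 : (bw τ (L₁ ++ (x, z) :: (x', z) :: L₂) η).Perm (z :: z :: x :: x' :: bw τ (L₁ ++ L₂) η) := by
  have e : bw τ (L₁ ++ (x, z) :: (x', z) :: L₂) η = 
    ((τ :: L₁.map Prod.fst) ++ [x, x']) ++ ((L₂.map Prod.fst ++ η :: (L₂.map Prod.snd).reverse) ++
      [z, z]) ++ (L₁.map Prod.snd).reverse := by simp [bw]
  have e2 : z :: z :: x :: x' :: bw τ (L₁ ++ L₂) η = [z, z] ++ [x, x'] ++ ((τ :: L₁.map Prod.fst) ++ 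
    (L₂.map Prod.fst ++ η :: (L₂.map Prod.snd).reverse) ++ (L₁.map Prod.snd).reverse) := by simp [bw]
  rw [e, e2]
  generalize (τ :: L₁.map Prod.fst) = a
  generalize (L₂.map Prod.fst ++ η :: (L₂.map Prod.snd).reverse) = b
  generalize (L₁.map Prod.snd).reverse = c
  rw [← List.append_assoc ([z, z] ++ [x, x'])]
  refine List.Perm.append_right _ ?_
  refine (List.Perm.append List.perm_append_comm List.perm_append_comm).trans ?_
  rw [List.append_assoc, List.append_assoc]
  have h1 : ([x, x'] ++ (a ++ ([z, z] ++ b))).Perm ([z, z] ++ ([x, x'] ++ (a ++ b))) := by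
    rw [← List.append_assoc, ← List.append_assoc]
    refine (List.Perm.append_right _ List.perm_append_comm).trans ?_
    rw [List.append_assoc, List.append_assoc]
  exact h1

end perm

theorem key [Fintype α] [DecidableEq α] : ∀ (n : ℕ) (L : List (α × α)), L.length = n → ∀ (τ η : α), 
    Two (bw τ L η) → Red (bw τ L η) → ∃ t : ℤ, (2 : ℤ) ∣ t - n ∧ |t| ≤ n ∧ Val τ L η t := by
  intro n
  induction n using Nat.strong_induction_on with
  | _ n ih =>
    intro L hL τ η h2 hr
    by_cases hn : L = []
    · subst hn
      have : n = 0 := hL.symm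
      subst this
      refine ⟨0, by simp, by simp, ?_⟩
      intro N W q hk
      rw [zpow_zero, one_mul]
      simp only [mp_nil, hk.nil]
      rfl
    · have hadj : Adj (bw τ L η) := hr.adj (by simp [bw])
      rcases bw_adj hn hadj with ⟨y, L', rfl⟩ | ⟨y, L', rfl⟩ | ⟨x, L', rfl⟩ | ⟨L₁, z, y, y', L₂, rfl⟩ | 
        ⟨L₁, z, x, x', L₂, rfl⟩
      · -- the first letters
        obtain ⟨h2', hz⟩ := h2.of_perm perm1
        have hr' : Red (bw y L' η) := by
          have e : bw τ ((τ, y) :: L') η = [] ++ τ :: τ :: (L'.map Prod.fst ++ η :: (L'.map Prod.snd).reverse ++ [y]) := by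
            simp [bw]
          rw [e] at hr
          exact hr.cancel.rotate_back
        have hlen : L'.length < n := by simp at hL; omega
        obtain ⟨t, ht1, ht2, ht3⟩ := ih L'.length hlen L' rfl y η h2' hr'
        have hn' : (n : ℤ) = L'.length + 1 := by simp at hL; omega
        refine ⟨t + 1, by omega, by rw [abs_le] at ht2 ⊢; omega, ?_⟩
        obtain ⟨hz1, hz2, hz3⟩ := mem_bw hz
        intro N W q hk
        have e1 := sum_letter τ (fun col : α → Fin N => W (col τ) (mp col ((τ, y) :: L')) (col η))
          (fun col => W (col y) (mp col L') (col η)) q (by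
            intro col
            simp only [mp_cons, upd_self, upd_ne _ _ hz1, upd_ne _ _ hz2, mp_upd _ _ _ _ hz3]
            exact hk.s1 _ _ _)
        have e2 := sum_letter τ (fun col : α → Fin N => wk (col τ) (mp col ((τ, y) :: L')) (col η))
          (fun col => wk (col y) (mp col L') (col η)) 1 (by
            intro col
            simp only [mp_cons, upd_self, upd_ne _ _ hz1, upd_ne _ _ hz2, mp_upd _ _ _ _ hz3]
            rw [one_mul]
            exact ksum1 _ _ _)
        apply mul_left_cancel₀ hk.hN
        rw [e1, mul_left_comm, e2, ht3 N W q hk, zpow_add_one₀ hk.hq]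
        ring
      · -- the last left letter
        obtain ⟨h2', hz⟩ := h2.of_perm perm2
        have hr' : Red (bw τ L' y) := by
          have e : bw τ (L' ++ [(η, y)]) η = (τ :: L'.map Prod.fst) ++ (η :: η :: (y :: (L'.map Prod.snd).reverse)) := by
            simp [bw]
          rw [e] at hr
          exact hr.cancel
        have hlen : L'.length < n := by simp at hL; omega
        obtain ⟨t, ht1, ht2, ht3⟩ := ih L'.length hlen L' rfl τ y h2' hr'
        have hn' : (n : ℤ) = L'.length + 1 := by simp at hL; omega
        refine ⟨t - 1, by omega, by rw [abs_le] at ht2 ⊢; omega, ?_⟩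
        obtain ⟨hz1, hz2, hz3⟩ := mem_bw hz
        intro N W q hk
        have e1 := sum_letter η (fun col : α → Fin N => W (col τ) (mp col (L' ++ [(η, y)])) (col η))
          (fun col => W (col τ) (mp col L') (col y)) q⁻¹ (by
            intro col
            simp only [mp_append, mp_cons, mp_nil, upd_self, upd_ne _ _ hz1, upd_ne _ _ hz2, mp_upd _ _ _ _ hz3]
            exact hk.s2 _ _ _)
        have e2 := sum_letter η (fun col : α → Fin N => wk (col τ) (mp col (L' ++ [(η, y)])) (col η))
          (fun col => wk (col τ) (mp col L') (col y)) 1 (by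
            intro col
            simp only [mp_append, mp_cons, mp_nil, upd_self, upd_ne _ _ hz1, upd_ne _ _ hz2, mp_upd _ _ _ _ hz3]
            rw [one_mul]
            exact ksum2 _ _ _)
        apply mul_left_cancel₀ hk.hN
        rw [e1, mul_left_comm, e2, ht3 N W q hk, zpow_sub_one₀ hk.hq]
        ring
      · -- the last right letter
        obtain ⟨h2', hz⟩ := h2.of_perm perm3
        have hr' : Red (bw τ L' x) := by
          have e : bw τ (L' ++ [(x, η)]) η = (τ :: L'.map Prod.fst ++ [x]) ++ (η :: η :: ((L'.map Prod.snd).reverse)) := by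
            simp [bw]
          rw [e] at hr
          have := hr.cancel
          simpa [bw] using this
        have hlen : L'.length < n := by simp at hL; omega
        obtain ⟨t, ht1, ht2, ht3⟩ := ih L'.length hlen L' rfl τ x h2' hr'
        have hn' : (n : ℤ) = L'.length + 1 := by simp at hL; omega
        refine ⟨t + 1, by omega, by rw [abs_le] at ht2 ⊢; omega, ?_⟩
        obtain ⟨hz1, hz2, hz3⟩ := mem_bw hz
        intro N W q hk
        have e1 := sum_letter η (fun col : α → Fin N => W (col τ) (mp col (L' ++ [(x, η)])) (col η))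
          (fun col => W (col τ) (mp col L') (col x)) q (by
            intro col
            simp only [mp_append, mp_cons, mp_nil, upd_self, upd_ne _ _ hz1, upd_ne _ _ hz2, mp_upd _ _ _ _ hz3]
            exact hk.s3 _ _ _)
        have e2 := sum_letter η (fun col : α → Fin N => wk (col τ) (mp col (L' ++ [(x, η)])) (col η))
          (fun col => wk (col τ) (mp col L') (col x)) 1 (by
            intro col
            simp only [mp_append, mp_cons, mp_nil, upd_self, upd_ne _ _ hz1, upd_ne _ _ hz2, mp_upd _ _ _ _ hz3]
            rw [one_mul]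
            exact ksum3 _ _ _)
        apply mul_left_cancel₀ hk.hN
        rw [e1, mul_left_comm, e2, ht3 N W q hk, zpow_add_one₀ hk.hq]
        ring
      · -- two adjacent left letters
        obtain ⟨h2', hz⟩ := h2.of_perm perm4
        have hr' : Red ((τ :: L₁.map Prod.fst ++ L₂.map Prod.fst ++ η :: (L₂.map Prod.snd).reverse) ++
            y' :: y :: (L₁.map Prod.snd).reverse) := by
          have e : bw τ (L₁ ++ (z, y) :: (z, y') :: L₂) η = (τ :: L₁.map Prod.fst) ++ (z :: z :: (L₂.map Prod.fst ++ 
            η :: (L₂.map Prod.snd).reverse ++ y' :: y :: (L₁.map Prod.snd).reverse)) := by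
            simp [bw]
          rw [e] at hr
          have := hr.cancel
          simpa using this
        have hlen : (L₁ ++ L₂).length < n := by simp at hL ⊢; omega
        have hn' : (n : ℤ) = (L₁ ++ L₂).length + 2 := by simp at hL ⊢; omega
        have hz' : z ∉ bw τ (L₁ ++ L₂) η := fun h => hz (by simp [h])
        have hzy : y ≠ z := fun h => hz (by simp [h])
        have hzy' : y' ≠ z := fun h => hz (by simp [h])
        obtain ⟨hz1, hz2, hz3⟩ := mem_bw hz'
        have hz3a : ∀ p ∈ L₁, p.1 ≠ z ∧ p.2 ≠ z := fun p hp => hz3 p (by simp [hp])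
        have hz3b : ∀ p ∈ L₂, p.1 ≠ z ∧ p.2 ≠ z := fun p hp => hz3 p (by simp [hp])
        have E1 : ∀ (N : ℕ) (W : Fin N → List (Fin N × Fin N) → Fin N → ℂ) (q : ℂ), Kern N W q → 
            (N : ℂ) * ∑ col : α → Fin N, W (col τ) (mp col (L₁ ++ (z, y) :: (z, y') :: L₂)) (col η) =
              1 * ∑ col : α → Fin N, if col y = col y' then W (col τ) (mp col (L₁ ++ L₂)) (col η) else 0 := by
          intro N W q hk
          apply sum_letter z
          intro col
          simp only [mp_append, mp_cons, upd_self, upd_ne _ _ hz1, upd_ne _ _ hz2, mp_upd _ _ _ _ hz3a, 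
            mp_upd _ _ _ _ hz3b, upd_ne _ _ hzy, upd_ne _ _ hzy']
          rw [one_mul]
          exact hk.s4 _ _ _ _ _ _
        have E2 : ∀ (N : ℕ),
            (N : ℂ) * ∑ col : α → Fin N, wk (col τ) (mp col (L₁ ++ (z, y) :: (z, y') :: L₂)) (col η) =
              1 * ∑ col : α → Fin N, if col y = col y' then wk (col τ) (mp col (L₁ ++ L₂)) (col η) else 0 := by
          intro N
          apply sum_letter z
          intro col
          simp only [mp_append, mp_cons, upd_self, upd_ne _ _ hz1, upd_ne _ _ hz2, mp_upd _ _ _ _ hz3a, 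
            mp_upd _ _ _ _ hz3b, upd_ne _ _ hzy, upd_ne _ _ hzy']
          rw [one_mul]
          exact ksum4 _ _ _ _ _ _
        by_cases hyy : y = y'
        · subst hyy
          obtain ⟨h2'', _⟩ := h2'.of_perm (List.Perm.refl _)
          have hr'' : Red (bw τ (L₁ ++ L₂) η) := by
            have := hr'.cancel
            simpa [bw] using this
          obtain ⟨t, ht1, ht2, ht3⟩ := ih _ hlen (L₁ ++ L₂) rfl τ η h2'' hr''
          refine ⟨t, by omega, by rw [abs_le] at ht2 ⊢; omega, ?_⟩
          intro N W q hk
          apply mul_left_cancel₀ hk.hN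
          rw [E1 N W q hk, mul_left_comm, E2 N]
          simp only [if_true]
          rw [ht3 N W q hk]
          ring
        · have hr'' : Red (bw (Function.update id y' y τ) (mp (Function.update id y' y) (L₁ ++ L₂)) 
              (Function.update id y' y η)) := by
            have h3 := hr'.map (Function.update id y' y)
            rw [List.map_append, List.map_cons, List.map_cons] at h3
            have e1 : Function.update id y' y y' = y := Function.update_self _ _ _
            have e2 : Function.update id y' y y = y := Function.update_of_ne hyy _ _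
            rw [e1, e2] at h3
            have h4 := h3.cancel
            rw [← bw_map]
            simpa [bw] using h4
          have h2'' : Two (bw (Function.update id y' y τ) (mp (Function.update id y' y) (L₁ ++ L₂)) 
              (Function.update id y' y η)) := by
            intro c
            rw [← bw_map, count_ident y y' hyy]
            have h5 := h2' c
            rw [List.count_cons, List.count_cons] at h5
            by_cases hc : c = y
            · subst hc
              rw [if_pos rfl]
              have h6 := h2' y'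
              rw [List.count_cons, List.count_cons] at h6
              simp [hyy, Ne.symm hyy] at h5 h6
              omega
            · rw [if_neg hc]
              by_cases hc' : c = y'
              · rw [if_pos hc']; exact Or.inl rfl
              · rw [if_neg hc']
                simp [Ne.symm hc, Ne.symm hc'] at h5
                simpa using h5
          obtain ⟨t, ht1, ht2, ht3⟩ := ih _ hlen (mp (Function.update id y' y) (L₁ ++ L₂)) (by simp [mp]) 
            _ _ h2'' hr''
          refine ⟨t, by omega, by rw [abs_le] at ht2 ⊢; omega, ?_⟩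
          intro N W q hk
          apply mul_left_cancel₀ hk.hN
          apply mul_left_cancel₀ hk.hN
          have F1 := sum_ident y y' hyy (fun col : α → Fin N => W (col τ) (mp col (L₁ ++ L₂)) (col η))
          have F2 := sum_ident y y' hyy (fun col : α → Fin N => wk (col τ) (mp col (L₁ ++ L₂)) (col η))
          have F3 := ht3 N W q hk
          simp only [mp_mp] at F3
          have F4 : ∀ c S : ℂ, (N : ℂ) * ((N : ℂ) * (c * S)) = c * ((N : ℂ) * ((N : ℂ) * S)) := by
            intro c S
            ring
          rw [E1 N W q hk, one_mul, F1, F4, E2 N, one_mul, F2]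
          exact F3
      · -- two adjacent right letters
        obtain ⟨h2', hz⟩ := h2.of_perm perm5
        have hr' : Red ((τ :: L₁.map Prod.fst) ++ x :: x' :: (L₂.map Prod.fst ++ η :: (L₂.map Prod.snd).reverse ++
            (L₁.map Prod.snd).reverse)) := by
          have e : bw τ (L₁ ++ (x, z) :: (x', z) :: L₂) η = ((τ :: L₁.map Prod.fst) ++ x :: x' :: (L₂.map Prod.fst ++ 
            η :: (L₂.map Prod.snd).reverse)) ++ z :: z :: (L₁.map Prod.snd).reverse := by
            simp [bw]
          rw [e] at hr
          have := hr.cancel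
          simpa using this
        have hlen : (L₁ ++ L₂).length < n := by simp at hL ⊢; omega
        have hn' : (n : ℤ) = (L₁ ++ L₂).length + 2 := by simp at hL ⊢; omega
        have hz' : z ∉ bw τ (L₁ ++ L₂) η := fun h => hz (by simp [h])
        have hzy : x ≠ z := fun h => hz (by simp [h])
        have hzy' : x' ≠ z := fun h => hz (by simp [h])
        obtain ⟨hz1, hz2, hz3⟩ := mem_bw hz'
        have hz3a : ∀ p ∈ L₁, p.1 ≠ z ∧ p.2 ≠ z := fun p hp => hz3 p (by simp [hp])
        have hz3b : ∀ p ∈ L₂, p.1 ≠ z ∧ p.2 ≠ z := fun p hp => hz3 p (by simp [hp])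
        have E1 : ∀ (N : ℕ) (W : Fin N → List (Fin N × Fin N) → Fin N → ℂ) (q : ℂ), Kern N W q → 
            (N : ℂ) * ∑ col : α → Fin N, W (col τ) (mp col (L₁ ++ (x, z) :: (x', z) :: L₂)) (col η) =
              1 * ∑ col : α → Fin N, if col x = col x' then W (col τ) (mp col (L₁ ++ L₂)) (col η) else 0 := by
          intro N W q hk
          apply sum_letter z
          intro col
          simp only [mp_append, mp_cons, upd_self, upd_ne _ _ hz1, upd_ne _ _ hz2, mp_upd _ _ _ _ hz3a, 
            mp_upd _ _ _ _ hz3b, upd_ne _ _ hzy, upd_ne _ _ hzy']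
          rw [one_mul]
          exact hk.s5 _ _ _ _ _ _
        have E2 : ∀ (N : ℕ),
            (N : ℂ) * ∑ col : α → Fin N, wk (col τ) (mp col (L₁ ++ (x, z) :: (x', z) :: L₂)) (col η) =
              1 * ∑ col : α → Fin N, if col x = col x' then wk (col τ) (mp col (L₁ ++ L₂)) (col η) else 0 := by
          intro N
          apply sum_letter z
          intro col
          simp only [mp_append, mp_cons, upd_self, upd_ne _ _ hz1, upd_ne _ _ hz2, mp_upd _ _ _ _ hz3a, 
            mp_upd _ _ _ _ hz3b, upd_ne _ _ hzy, upd_ne _ _ hzy']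
          rw [one_mul]
          exact ksum5 _ _ _ _ _ _
        by_cases hyy : x = x'
        · subst hyy
          obtain ⟨h2'', _⟩ := h2'.of_perm (List.Perm.refl _)
          have hr'' : Red (bw τ (L₁ ++ L₂) η) := by
            have := hr'.cancel
            simpa [bw] using this
          obtain ⟨t, ht1, ht2, ht3⟩ := ih _ hlen (L₁ ++ L₂) rfl τ η h2'' hr''
          refine ⟨t, by omega, by rw [abs_le] at ht2 ⊢; omega, ?_⟩
          intro N W q hk
          apply mul_left_cancel₀ hk.hN
          rw [E1 N W q hk, mul_left_comm, E2 N]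
          simp only [if_true]
          rw [ht3 N W q hk]
          ring
        · have hr'' : Red (bw (Function.update id x' x τ) (mp (Function.update id x' x) (L₁ ++ L₂)) 
              (Function.update id x' x η)) := by
            have h3 := hr'.map (Function.update id x' x)
            rw [List.map_append, List.map_cons, List.map_cons, List.map_cons] at h3
            have e1 : Function.update id x' x x' = x := Function.update_self _ _ _
            have e2 : Function.update id x' x x = x := Function.update_of_ne hyy _ _
            rw [e1, e2] at h3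
            have h4 := h3.cancel
            rw [← bw_map]
            simpa [bw] using h4
          have h2'' : Two (bw (Function.update id x' x τ) (mp (Function.update id x' x) (L₁ ++ L₂)) 
              (Function.update id x' x η)) := by
            intro c
            rw [← bw_map, count_ident x x' hyy]
            have h5 := h2' c
            rw [List.count_cons, List.count_cons] at h5
            by_cases hc : c = x
            · subst hc
              rw [if_pos rfl]
              have h6 := h2' x'
              rw [List.count_cons, List.count_cons] at h6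
              simp [hyy, Ne.symm hyy] at h5 h6
              omega
            · rw [if_neg hc]
              by_cases hc' : c = x'
              · rw [if_pos hc']; exact Or.inl rfl
              · rw [if_neg hc']
                simp [Ne.symm hc, Ne.symm hc'] at h5
                simpa using h5
          obtain ⟨t, ht1, ht2, ht3⟩ := ih _ hlen (mp (Function.update id x' x) (L₁ ++ L₂)) (by simp [mp]) 
            _ _ h2'' hr''
          refine ⟨t, by omega, by rw [abs_le] at ht2 ⊢; omega, ?_⟩
          intro N W q hk
          apply mul_left_cancel₀ hk.hN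
          apply mul_left_cancel₀ hk.hN
          have F1 := sum_ident x x' hyy (fun col : α → Fin N => W (col τ) (mp col (L₁ ++ L₂)) (col η))
          have F2 := sum_ident x x' hyy (fun col : α → Fin N => wk (col τ) (mp col (L₁ ++ L₂)) (col η))
          have F3 := ht3 N W q hk
          simp only [mp_mp] at F3
          have F4 : ∀ c S : ℂ, (N : ℂ) * ((N : ℂ) * (c * S)) = c * ((N : ℂ) * ((N : ℂ) * S)) := by
            intro c S
            ring
          rw [E1 N W q hk, one_mul, F1, F4, E2 N, one_mul, F2]
          exact F3

end Pool.Agent.T6.H98.KO
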