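import Pool.Agent.T6.H98.KO.FlowSum

set_option autoImplicit false

/-! The congruences modulo `(A^4 - 1) (A^12 - 1)^2`. -/

namespace Pool.Agent.T6.H98.KO

open Finset LaurentPolynomial Pool.Agent.H891R2.HO
open Pool.Agent.H891R2.HO.O6 (Sup)

variable {k n : ℕ} {G : Shadow k}

theorem evI_term (S : Shortcut G n) (w : Fin k → Bool) (o : Fin k × Fin 4 → Bool) (s : S.Rest → Bool) :
    2 * evI (term S w o s) = Complex.I ^ (-(wr S w o)) * (Complex.I ^ (wg S w s) * 2 ^ S.comps s) := by
  unfold term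
  rw [map_mul, map_mul, evI_unit, evI_T, map_pow, evI_dd]
  obtain ⟨c, hc⟩ : ∃ c, S.comps s = c + 1 := ⟨S.comps s - 1, by have := comps_pos S s; omega⟩
  rw [hc, Nat.add_sub_cancel, pow_succ]
  ring

/-- the strong form of the decomposition -/
theorem structure_strong (S : Shortcut G n) (hG : Sphere G) (hK : G.IsKnot) (w : Fin k → Bool) 
    (o : Fin k × Fin 4 → Bool) (ho : G.Oriented o) : ∃ m : (S.Rest → Bool) → ℤ, 
      (∀ s, |2 * m s + S.tau o| ≤ n + 1) ∧
      (∀ s, Sup (2 * m s) (term S w o s)) ∧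
      S.fK w o = ∑ s, term S w o s ∧
      G.f (S.close w false) o = ∑ s, T (6 * m s) * term S w o s ∧
      G.f (S.close w true) o = ∑ s, T (-6 * m s) * term S w o s ∧
      (∀ l, l ≠ 0 → (T 4 - 1 : ℤ[T;T⁻¹]) ∣ ∑ s, if m s = l then term S w o s else 0) ∧
      (T 4 - 1 : ℤ[T;T⁻¹]) ∣ (∑ s, if m s = 0 then term S w o s else 0) - 1 := by
  obtain ⟨m, h1, h2, h3, h4, h5, h6⟩ := structure_state S hG hK w o ho
  have hflow : ∀ u : ℂ, u ≠ 0 → ∑ s, evI (term S w o s) * u ^ (2 * m s) = 1 := by
    intro u hu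
    have h7 := total_flow S hG hK w o ho u hu
    have h8 : ∀ s, (Complex.I : ℂ) ^ (wg S w s) * flowSum S s u = 
        (2 * (u ^ (S.tau o) * Complex.I ^ (wr S w o))) * (evI (term S w o s) * u ^ (2 * m s)) := by
      intro s
      have h9 := evI_term S w o s
      rw [h6 s u hu, zpow_add₀ hu]
      have h10 : (Complex.I : ℂ) ^ (wr S w o) * Complex.I ^ (-(wr S w o)) = 1 := by
        rw [← zpow_add₀ Complex.I_ne_zero, add_neg_cancel, zpow_zero]
      calc (Complex.I : ℂ) ^ (wg S w s) * (u ^ (2 * m s) * u ^ (S.tau o) * 2 ^ S.comps s) = 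
          (u ^ (2 * m s) * u ^ (S.tau o)) * (Complex.I ^ (wr S w o) * Complex.I ^ (-(wr S w o))) *
            (Complex.I ^ (wg S w s) * 2 ^ S.comps s) := by rw [h10]; ring
        _ = (u ^ (2 * m s) * u ^ (S.tau o)) * Complex.I ^ (wr S w o) * 
            (Complex.I ^ (-(wr S w o)) * (Complex.I ^ (wg S w s) * 2 ^ S.comps s)) := by ring
        _ = (u ^ (2 * m s) * u ^ (S.tau o)) * Complex.I ^ (wr S w o) * (2 * evI (term S w o s)) := by rw [h9]
        _ = _ := by ring
    simp only [h8] at h7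
    rw [← Finset.mul_sum] at h7
    have h11 : (2 * (u ^ (S.tau o) * Complex.I ^ (wr S w o)) : ℂ) ≠ 0 := 
      mul_ne_zero two_ne_zero (mul_ne_zero (zpow_ne_zero _ hu) (zpow_ne_zero _ Complex.I_ne_zero))
    apply mul_left_cancel₀ h11
    rw [h7, mul_one]
  have htau : |S.tau o| ≤ n + 1 := by
    unfold Shortcut.tau
    refine (Finset.abs_sum_le_sum_abs _ _).trans ?_
    have : ∀ j ∈ (Finset.univ : Finset (Fin (n + 1))), |Shadow.sign (fun _ => false) o (S.e j)| ≤ 1 := by
      intro j _
      unfold Shadow.sign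
      split_ifs <;> simp
    refine (Finset.sum_le_sum this).trans ?_
    simp
  have hM : ∀ s, |m s| ≤ ((n + 1 : ℕ) : ℤ) := by
    intro s
    have := h1 s
    rw [abs_le] at this htau ⊢
    push_cast
    omega
  have hcoef := coeff_of_const (fun s => evI (term S w o s)) m (n + 1) hM hflow
  have hsup : ∀ l, Sup (2 * l) (∑ s, if m s = l then term S w o s else 0) := by
    intro l
    apply Sup.sum
    intro s _
    split_ifs with h
    · rw [← h]; exact h2 s
    · exact Sup.zero _
  have hev : ∀ l, evI (∑ s, if m s = l then term S w o s else 0) = if l = 0 then 1 else 0 := by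
    intro l
    rw [map_sum, ← hcoef l]
    refine Finset.sum_congr rfl fun s _ => ?_
    split_ifs
    · rfl
    · exact map_zero _
  refine ⟨m, h1, h2, h3, h4, h5, fun l hl => ?_, ?_⟩
  · apply dvd_of_evI (hsup l)
    rw [hev, if_neg hl]
  · have h7 : Sup 0 ((∑ s, if m s = 0 then term S w o s else 0) - 1) := by
      rw [sub_eq_add_neg]
      have := hsup 0
      rw [mul_zero] at this
      exact this.add Sup.one.neg
    apply dvd_of_evI h7
    rw [map_sub, hev, if_pos rfl, map_one, sub_self]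

/-- divisibility of weighted sums -/
theorem dvd_weighted {ι : Type*} [Fintype ι] (m : ι → ℤ) (C : ι → ℤ[T;T⁻¹]) (g : ℤ → ℤ[T;T⁻¹]) 
    (P Q : ℤ[T;T⁻¹]) (h1 : ∀ l, l ≠ 0 → P ∣ ∑ s, if m s = l then C s else 0) (h2 : ∀ l, Q ∣ g l)
    (h3 : g 0 = 0) : P * Q ∣ ∑ s, g (m s) * C s := by
  classical
  have h4 : ∑ s, g (m s) * C s = ∑ l ∈ Finset.univ.image m, g l * ∑ s, (if m s = l then C s else 0) := by
    simp only [Finset.mul_sum]
    rw [Finset.sum_comm]
    refine Finset.sum_congr rfl fun s _ => ?_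
    rw [Finset.sum_eq_single (m s)]
    · rw [if_pos rfl]
    · intro l _ hl
      rw [if_neg (Ne.symm hl), mul_zero]
    · intro h
      exact absurd (Finset.mem_image_of_mem m (Finset.mem_univ s)) h
  rw [h4]
  refine Finset.dvd_sum fun l _ => ?_
  by_cases hl : l = 0
  · rw [hl, h3, zero_mul]
    exact dvd_zero _
  · rw [mul_comm P Q]
    exact mul_dvd_mul (h2 l) (h1 l hl)

theorem strong_congruence (S : Shortcut G n) (hG : Sphere G) (hK : G.IsKnot) (w : Fin k → Bool) 
    (o : Fin k × Fin 4 → Bool) (ho : G.Oriented o) : ∃ g₀ g₂ : ℤ[T;T⁻¹], Sup 0 g₀ ∧ Sup 2 g₂ ∧ 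
      S.fK w o = g₀ + g₂ ∧ (T 4 - 1 : ℤ[T;T⁻¹]) ∣ g₀ - 1 ∧ (T 4 - 1 : ℤ[T;T⁻¹]) ∣ g₂ ∧
      ((T 4 - 1) * (T 12 - 1) : ℤ[T;T⁻¹]) ∣ G.f (S.close w false) o - (g₀ + T 6 * g₂) ∧
      ((T 4 - 1) * (T 12 - 1) : ℤ[T;T⁻¹]) ∣ G.f (S.close w true) o - (g₀ + T 6 * g₂) ∧
      ((T 4 - 1) * (T 12 - 1) ^ 2 : ℤ[T;T⁻¹]) ∣ G.f (S.close w false) o + G.f (S.close w true) o - 
        (2 * g₀ + (T 6 + T (-6)) * g₂) := by
  classical
  obtain ⟨m, _, h2, h3, h4, h5, h6, h7⟩ := structure_strong S hG hK w o ho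
  set C : (S.Rest → Bool) → ℤ[T;T⁻¹] := term S w o with hC
  have e0 : ∀ g : ℤ → ℤ[T;T⁻¹], (∑ s, g (m s) * C s) = ∑ s, g (m s) * C s := fun _ => rfl
  refine ⟨∑ s, (if Even (m s) then C s else 0), ∑ s, (if Even (m s) then 0 else C s), ?_, ?_, ?_, ?_, ?_, ?_, 
    ?_, ?_⟩
  · apply Sup.sum
    intro s _
    split_ifs with h
    · obtain ⟨l, hl⟩ := h
      refine (h2 s).congr ⟨l, ?_⟩
      rw [hl]; ring
    · exact Sup.zero 0
  · apply Sup.sum
    intro s _
    split_ifs with h
    · exact Sup.zero 2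
    · rw [Int.not_even_iff_odd] at h
      obtain ⟨l, hl⟩ := h
      refine (h2 s).congr ⟨l, ?_⟩
      rw [hl]; ring
  · rw [h3, ← Finset.sum_add_distrib]
    refine Finset.sum_congr rfl fun s _ => ?_
    split_ifs <;> simp
  · have h8 := dvd_weighted m C (fun l => if Even l ∧ l ≠ 0 then 1 else 0) (T 4 - 1) 1 h6 (fun _ => one_dvd _) 
      (by simp)
    rw [mul_one] at h8
    have e : (∑ s, (if Even (m s) then C s else 0)) - 1 = 
        (∑ s, (if Even (m s) ∧ m s ≠ 0 then 1 else 0) * C s) + ((∑ s, if m s = 0 then C s else 0) - 1) := by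
      rw [← add_sub_assoc, ← Finset.sum_add_distrib]
      congr 1
      refine Finset.sum_congr rfl fun s _ => ?_
      by_cases hs : m s = 0
      · rw [hs]; simp
      · simp only [hs, ne_eq, not_false_eq_true, and_true, if_false, add_zero]
        split_ifs <;> simp
    rw [e]
    exact dvd_add h8 h7
  · have h8 := dvd_weighted m C (fun l => if Even l then 0 else 1) (T 4 - 1) 1 h6 (fun _ => one_dvd _) 
      (by simp)
    rw [mul_one] at h8
    have e : (∑ s, (if Even (m s) then 0 else C s)) = ∑ s, (if Even (m s) then 0 else 1) * C s := by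
      refine Finset.sum_congr rfl fun s _ => ?_
      split_ifs <;> simp
    rw [e]
    exact h8
  · have h8 := dvd_weighted m C (fun l => T (6 * l) - if Even l then 1 else T 6) (T 4 - 1) (T 12 - 1) h6 (by
      intro l
      by_cases h : Even l
      · rw [if_pos h]
        obtain ⟨l', hl⟩ := h
        rw [hl, ← two_mul]
        exact (even_cong l').1
      · rw [if_neg h]
        rw [Int.not_even_iff_odd] at h
        obtain ⟨l', hl⟩ := h
        rw [hl]
        exact (odd_cong l').1) (by simp)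
    have e : G.f (S.close w false) o - (∑ s, (if Even (m s) then C s else 0) + T 6 * ∑ s, 
        (if Even (m s) then 0 else C s)) = ∑ s, (T (6 * m s) - if Even (m s) then 1 else T 6) * C s := by
      rw [h4, Finset.mul_sum, ← Finset.sum_add_distrib, ← Finset.sum_sub_distrib]
      refine Finset.sum_congr rfl fun s _ => ?_
      split_ifs <;> ring
    rw [e]
    exact h8
  · have h8 := dvd_weighted m C (fun l => T (-6 * l) - if Even l then 1 else T 6) (T 4 - 1) (T 12 - 1) h6 (by
      intro l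
      by_cases h : Even l
      · rw [if_pos h]
        obtain ⟨l', hl⟩ := h
        have e1 : -6 * l = 6 * (2 * (-l')) := by rw [hl]; ring
        rw [e1]
        exact (even_cong _).1
      · rw [if_neg h]
        rw [Int.not_even_iff_odd] at h
        obtain ⟨l', hl⟩ := h
        have e1 : -6 * l = 6 * (2 * (-l' - 1) + 1) := by rw [hl]; ring
        rw [e1]
        exact (odd_cong _).1) (by simp)
    have e : G.f (S.close w true) o - (∑ s, (if Even (m s) then C s else 0) + T 6 * ∑ s, 
        (if Even (m s) then 0 else C s)) = ∑ s, (T (-6 * m s) - if Even (m s) then 1 else T 6) * C s := by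
      rw [h5, Finset.mul_sum, ← Finset.sum_add_distrib, ← Finset.sum_sub_distrib]
      refine Finset.sum_congr rfl fun s _ => ?_
      split_ifs <;> ring
    rw [e]
    exact h8
  · have h8 := dvd_weighted m C (fun l => T (6 * l) + T (-6 * l) - if Even l then 2 else T 6 + T (-6)) 
      (T 4 - 1) ((T 12 - 1) ^ 2) h6 (by
      intro l
      by_cases h : Even l
      · rw [if_pos h]
        obtain ⟨l', hl⟩ := h
        rw [hl, ← two_mul]
        exact (even_cong l').2
      · rw [if_neg h]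
        rw [Int.not_even_iff_odd] at h
        obtain ⟨l', hl⟩ := h
        rw [hl]
        exact (odd_cong l').2) (by simp; norm_num)
    have e : G.f (S.close w false) o + G.f (S.close w true) o - (2 * ∑ s, (if Even (m s) then C s else 0) + 
        (T 6 + T (-6)) * ∑ s, (if Even (m s) then 0 else C s)) = 
        ∑ s, (T (6 * m s) + T (-6 * m s) - if Even (m s) then 2 else T 6 + T (-6)) * C s := by
      rw [h4, h5, Finset.mul_sum, Finset.mul_sum, ← Finset.sum_add_distrib, ← Finset.sum_add_distrib, 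
        ← Finset.sum_sub_distrib]
      refine Finset.sum_congr rfl fun s _ => ?_
      split_ifs <;> ring
    rw [e]
    exact h8

end Pool.Agent.T6.H98.KO
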