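import Pool.Agent.T6.H98.KO.Transfer
import Pool.Agent.H891R2.HO.O5
import Pool.Agent.H891R2.HO.O6

set_option autoImplicit false

/-! The normalised brackets of a knotoid diagram and of its closures. -/

namespace Pool.Agent.T6.H98.KO

open Finset LaurentPolynomial Pool.Agent.H891R2.HO
open Pool.Agent.H891R2.Jones (Ar Ar_ne Ar_d ev ev_T eq_one_of_ev)
open Pool.Agent.H891R2.HO.O6 (Sup)

variable {k n : ℕ}

theorem eq_of_ev (f g : ℤ[T;T⁻¹]) (h : ∀ N (hN : 3 ≤ N), ev N hN f = ev N hN g) : f = g := by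
  have h1 : f - g + 1 = 1 := by
    apply eq_one_of_ev
    intro N hN
    rw [map_add, map_sub, h N hN, sub_self, zero_add, map_one]
  have h2 : f - g = 0 := by
    have := congrArg (fun p => p - 1) h1
    simpa using this
  exact sub_eq_zero.1 h2

theorem unit_add (a b : ℤ) : Shadow.unit (a + b) = Shadow.unit a * Shadow.unit b := by
  unfold Shadow.unit
  have e : (T (-3 * (a + b)) : ℤ[T;T⁻¹]) = T (-3 * a) * T (-3 * b) := by
    rw [← T_add]
    congr 1
    ring
  rw [e]
  by_cases ha : Even a <;> by_cases hb : Even b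
  · rw [if_pos ha, if_pos hb, if_pos (Int.even_add.2 (by tauto))]
    ring
  · rw [if_pos ha, if_neg hb, if_neg (by rw [Int.even_add]; tauto)]
    ring
  · rw [if_neg ha, if_pos hb, if_neg (by rw [Int.even_add]; tauto)]
    ring
  · rw [if_neg ha, if_neg hb, if_pos (Int.even_add.2 (by tauto))]
    ring

theorem unit_two_mul (a : ℤ) : Shadow.unit (2 * a) = T (-6 * a) := by
  unfold Shadow.unit
  rw [if_pos (even_two_mul a), one_mul]
  congr 1
  ring

theorem ev_unit (N : ℕ) (hN : 3 ≤ N) (m : ℤ) : ev N hN (Shadow.unit m) = (-(Ar N) ^ 3) ^ (-m) := by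
  unfold Shadow.unit
  have h0 : (-(Ar N) ^ 3) ^ (-m) = (-1 : ℂ) ^ (-m) * (Ar N) ^ (-3 * m) := by
    rw [neg_eq_neg_one_mul, mul_zpow]
    congr 1
    have e : ((Ar N) ^ 3 : ℂ) = (Ar N) ^ (3 : ℤ) := rfl
    rw [e, ← zpow_mul]
    congr 1
    ring
  rw [h0, map_mul, ev_T]
  congr 1
  by_cases h : Even m
  · rw [if_pos h, map_one, Even.neg_one_zpow (by simpa using h)]
  · rw [if_neg h, map_neg, map_one, Odd.neg_one_zpow]
    rw [Int.not_even_iff_odd] at h
    simpa using h

variable {G : Shadow k} (S : Shortcut G n)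

theorem loops_pos (s : Fin k → Bool) (i : Fin k) : 0 < G.loops s := by
  unfold Shadow.loops
  have : Nonempty (Quot (fun c c' : Fin k × Fin 4 => c' = G.arc c ∨ c' = (c.1, pair (s c.1) c.2))) :=
    ⟨Quot.mk _ (i, 0)⟩
  exact Nat.card_pos

theorem comps_pos (s : S.Rest → Bool) : 0 < S.comps s := by
  unfold Shortcut.comps
  have : Nonempty (Quot (fun c c' : Fin k × Fin 4 => S.Out s c c' ∨ 
    ∃ j, (c = (S.e j, 0) ∧ c' = (S.e j, 2)) ∨ (c = (S.e j, 1) ∧ c' = (S.e j, 3)))) :=
    ⟨Quot.mk _ (S.e 0, 0)⟩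
  exact Nat.card_pos

theorem ev_dd (N : ℕ) (hN : 3 ≤ N) : ev N hN dd = N := by
  unfold dd
  rw [map_sub, map_neg, ev_T, ev_T, Ar_d N hN, inv_pow]
  rfl

theorem ev_dd_pow (N : ℕ) (hN : 3 ≤ N) {m : ℕ} (hm : 0 < m) : (N : ℂ) * ev N hN (dd ^ (m - 1)) = (N : ℂ) ^ m := by
  rw [map_pow, ev_dd, ← pow_succ']
  congr 1
  omega

/-- the state sum over the smoothings on the shortcut -/
noncomputable def OO (s : S.Rest → Bool) (b : Bool) : ℤ[T;T⁻¹] := 
  ∑ u : Fin (n + 1) → Bool, T (∑ j, if u j = b then (1 : ℤ) else -1) * dd ^ (G.loops (glue S s u) - 1)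

/-- the sum over the orientations of the pieces of the state `s` -/
noncomputable def flowSum (s : S.Rest → Bool) (u : ℂ) : ℂ := 
  ∑ col : Fin k × Fin 4 → Fin 2, Pool.Agent.H891R2.Jones.ind (∀ p q, S.Out s p q → col p = col q) * 
    ∏ j : Fin (n + 1), Y u (col (S.e j, 0)) (col (S.e j, 3)) (col (S.e j, 1)) (col (S.e j, 2))

theorem OO_value (hG : Sphere G) (s : S.Rest → Bool) : 
    ∃ t : ℤ, (2 : ℤ) ∣ t - (n + 1) ∧ |t| ≤ n + 1 ∧ 
      OO S s false = Shadow.unit (-t) * dd ^ (S.comps s - 1) ∧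
      OO S s true = Shadow.unit t * dd ^ (S.comps s - 1) ∧
      ∀ u : ℂ, u ≠ 0 → flowSum S s u = u ^ t * 2 ^ S.comps s := by
  obtain ⟨t, ht1, ht2, ht3, ht4⟩ := state_value S hG s
  refine ⟨t, ht1, ht2, ?_, ?_, ht4⟩
  · apply eq_of_ev
    intro N hN
    have hN0 : (N : ℂ) ≠ 0 := by
      rw [Nat.cast_ne_zero]; omega
    obtain ⟨h1, _⟩ := ht3 N (Ar N) (Ar_ne N hN) hN0 (Ar_d N hN)
    apply mul_left_cancel₀ hN0
    unfold OO
    rw [map_sum, Finset.mul_sum, map_mul, ev_unit, neg_neg, mul_left_comm, ev_dd_pow N hN (comps_pos S s), ← h1]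
    refine Finset.sum_congr rfl fun u _ => ?_
    rw [map_mul, ev_T, mul_left_comm, ev_dd_pow N hN (loops_pos _ (S.e 0))]
  · apply eq_of_ev
    intro N hN
    have hN0 : (N : ℂ) ≠ 0 := by
      rw [Nat.cast_ne_zero]; omega
    obtain ⟨_, h1⟩ := ht3 N (Ar N) (Ar_ne N hN) hN0 (Ar_d N hN)
    apply mul_left_cancel₀ hN0
    unfold OO
    have e : (-(Ar N) ^ 3) ^ (-t) = (-(Ar N)⁻¹ ^ 3) ^ t := by
      rw [zpow_neg, ← inv_zpow, inv_neg, inv_pow]
    rw [map_sum, Finset.mul_sum, map_mul, ev_unit, e, mul_left_comm, ev_dd_pow N hN (comps_pos S s), ← h1]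
    refine Finset.sum_congr rfl fun u _ => ?_
    rw [map_mul, ev_T, mul_left_comm, ev_dd_pow N hN (loops_pos _ (S.e 0))]

theorem close_e (w : Fin k → Bool) (b : Bool) (j : Fin (n + 1)) : S.close w b (S.e j) = b := 
  if_pos ⟨j, rfl⟩

theorem close_rest (w : Fin k → Bool) (b : Bool) (i : S.Rest) : S.close w b i.1 = w i.1 := by
  unfold Shortcut.close
  rw [if_neg]
  rintro ⟨j, hj⟩
  exact i.2 j hj

/-- the weight of a state of the knotoid diagram -/
def wg (w : Fin k → Bool) (s : S.Rest → Bool) : ℤ := ∑ i, if s i = w i then 1 else -1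

theorem weight_glue (w : Fin k → Bool) (b : Bool) (s : S.Rest → Bool) (u : Fin (n + 1) → Bool) :
    (∑ i, if glue S s u i = S.close w b i then (1 : ℤ) else -1) = 
      wg S w s + ∑ j, if u j = b then (1 : ℤ) else -1 := by
  rw [sum_fin S]
  unfold wg
  congr 1
  · refine Finset.sum_congr rfl fun i _ => ?_
    rw [glue_rest, close_rest]
  · refine Finset.sum_congr rfl fun j _ => ?_
    rw [glue_e, close_e]

theorem bracket_close (w : Fin k → Bool) (b : Bool) : 
    G.bracket (S.close w b) = ∑ s : S.Rest → Bool, T (wg S w s) * OO S s b := by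
  unfold Shadow.bracket
  rw [sum_glue S]
  refine Finset.sum_congr rfl fun s _ => ?_
  unfold OO
  rw [Finset.mul_sum]
  refine Finset.sum_congr rfl fun u _ => ?_
  rw [weight_glue, T_add, mul_assoc]

theorem sign_congr (w w' : Fin k → Bool) (o : Fin k × Fin 4 → Bool) (i : Fin k) (h : w i = w' i) :
    Shadow.sign w o i = Shadow.sign w' o i := by
  unfold Shadow.sign
  rw [h]

theorem sign_not (o : Fin k × Fin 4 → Bool) (i : Fin k) :
    Shadow.sign (fun _ => true) o i = - Shadow.sign (fun _ => false) o i := by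
  unfold Shadow.sign
  by_cases h : o (i, 0) = o (i, 1) <;> simp [h]

/-- the writhe of the knotoid diagram -/
def wr (w : Fin k → Bool) (o : Fin k × Fin 4 → Bool) : ℤ := ∑ i : S.Rest, Shadow.sign w o i

theorem writhe_close (w : Fin k → Bool) (o : Fin k × Fin 4 → Bool) (b : Bool) : 
    ∑ i, Shadow.sign (S.close w b) o i = wr S w o + if b then - S.tau o else S.tau o := by
  rw [sum_fin S]
  unfold wr Shortcut.tau
  congr 1
  · refine Finset.sum_congr rfl fun i _ => ?_
    exact sign_congr _ _ _ _ (close_rest S w b i)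
  · cases b
    · simp only [Bool.false_eq_true, if_false]
      refine Finset.sum_congr rfl fun j _ => ?_
      exact sign_congr _ _ _ _ (close_e S w false j)
    · simp only [if_true]
      rw [← Finset.sum_neg_distrib]
      refine Finset.sum_congr rfl fun j _ => ?_
      rw [← sign_not]
      exact sign_congr _ _ _ _ (close_e S w true j)

theorem tau_parity (o : Fin k × Fin 4 → Bool) : (2 : ℤ) ∣ S.tau o - (n + 1) := by
  unfold Shortcut.tau
  have h1 : (∑ j : Fin (n + 1), Shadow.sign (fun _ => false) o (S.e j)) - ((n : ℤ) + 1) = 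
      ∑ j : Fin (n + 1), (Shadow.sign (fun _ => false) o (S.e j) - 1) := by
    rw [Finset.sum_sub_distrib]
    simp
  rw [h1]
  refine Finset.dvd_sum fun j _ => ?_
  unfold Shadow.sign
  split_ifs <;> norm_num

/-- the term of a state -/
noncomputable def term (w : Fin k → Bool) (o : Fin k × Fin 4 → Bool) (s : S.Rest → Bool) : ℤ[T;T⁻¹] :=
  Shadow.unit (wr S w o) * (T (wg S w s) * dd ^ (S.comps s - 1))

theorem fK_eq (w : Fin k → Bool) (o : Fin k × Fin 4 → Bool) : S.fK w o = ∑ s, term S w o s := by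
  unfold Shortcut.fK Shortcut.bracketK term
  rw [Finset.mul_sum]
  rfl

/-- all terms of a state of a closure have the same exponents modulo four -/
theorem sup_state (hC : G.Checkerboard) (hK : G.IsKnot) (w : Fin k → Bool) (o : Fin k × Fin 4 → Bool)
    (ho : G.Oriented o) (i₀ : Fin k) (σ : Fin k → Bool) :
    Sup 0 (Shadow.unit (∑ i, Shadow.sign w o i) * 
      (T (∑ i, if σ i = w i then 1 else -1) * dd ^ (G.loops σ - 1))) := by
  have hl : ∀ s, 1 ≤ G.loops s := fun s => loops_pos s i₀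
  set W : ℤ := ∑ i, Shadow.sign w o i with hW
  have hW2 : (2 : ℤ) ∣ W - k := by
    have h1 : W - k = ∑ i, (Shadow.sign w o i - 1) := by
      rw [Finset.sum_sub_distrib, ← hW]; simp
    rw [h1]
    refine Finset.dvd_sum fun i _ => ?_
    unfold Shadow.sign
    split_ifs <;> norm_num
  have hs := O5.loops_seifert G o ho hK
  have he0 : O6.e G w (fun i => xor (o (i, 0)) (o (i, 1))) =
      W + 2 * ((G.loops (fun i => xor (o (i, 0)) (o (i, 1))) : ℤ) - 1) := by
    unfold O6.e
    congr 1
    rw [hW]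
    exact Finset.sum_congr rfl fun i _ => O6.seifert_sign w o i
  have h1 := O6.e_all G w (O1.loops_flip G hC) (fun i => xor (o (i, 0)) (o (i, 1))) σ
  rw [he0] at h1
  have h4 : (4 : ℤ) ∣ O6.e G w σ - (W + 2 * k) := by omega
  have h5 := ((Sup.dd_pow (G.loops σ - 1)).mul_T (∑ i, if σ i = w i then 1 else -1)).mul_T (-3 * W)
  unfold Shadow.unit
  have h6 : Sup 0 (dd ^ (G.loops σ - 1) * T (∑ i, if σ i = w i then 1 else -1) * T (-3 * W)) := by
    refine h5.congr ?_
    unfold O6.e at h4
    rw [Nat.cast_sub (hl σ)]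
    push_cast
    obtain ⟨a, ha⟩ := h4
    obtain ⟨b, hb⟩ := hW2
    refine ⟨a - b, ?_⟩
    linarith
  split_ifs with hev
  · have e : 1 * T (-3 * W) * (T (∑ i, if σ i = w i then 1 else -1) * dd ^ (G.loops σ - 1)) = 
        (dd ^ (G.loops σ - 1) * T (∑ i, if σ i = w i then 1 else -1) * T (-3 * W) : ℤ[T;T⁻¹]) := by ring
    rw [e]
    exact h6
  · have e : -1 * T (-3 * W) * (T (∑ i, if σ i = w i then 1 else -1) * dd ^ (G.loops σ - 1)) = 
        -(dd ^ (G.loops σ - 1) * T (∑ i, if σ i = w i then 1 else -1) * T (-3 * W) : ℤ[T;T⁻¹]) := by ring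
    rw [e]
    exact h6.neg

theorem checkerboard (hG : Sphere G) : G.Checkerboard := by
  obtain ⟨χ, h1, h2⟩ := hG (fun _ => true) (fun _ => rfl) (fun _ => rfl)
  refine ⟨χ, fun c => ?_, fun i j => ?_⟩
  · rw [h1]; simp
  · rw [h2]; simp

/-- the decomposition of the normalised brackets -/
theorem structure_state (hG : Sphere G) (hK : G.IsKnot) (w : Fin k → Bool) (o : Fin k × Fin 4 → Bool)
    (ho : G.Oriented o) : ∃ m : (S.Rest → Bool) → ℤ, 
      (∀ s, |2 * m s + S.tau o| ≤ n + 1) ∧
      (∀ s, Sup (2 * m s) (term S w o s)) ∧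
      S.fK w o = ∑ s, term S w o s ∧
      G.f (S.close w false) o = ∑ s, T (6 * m s) * term S w o s ∧
      G.f (S.close w true) o = ∑ s, T (-6 * m s) * term S w o s ∧
      ∀ s, ∀ u : ℂ, u ≠ 0 → flowSum S s u = u ^ (2 * m s + S.tau o) * 2 ^ S.comps s := by
  choose t ht1 ht2 ht3 ht4 ht5 using OO_value S hG
  have hpar : ∀ s, ∃ m : ℤ, t s = 2 * m + S.tau o := by
    intro s
    have h1 := ht1 s
    have h2 := tau_parity S o
    exact ⟨(t s - S.tau o) / 2, by omega⟩
  choose m hm using hpar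
  have hterm : ∀ (s : S.Rest → Bool) (b : Bool), 
      Shadow.unit (∑ i, Shadow.sign (S.close w b) o i) * (T (wg S w s) * OO S s b) = 
        T ((if b then -6 else 6) * m s) * term S w o s := by
    intro s b
    rw [writhe_close]
    cases b
    · simp only [Bool.false_eq_true, if_false]
      rw [ht3, unit_add]
      unfold term
      have e1 : Shadow.unit (S.tau o) * Shadow.unit (-t s) = T (6 * m s) := by
        rw [← unit_add, hm s]
        have : S.tau o + -(2 * m s + S.tau o) = 2 * (-m s) := by ring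
        rw [this, unit_two_mul]
        congr 1
        ring
      rw [← e1]
      ring
    · simp only [if_true]
      rw [ht4, unit_add]
      unfold term
      have e1 : Shadow.unit (-S.tau o) * Shadow.unit (t s) = T (-6 * m s) := by
        rw [← unit_add, hm s]
        have : -S.tau o + (2 * m s + S.tau o) = 2 * (m s) := by ring
        rw [this, unit_two_mul]
      rw [← e1]
      ring
  refine ⟨m, ?_, ?_, fK_eq S w o, ?_, ?_, fun s u hu => by rw [← hm s]; exact ht5 s u hu⟩
  · intro s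
    rw [← hm s]
    exact ht2 s
  · intro s
    have h1 : Sup 0 (T (6 * m s) * term S w o s) := by
      have h2 := hterm s false
      simp only [Bool.false_eq_true, if_false] at h2
      rw [← h2]
      unfold OO
      rw [Finset.mul_sum, Finset.mul_sum]
      apply Sup.sum
      intro u _
      have h3 := sup_state (checkerboard hG) hK (S.close w false) o ho (S.e 0) (glue S s u)
      rw [weight_glue, T_add, mul_assoc] at h3
      exact h3
    have h2 := h1.mul_T (-6 * m s)
    have e : T (6 * m s) * term S w o s * T (-6 * m s) = term S w o s := by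
      rw [mul_comm (T (6 * m s)), mul_assoc, ← T_add]
      have : 6 * m s + -6 * m s = 0 := by ring
      rw [this, T_zero, mul_one]
    rw [e] at h2
    refine h2.congr ?_
    exact ⟨-2 * m s, by ring⟩
  · unfold Shadow.f
    rw [bracket_close, Finset.mul_sum]
    refine Finset.sum_congr rfl fun s _ => ?_
    have h2 := hterm s false
    simpa using h2
  · unfold Shadow.f
    rw [bracket_close, Finset.mul_sum]
    refine Finset.sum_congr rfl fun s _ => ?_
    have h2 := hterm s true
    simpa using h2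

end Pool.Agent.T6.H98.KO
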