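import Pool.Agent.T6.H98.KO.Main
import Pool.Agent.T6.H98.KO.Ends
import Pool.Agent.T6.H98.KO.Contract
import Pool.Agent.T6.H98.KO.Flow
import Pool.Agent.H891R2.Jones.Final

set_option autoImplicit false

/-! The state sums of the closures of a knotoid diagram. -/

namespace Pool.Agent.T6.H98.KO

open Finset LaurentPolynomial Pool.Agent.H891R2.HO
open Pool.Agent.H891R2.Jones (ind ind_pos ind_neg ind_congr ind_mul prod_ind zpow_sum card_colourings)

variable {k n : ℕ} {G : Shadow k} (S : Shortcut G n)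

/-! ### states of the closures -/

theorem split_bij : Function.Bijective (Sum.elim (Subtype.val : S.Rest → Fin k) S.e) := by
  constructor
  · rintro (⟨i, hi⟩ | j) (⟨i', hi'⟩ | j') h
    · simp only [Sum.elim_inl] at h
      subst h
      rfl
    · exact absurd h.symm (hi j')
    · exact absurd h (hi' j)
    · exact congrArg Sum.inr (S.inj h)
  · intro i
    by_cases h : ∀ j, S.e j ≠ i
    · exact ⟨Sum.inl ⟨i, h⟩, rfl⟩
    · push Not at h
      obtain ⟨j, hj⟩ := h
      exact ⟨Sum.inr j, hj⟩

noncomputable def splitE : S.Rest ⊕ Fin (n + 1) ≃ Fin k := Equiv.ofBijective _ (split_bij S)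

theorem splitE_inl (i : S.Rest) : splitE S (Sum.inl i) = i.1 := rfl

theorem splitE_inr (j : Fin (n + 1)) : splitE S (Sum.inr j) = S.e j := rfl

/-- the state `s` outside and `u` on the shortcut -/
noncomputable def glue (s : S.Rest → Bool) (u : Fin (n + 1) → Bool) (i : Fin k) : Bool := 
  Sum.elim s u ((splitE S).symm i)

theorem glue_e (s : S.Rest → Bool) (u : Fin (n + 1) → Bool) (j : Fin (n + 1)) : glue S s u (S.e j) = u j := by
  unfold glue
  rw [← splitE_inr, Equiv.symm_apply_apply]
  rfl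

theorem glue_rest (s : S.Rest → Bool) (u : Fin (n + 1) → Bool) (i : S.Rest) : glue S s u i.1 = s i := by
  unfold glue
  rw [← splitE_inl, Equiv.symm_apply_apply]
  rfl

theorem sum_glue {M : Type*} [AddCommMonoid M] (F : (Fin k → Bool) → M) : 
    ∑ σ : Fin k → Bool, F σ = ∑ s : S.Rest → Bool, ∑ u : Fin (n + 1) → Bool, F (glue S s u) := by
  rw [← Fintype.sum_prod_type']
  symm
  refine Fintype.sum_bijective (fun p : (S.Rest → Bool) × (Fin (n + 1) → Bool) => glue S p.1 p.2) ?_ _ _ 
    (fun _ => rfl)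
  constructor
  · rintro ⟨s, u⟩ ⟨s', u'⟩ h
    simp only at h
    congr 1
    · funext i
      rw [← glue_rest S s u i, h, glue_rest]
    · funext j
      rw [← glue_e S s u j, h, glue_e]
  · intro σ
    refine ⟨(fun i => σ i.1, fun j => σ (S.e j)), ?_⟩
    funext i
    by_cases h : ∀ j, S.e j ≠ i
    · exact glue_rest S _ _ ⟨i, h⟩
    · push Not at h
      obtain ⟨j, rfl⟩ := h
      exact glue_e S _ _ j

theorem sum_fin {M : Type*} [AddCommMonoid M] (F : Fin k → M) : 
    ∑ i, F i = ∑ i : S.Rest, F i.1 + ∑ j : Fin (n + 1), F (S.e j) := by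
  rw [← Equiv.sum_comp (splitE S) F, Fintype.sum_sum_type]
  rfl

/-! ### colourings -/

/-- the two smoothings, as conditions on the colours of the corners -/
def pr {N : ℕ} (t : Bool) (c0 c1 c2 c3 : Fin N) : Prop := if t then (c0 = c1 ∧ c2 = c3) else (c1 = c2 ∧ c3 = c0)

/-- colourings of a quotient -/
theorem card_split {D : Type} [Finite D] (N : ℕ) (R R' : D → D → Prop) (Q : (Quot R → Fin N) → Prop)
    (h1 : ∀ p q, R p q → R' p q)
    (h2 : ∀ c : Quot R → Fin N, Q c ↔ ∀ p q, R' p q → c (Quot.mk R p) = c (Quot.mk R q)) :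
    N ^ Nat.card (Quot R') = Nat.card {c : Quot R → Fin N // Q c} := by
  rw [← card_colourings]
  apply Nat.card_congr
  exact 
    { toFun := fun col => ⟨Quot.lift col.1 (fun p q h => col.2 p q (h1 p q h)), by
        rw [h2]
        intro p q h
        exact col.2 p q h⟩
      invFun := fun c => ⟨fun p => c.1 (Quot.mk R p), fun p q h => (h2 c.1).1 c.2 p q h⟩
      left_inv := fun col => rfl
      right_inv := fun c => by
        apply Subtype.ext
        funext x
        induction x using Quot.ind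
        rfl }

theorem card_sum {α : Type*} [Fintype α] [DecidableEq α] (N : ℕ) (Q : (α → Fin N) → Prop) :
    ((Nat.card {c : α → Fin N // Q c} : ℕ) : ℂ) = ∑ c : α → Fin N, ind (Q c) := by
  classical
  rw [Nat.card_eq_fintype_card, Fintype.card_subtype, Finset.card_eq_sum_ones, Nat.cast_sum, 
    Finset.sum_filter]
  refine Finset.sum_congr rfl fun c _ => ?_
  unfold ind
  by_cases h : Q c <;> simp [h]

section state

variable (s : S.Rest → Bool)

/-- the colours of the corners -/
def cc {N : ℕ} (c : Quot (S.Out s) → Fin N) (j : Fin (n + 1)) (b : Fin 4) : Fin N := 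
  c (Quot.mk (S.Out s) (S.e j, b))

theorem loops_glue (N : ℕ) (u : Fin (n + 1) → Bool) : 
    N ^ G.loops (glue S s u) = Nat.card {c : Quot (S.Out s) → Fin N // 
      ∀ j, pr (u j) (cc S s c j 0) (cc S s c j 1) (cc S s c j 2) (cc S s c j 3)} := by
  unfold Shadow.loops
  apply card_split
  · rintro p q (h | ⟨h, h'⟩)
    · exact Or.inl h
    · right
      rw [h', ← glue_rest S s u ⟨p.1, h⟩]
  · intro c
    constructor
    · rintro hQ p q (rfl | rfl)
      · exact congrArg c (mk_arc S s p)
      · by_cases h : ∀ j, S.e j ≠ p.1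
        · apply congrArg c
          apply Quot.sound
          right
          refine ⟨h, ?_⟩
          rw [← glue_rest S s u ⟨p.1, h⟩]
        · push Not at h
          obtain ⟨j, hj⟩ := h
          obtain ⟨a, b⟩ := p
          simp only at hj
          subst hj
          have hQj := hQ j
          simp only [glue_e]
          unfold pr cc at hQj
          cases hu : u j
          · rw [hu] at hQj
            simp only [Bool.false_eq_true, if_false] at hQj
            rcases O1.four_cases b with rfl | rfl | rfl | rfl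
            · exact hQj.2.symm
            · exact hQj.1
            · exact hQj.1.symm
            · exact hQj.2
          · rw [hu] at hQj
            simp only [if_true] at hQj
            rcases O1.four_cases b with rfl | rfl | rfl | rfl
            · exact hQj.1
            · exact hQj.1.symm
            · exact hQj.2
            · exact hQj.2.symm
    · intro h j
      have h3 : ∀ b, c (Quot.mk _ (S.e j, b)) = c (Quot.mk _ (S.e j, pair (u j) b)) := by
        intro b
        apply h
        right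
        simp only [glue_e]
      unfold pr cc
      cases hu : u j
      · rw [hu] at h3
        simp only [Bool.false_eq_true, if_false]
        exact ⟨h3 1, h3 3⟩
      · rw [hu] at h3
        simp only [if_true]
        exact ⟨h3 0, h3 2⟩

theorem comps_card (N : ℕ) : 
    N ^ S.comps s = Nat.card {c : Quot (S.Out s) → Fin N // 
      ∀ j, cc S s c j 0 = cc S s c j 2 ∧ cc S s c j 3 = cc S s c j 1} := by
  unfold Shortcut.comps
  apply card_split
  · intro p q h
    exact Or.inl h
  · intro c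
    constructor
    · rintro hQ p q (h | ⟨j, ⟨rfl, rfl⟩ | ⟨rfl, rfl⟩⟩)
      · exact congrArg c (Quot.sound h)
      · exact (hQ j).1
      · exact (hQ j).2.symm
    · intro h j
      exact ⟨h _ _ (Or.inr ⟨j, Or.inl ⟨rfl, rfl⟩⟩), (h _ _ (Or.inr ⟨j, Or.inr ⟨rfl, rfl⟩⟩)).symm⟩

variable [Fintype (Quot (S.Out s))] [DecidableEq (Quot (S.Out s))]

theorem sum_loops (N : ℕ) (A : ℂ) (hA : A ≠ 0) (b : Bool) :
    ∑ u : Fin (n + 1) → Bool, A ^ (∑ j, if u j = b then (1 : ℤ) else -1) * (N : ℂ) ^ G.loops (glue S s u) =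
      ∑ c : Quot (S.Out s) → Fin N, ∏ j : Fin (n + 1), 
        Xw (if b then A⁻¹ else A) (cc S s c j 0) (cc S s c j 3) (cc S s c j 1) (cc S s c j 2) := by
  have h1 : ∀ u : Fin (n + 1) → Bool, (N : ℂ) ^ G.loops (glue S s u) = 
      ∑ c : Quot (S.Out s) → Fin N, ∏ j : Fin (n + 1), 
        ind (pr (u j) (cc S s c j 0) (cc S s c j 1) (cc S s c j 2) (cc S s c j 3)) := by
    intro u
    rw [← Nat.cast_pow, loops_glue, card_sum]
    refine Finset.sum_congr rfl fun c _ => ?_
    rw [prod_ind]
    exact ind_congr (by simp)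
  have h2 : ∀ (c0 c1 c2 c3 : Fin N), Xw (if b then A⁻¹ else A) c0 c3 c1 c2 = 
      ∑ t : Bool, A ^ (if t = b then (1 : ℤ) else -1) * ind (pr t c0 c1 c2 c3) := by
    intro c0 c1 c2 c3
    unfold Xw pr ind
    cases b
    · simp only [Fintype.sum_bool, Bool.false_eq_true, if_false, if_true, Bool.true_eq_false, zpow_one, zpow_neg]
      have e1 : (c0 = c3 ∧ c1 = c2) ↔ (c1 = c2 ∧ c3 = c0) := by tauto
      have e2 : (c0 = c1 ∧ c3 = c2) ↔ (c0 = c1 ∧ c2 = c3) := by tauto
      simp only [e1, e2]
      rw [add_comm]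
    · simp only [Fintype.sum_bool, Bool.false_eq_true, if_false, if_true, zpow_one, zpow_neg, inv_inv]
      have e1 : (c0 = c3 ∧ c1 = c2) ↔ (c1 = c2 ∧ c3 = c0) := by tauto
      have e2 : (c0 = c1 ∧ c3 = c2) ↔ (c0 = c1 ∧ c2 = c3) := by tauto
      simp only [e1, e2]
      rw [add_comm]
  simp only [h1, h2, Finset.mul_sum]
  rw [Finset.sum_comm]
  refine Finset.sum_congr rfl fun c _ => ?_
  rw [Finset.prod_univ_sum, Fintype.piFinset_univ]
  refine Finset.sum_congr rfl fun u _ => ?_
  rw [Finset.prod_mul_distrib, zpow_sum _ hA]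

theorem sum_comps (N : ℕ) :
    (N : ℂ) ^ S.comps s = ∑ c : Quot (S.Out s) → Fin N, ∏ j : Fin (n + 1), 
        Xv (cc S s c j 0) (cc S s c j 3) (cc S s c j 1) (cc S s c j 2) := by
  rw [← Nat.cast_pow, comps_card, card_sum]
  refine Finset.sum_congr rfl fun c _ => ?_
  have h : ∀ (c0 c1 c2 c3 : Fin N), Xv c0 c3 c1 c2 = ind (c0 = c2 ∧ c3 = c1) := by
    intro c0 c1 c2 c3
    unfold Xv ind
    by_cases h : c0 = c2 ∧ c3 = c1 <;> simp [h]
  simp only [h]
  rw [prod_ind]
  exact ind_congr (by simp)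

/-- the letters at the arcs of the shortcut -/
def la : Fin (n + 2) → Quot (S.Out s) := 
  Fin.cons (Quot.mk (S.Out s) (S.e 0, 0)) (fun j => Quot.mk (S.Out s) (S.e j, 2))

theorem la_zero : la S s 0 = Quot.mk (S.Out s) (S.e 0, 0) := rfl

theorem la_succ (j : Fin (n + 1)) : la S s j.succ = Quot.mk (S.Out s) (S.e j, 2) := rfl

theorem la_castSucc (j : Fin (n + 1)) : la S s j.castSucc = Quot.mk (S.Out s) (S.e j, 0) := by
  rcases Fin.eq_zero_or_eq_succ j with rfl | ⟨j', rfl⟩
  · rfl
  · rw [Fin.castSucc_succ, la_succ, mk_arc, S.path]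

theorem la_inner (i : Fin (n + 2)) (h0 : i ≠ 0) (hl : i ≠ Fin.last (n + 1)) : 
    ∃ j : Fin n, i = j.castSucc.succ ∧ la S s i = Quot.mk (S.Out s) (S.e j.castSucc, 2) := by
  rcases Fin.eq_zero_or_eq_succ i with rfl | ⟨i', rfl⟩
  · exact absurd rfl h0
  · rcases Fin.eq_castSucc_or_eq_last i' with ⟨j, rfl⟩ | rfl
    · exact ⟨j, rfl, rfl⟩
    · exact absurd rfl hl

theorem contract_state (N : ℕ) (X : Fin N → Fin N → Fin N → Fin N → ℂ) :
    (N : ℂ) ^ n * ∑ c : Quot (S.Out s) → Fin N, ∏ j : Fin (n + 1), 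
        X (cc S s c j 0) (cc S s c j 3) (cc S s c j 1) (cc S s c j 2) = 
      ∑ c : Quot (S.Out s) → Fin N, tr X (c (Quot.mk (S.Out s) (S.e 0, 0))) 
        (mp c (List.ofFn fun j => (Quot.mk (S.Out s) (S.e j, 3), Quot.mk (S.Out s) (S.e j, 1))))
        (c (Quot.mk (S.Out s) (S.e (Fin.last n), 2))) := by
  have h := contract X n (la S s) (fun j => Quot.mk (S.Out s) (S.e j, 3)) 
    (fun j => Quot.mk (S.Out s) (S.e j, 1)) (fun _ => 1) ?_ ?_ ?_
  · simp only [one_mul] at h
    rw [← Fin.succ_last, la_succ, la_zero] at h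
    simp only [la_castSucc, la_succ] at h
    exact h
  · intro i i' h0 hl hii hcon
    obtain ⟨j, hj, hj'⟩ := la_inner S s i h0 hl
    rw [hj'] at hcon
    rcases Fin.eq_zero_or_eq_succ i' with rfl | ⟨i'', rfl⟩
    · rw [la_zero] at hcon
      rcases (inner_mk S s j hcon).2 (Or.inl rfl) with h | h
      · simp at h
      · exact absurd (S.inj (congrArg Prod.fst h)).symm (Fin.succ_ne_zero j)
    · rw [la_succ] at hcon
      rcases (inner_mk S s j hcon).2 (Or.inl rfl) with h | h
      · apply hii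
        rw [hj, S.inj (congrArg Prod.fst h)]
      · simp at h
  · intro i h0 hl j'
    obtain ⟨j, hj, hj'⟩ := la_inner S s i h0 hl
    rw [hj']
    constructor
    · intro hcon
      rcases (inner_mk S s j hcon).2 (Or.inl rfl) with h | h <;> simp at h
    · intro hcon
      rcases (inner_mk S s j hcon).2 (Or.inl rfl) with h | h <;> simp at h
  · intro i _ _ col z
    rfl

end state

theorem ends_bw (s : S.Rest → Bool) : S.ends.map (Quot.mk (S.Out s)) = 
    bw (Quot.mk (S.Out s) (S.e 0, 0)) 
      (List.ofFn fun j => (Quot.mk (S.Out s) (S.e j, 3), Quot.mk (S.Out s) (S.e j, 1)))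
      (Quot.mk (S.Out s) (S.e (Fin.last n), 2)) := by
  unfold Shortcut.ends bw
  simp only [List.map_cons, List.map_append, List.map_reverse, List.map_ofFn]
  rfl

/-- sums over the colourings of a quotient -/
theorem sum_quot {D : Type} [Fintype D] [DecidableEq D] {N : ℕ} (R : D → D → Prop) [Fintype (Quot R)] 
    [DecidableEq (Quot R)] (F : (D → Fin N) → ℂ) : 
    ∑ c : Quot R → Fin N, F (fun p => c (Quot.mk R p)) = 
      ∑ col : D → Fin N, ind (∀ p q, R p q → col p = col q) * F col := by
  classical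
  have e : {col : D → Fin N // ∀ p q, R p q → col p = col q} ≃ (Quot R → Fin N) :=
    { toFun := fun col => Quot.lift col.1 col.2
      invFun := fun f => ⟨fun p => f (Quot.mk R p), fun p q h => congrArg f (Quot.sound h)⟩
      left_inv := fun col => rfl
      right_inv := fun f => by
        funext x
        induction x using Quot.ind
        rfl }
  have h1 : ∑ col : D → Fin N, ind (∀ p q, R p q → col p = col q) * F col = 
      ∑ col ∈ Finset.univ.filter (fun col : D → Fin N => ∀ p q, R p q → col p = col q), F col := by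
    rw [Finset.sum_filter]
    refine Finset.sum_congr rfl fun col _ => ?_
    unfold ind
    split_ifs <;> simp
  rw [h1]
  symm
  refine Finset.sum_bij (fun col hcol => Quot.lift col (Finset.mem_filter.1 hcol).2) ?_ ?_ ?_ ?_
  · intro col _
    exact Finset.mem_univ _
  · intro col hcol col' hcol' h
    funext p
    exact congrFun h (Quot.mk R p)
  · intro c _
    refine ⟨fun p => c (Quot.mk R p), Finset.mem_filter.2 ⟨Finset.mem_univ _, 
      fun p q h => congrArg c (Quot.sound h)⟩, ?_⟩
    funext x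
    induction x using Quot.ind
    rfl
  · intro col _
    rfl

/-- the state sum of the closures over the smoothings of the crossings at the shortcut -/
theorem state_value (hG : Sphere G) (s : S.Rest → Bool) : 
    ∃ t : ℤ, (2 : ℤ) ∣ t - (n + 1) ∧ |t| ≤ n + 1 ∧ 
      (∀ (N : ℕ) (A : ℂ), A ≠ 0 → (N : ℂ) ≠ 0 → (N : ℂ) = -A ^ 2 - A⁻¹ ^ 2 →
        (∑ u : Fin (n + 1) → Bool, A ^ (∑ j, if u j = false then (1 : ℤ) else -1) * 
          (N : ℂ) ^ G.loops (glue S s u) = (-A ^ 3) ^ t * (N : ℂ) ^ S.comps s) ∧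
        (∑ u : Fin (n + 1) → Bool, A ^ (∑ j, if u j = true then (1 : ℤ) else -1) * 
          (N : ℂ) ^ G.loops (glue S s u) = (-A⁻¹ ^ 3) ^ t * (N : ℂ) ^ S.comps s)) ∧
      (∀ u : ℂ, u ≠ 0 → ∑ col : Fin k × Fin 4 → Fin 2, ind (∀ p q, S.Out s p q → col p = col q) * 
        ∏ j : Fin (n + 1), Y u (col (S.e j, 0)) (col (S.e j, 3)) (col (S.e j, 1)) (col (S.e j, 2)) =
          u ^ t * 2 ^ S.comps s) := by
  classical
  have hfin : Finite (Quot (S.Out s)) := Quot.finite _
  let _ : Fintype (Quot (S.Out s)) := Fintype.ofFinite _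
  have htwo := two_ends' S s
  have hred := red_of_noCross _ _ le_rfl htwo (noCross S hG s)
  rw [ends_bw] at htwo hred
  obtain ⟨t, ht1, ht2, ht3⟩ := key (n + 1) _ (List.length_ofFn) _ _ htwo hred
  have hgen : ∀ (N : ℕ) (X : Fin N → Fin N → Fin N → Fin N → ℂ) (q : ℂ), Kern N (tr X) q → 
      ∑ c : Quot (S.Out s) → Fin N, ∏ j : Fin (n + 1), 
        X (cc S s c j 0) (cc S s c j 3) (cc S s c j 1) (cc S s c j 2) = 
      q ^ t * (N : ℂ) ^ S.comps s := by
    intro N X q hk
    have hNn : (N : ℂ) ^ n ≠ 0 := pow_ne_zero _ hk.hN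
    apply mul_left_cancel₀ hNn
    rw [contract_state, mul_left_comm, sum_comps, contract_state]
    simp only [tr_Xv]
    exact ht3 N (tr X) q hk
  refine ⟨t, by exact_mod_cast ht1, by exact_mod_cast ht2, ?_, ?_⟩
  · intro N A hA hN0 hN
    have hgen' : ∀ B : ℂ, B ≠ 0 → (N : ℂ) = -B ^ 2 - B⁻¹ ^ 2 →
        ∑ c : Quot (S.Out s) → Fin N, ∏ j : Fin (n + 1), 
          Xw B (cc S s c j 0) (cc S s c j 3) (cc S s c j 1) (cc S s c j 2) = 
        (-B ^ 3) ^ t * (N : ℂ) ^ S.comps s := by
      intro B hB hNB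
      apply hgen
      have e : tr (Xw B) = (wt B : Fin N → List (Fin N × Fin N) → Fin N → ℂ) := by
        funext c L d
        exact tr_Xw B d L c
      rw [e]
      exact kern_wt hB hN0 hNB
    constructor
    · rw [sum_loops S s N A hA false]
      exact hgen' A hA hN
    · rw [sum_loops S s N A hA true]
      refine hgen' A⁻¹ (inv_ne_zero hA) ?_
      rw [hN, inv_inv]
      ring
  · intro u hu
    have h := hgen 2 (Y u) u (kern_Y hu)
    rw [← sum_quot (S.Out s) (fun col => ∏ j : Fin (n + 1), 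
      Y u (col (S.e j, 0)) (col (S.e j, 3)) (col (S.e j, 1)) (col (S.e j, 2)))]
    exact_mod_cast h

end Pool.Agent.T6.H98.KO
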